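import Mathlib
import Pool.Agent.H33.Q1.Tile
import Pool.Agent.H80.W.PatZ

set_option autoImplicit false
open Finset

/-! # Sides of the tiles as corners, pivots

The corner `hs X Y` is the horizontal side from `(X, Y)` to `(X + 1, Y)`, `vs X Y` the vertical side from
`(X, Y)` to `(X, Y + 1)` of the tile frame. A strand turns round a point of the frame: round a vertex
(`X + Y` even) through closed tiles counterclockwise, round a face (`X + Y` odd) through open tiles clockwise.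
`nx_*` : the eight quarter turns. -/

namespace Pool.Agent.H33.W

open Pool.Agent.H75.Perc Pool.Agent.H75.TwoArm
open Pool.Agent.H33.Q1 (lt tt tv tf lt_inj tt_lt lt_odd lt_tt)

/-- horizontal side -/
def hs (X Y : ℤ) : ℤ × ℤ := (X - Y + 1, X + Y + 1)

/-- vertical side -/
def vs (X Y : ℤ) : ℤ × ℤ := (X - Y, X + Y + 1)

variable {X Y x y : ℤ} {w : Finset (ℤ × ℤ)}

lemma hs_inj {X Y X' Y' : ℤ} (h : hs X Y = hs X' Y') : X = X' ∧ Y = Y' := by
  unfold hs at h
  simp only [Prod.mk.injEq] at h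
  omega

lemma vs_inj {X Y X' Y' : ℤ} (h : vs X Y = vs X' Y') : X = X' ∧ Y = Y' := by
  unfold vs at h
  simp only [Prod.mk.injEq] at h
  omega

lemma hs_ne_vs {X Y X' Y' : ℤ} : hs X Y ≠ vs X' Y' := by
  unfold hs vs
  simp only [ne_eq, Prod.mk.injEq]
  omega

/-- every corner is a side -/
lemma side_cases (c : ℤ × ℤ) : (∃ X Y, c = hs X Y) ∨ ∃ X Y, c = vs X Y := by
  obtain ⟨a, b⟩ := c
  rcases Int.emod_two_eq_zero_or_one (a + b) with h | h
  · left
    refine ⟨(a + b - 2) / 2, (b - a) / 2, ?_⟩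
    unfold hs
    refine Prod.ext ?_ ?_ <;> simp only <;> omega
  · right
    refine ⟨(a + b - 1) / 2, (b - a - 1) / 2, ?_⟩
    unfold vs
    refine Prod.ext ?_ ?_ <;> simp only <;> omega

lemma lab_hs_even (h : (X + Y) % 2 = 0) : lab (hs X Y) = lt (X, Y) ∧ plab (hs X Y) = lt (X, Y - 1) := by
  unfold lab plab hs lt
  simp only
  have h1 : (X + Y + 1) % 2 ≠ 0 := by omega
  have h2 : (X - Y + 1) % 2 ≠ 0 := by omega
  rw [if_neg h1, if_neg h2, if_neg h1, if_neg h2]
  constructor <;> refine Prod.ext ?_ ?_ <;> simp only <;> omega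

lemma lab_hs_odd (h : (X + Y) % 2 = 1) : lab (hs X Y) = lt (X, Y - 1) ∧ plab (hs X Y) = lt (X, Y) := by
  unfold lab plab hs lt
  simp only
  have h1 : (X + Y + 1) % 2 = 0 := by omega
  have h2 : (X - Y + 1) % 2 = 0 := by omega
  rw [if_pos h1, if_pos h2, if_pos h1, if_pos h2]
  constructor <;> refine Prod.ext ?_ ?_ <;> simp only <;> omega

lemma lab_vs_even (h : (X + Y) % 2 = 0) : lab (vs X Y) = lt (X - 1, Y) ∧ plab (vs X Y) = lt (X, Y) := by
  unfold lab plab vs lt
  simp only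
  have h1 : (X + Y + 1) % 2 ≠ 0 := by omega
  have h2 : (X - Y) % 2 = 0 := by omega
  rw [if_neg h1, if_pos h2, if_neg h1, if_pos h2]
  constructor <;> refine Prod.ext ?_ ?_ <;> simp only <;> omega

lemma lab_vs_odd (h : (X + Y) % 2 = 1) : lab (vs X Y) = lt (X, Y) ∧ plab (vs X Y) = lt (X - 1, Y) := by
  unfold lab plab vs lt
  simp only
  have h1 : (X + Y + 1) % 2 = 0 := by omega
  have h2 : (X - Y) % 2 ≠ 0 := by omega
  rw [if_pos h1, if_neg h2, if_pos h1, if_neg h2]
  constructor <;> refine Prod.ext ?_ ?_ <;> simp only <;> omega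

/-! ### The ends of a side -/

lemma ends_hs_even (h : (X + Y) % 2 = 0) : tv (vx (hs X Y)) = (X, Y) ∧ tf (fi (hs X Y)) = (X + 1, Y) := by
  unfold vx fi hs tv tf
  simp only
  constructor <;> refine Prod.ext ?_ ?_ <;> simp only <;> omega

lemma ends_hs_odd (h : (X + Y) % 2 = 1) : tv (vx (hs X Y)) = (X + 1, Y) ∧ tf (fi (hs X Y)) = (X, Y) := by
  unfold vx fi hs tv tf
  simp only
  constructor <;> refine Prod.ext ?_ ?_ <;> simp only <;> omega

lemma ends_vs_even (h : (X + Y) % 2 = 0) : tv (vx (vs X Y)) = (X, Y) ∧ tf (fi (vs X Y)) = (X, Y + 1) := by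
  unfold vx fi vs tv tf
  simp only
  constructor <;> refine Prod.ext ?_ ?_ <;> simp only <;> omega

lemma ends_vs_odd (h : (X + Y) % 2 = 1) : tv (vx (vs X Y)) = (X, Y + 1) ∧ tf (fi (vs X Y)) = (X, Y) := by
  unfold vx fi vs tv tf
  simp only
  constructor <;> refine Prod.ext ?_ ?_ <;> simp only <;> omega

/-! ### Quarter turns round a vertex -/

lemma nxO_nxC_hs_even (h : (X + Y) % 2 = 0) : nxO (hs X Y) = vs (X + 1) Y ∧ nxC (hs X Y) = vs X Y := by
  unfold nxO nxC hs vs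
  simp only
  have h1 : (X + Y + 1) % 2 ≠ 0 := by omega
  have h2 : (X - Y + 1) % 2 ≠ 0 := by omega
  rw [if_neg h1, if_neg h2, if_neg h1, if_neg h2]
  constructor <;> refine Prod.ext ?_ ?_ <;> simp only <;> omega

lemma nxO_nxC_hs_odd (h : (X + Y) % 2 = 1) : nxO (hs X Y) = vs X (Y - 1) ∧ nxC (hs X Y) = vs (X + 1) (Y - 1) := by
  unfold nxO nxC hs vs
  simp only
  have h1 : (X + Y + 1) % 2 = 0 := by omega
  have h2 : (X - Y + 1) % 2 = 0 := by omega
  rw [if_pos h1, if_pos h2, if_pos h1, if_pos h2]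
  constructor <;> refine Prod.ext ?_ ?_ <;> simp only <;> omega

lemma nxO_nxC_vs_even (h : (X + Y) % 2 = 0) : nxO (vs X Y) = hs (X - 1) (Y + 1) ∧ nxC (vs X Y) = hs (X - 1) Y := by
  unfold nxO nxC hs vs
  simp only
  have h1 : (X + Y + 1) % 2 ≠ 0 := by omega
  have h2 : (X - Y) % 2 = 0 := by omega
  rw [if_neg h1, if_pos h2, if_neg h1, if_pos h2]
  constructor <;> refine Prod.ext ?_ ?_ <;> simp only <;> omega

lemma nxO_nxC_vs_odd (h : (X + Y) % 2 = 1) : nxO (vs X Y) = hs X Y ∧ nxC (vs X Y) = hs X (Y + 1) := by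
  unfold nxO nxC hs vs
  simp only
  have h1 : (X + Y + 1) % 2 = 0 := by omega
  have h2 : (X - Y) % 2 ≠ 0 := by omega
  rw [if_pos h1, if_neg h2, if_pos h1, if_neg h2]
  constructor <;> refine Prod.ext ?_ ?_ <;> simp only <;> omega

end Pool.Agent.H33.W
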