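import Mathlib
import Pool.Agent.H33.W.Side
import Pool.Agent.H45.W.Sym

set_option autoImplicit false
open Finset

/-! # Framed worlds

A strand turns round a pivot: round the face of a side through an open tile, round the vertex through a closed
tile. `Wd` : region `In`, box `Zt`, deleted tiles `Dl`, colours `col` of the other tiles. `Mk F κ` : marks,
mark side `I k`, side `K k` of the frame, corridor points `Q k` from `I k` to `K k`. `Tr F F' tx ty fl` : the
worlds agree near the region up to the translation `(tx, ty)`; `fl` : the translation is odd, the states of the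
labels are flipped. `link_iff` : the same links between the sides of the frame. -/

namespace Pool.Agent.H33.W

open Pool.Agent.H75.Perc Pool.Agent.H75.TwoArm Pool.Agent.H13.W
open Pool.Agent.H33.Q1 (lt tt tv tf lt_inj tt_lt lt_odd lt_tt)
open Pool.Agent.H45.W (tr)

/-- the tile touches the point -/
def Tp (x y : ℤ) (P : ℤ × ℤ) : Prop := x ≤ P.1 ∧ P.1 ≤ x + 1 ∧ y ≤ P.2 ∧ P.2 ≤ y + 1

/-- the pivot of a side in a tile of the colour `c` -/
def pt (c : Bool) (u : ℤ × ℤ) : ℤ × ℤ := if c then tf (fi u) else tv (vx u)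

variable {X Y x y x' y' : ℤ} {c c' : Bool} {u v e : ℤ × ℤ} {D : Set (ℤ × ℤ)} {w w' : Finset (ℤ × ℤ)}

lemma pt_hs : pt c (hs X Y) = if ((X + Y) % 2 = 0 ↔ c = true) then (X + 1, Y) else (X, Y) := by
  unfold pt
  rcases Int.emod_two_eq_zero_or_one (X + Y) with h | h
  · rw [(ends_hs_even h).1, (ends_hs_even h).2]
    cases c <;> simp [h]
  · rw [(ends_hs_odd h).1, (ends_hs_odd h).2]
    cases c <;> simp [h]

lemma pt_vs : pt c (vs X Y) = if ((X + Y) % 2 = 0 ↔ c = true) then (X, Y + 1) else (X, Y) := by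
  unfold pt
  rcases Int.emod_two_eq_zero_or_one (X + Y) with h | h
  · rw [(ends_vs_even h).1, (ends_vs_even h).2]
    cases c <;> simp [h]
  · rw [(ends_vs_odd h).1, (ends_vs_odd h).2]
    cases c <;> simp [h]

lemma eW_lt : eW (lt (x, y)) = vs x y := rfl
lemma eE_lt : eE (lt (x, y)) = vs (x + 1) y := by
  unfold eE lt vs; refine Prod.ext ?_ ?_ <;> simp only <;> omega
lemma eS_lt : eS (lt (x, y)) = hs x y := by
  unfold eS lt hs; refine Prod.ext ?_ ?_ <;> simp only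
lemma eN_lt : eN (lt (x, y)) = hs x (y + 1) := by
  unfold eN lt hs; refine Prod.ext ?_ ?_ <;> simp only <;> omega

lemma sd_hs : Sd (lt (x, y)) (hs X Y) ↔ x = X ∧ (y = Y ∨ y = Y - 1) := by
  unfold Sd
  rw [eW_lt, eE_lt, eS_lt, eN_lt]
  constructor
  · rintro (h | h | h | h)
    · exact absurd h hs_ne_vs
    · exact absurd h hs_ne_vs
    · have := hs_inj h; omega
    · have := hs_inj h; omega
  · rintro ⟨rfl, rfl | rfl⟩
    · exact Or.inr (Or.inr (Or.inl rfl))
    · exact Or.inr (Or.inr (Or.inr (by rw [sub_add_cancel])))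

lemma sd_vs : Sd (lt (x, y)) (vs X Y) ↔ y = Y ∧ (x = X ∨ x = X - 1) := by
  unfold Sd
  rw [eW_lt, eE_lt, eS_lt, eN_lt]
  constructor
  · rintro (h | h | h | h)
    · have := vs_inj h; omega
    · have := vs_inj h; omega
    · exact absurd h.symm hs_ne_vs
    · exact absurd h.symm hs_ne_vs
  · rintro ⟨rfl, rfl | rfl⟩
    · exact Or.inl rfl
    · exact Or.inr (Or.inl (by rw [sub_add_cancel]))

/-- the pivots of a side of a tile are points of the tile -/
lemma tp_pt (h : Sd (lt (x, y)) u) (c : Bool) : Tp x y (pt c u) := by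
  rcases side_cases u with ⟨X, Y, rfl⟩ | ⟨X, Y, rfl⟩
  · rw [sd_hs] at h
    rw [pt_hs]
    unfold Tp
    split_ifs <;> simp only <;> omega
  · rw [sd_vs] at h
    rw [pt_vs]
    unfold Tp
    split_ifs <;> simp only <;> omega

/-- a natural tile keeps the pivot -/
lemma TJ_pt (hD : e ∉ D) (hw : e ∈ w ↔ c = true) (h : TJ D w e u v) : pt c u = pt c v := by
  have key : ∀ {u v : ℤ × ℤ}, lab u = e → nx w u = v → pt c u = pt c v := by
    intro u v h1 h2
    unfold nx at h2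
    rw [h1] at h2
    unfold pt
    cases c with
    | true =>
      rw [if_pos (hw.2 rfl)] at h2
      rw [if_pos rfl, if_pos rfl, ← h2]
      congr 1
      rcases side_cases u with ⟨X, Y, rfl⟩ | ⟨X, Y, rfl⟩ <;>
      rcases Int.emod_two_eq_zero_or_one (X + Y) with h | h
      · rw [(nxO_nxC_hs_even h).1]; unfold fi hs vs; refine Prod.ext ?_ ?_ <;> simp only <;> omega
      · rw [(nxO_nxC_hs_odd h).1]; unfold fi hs vs; refine Prod.ext ?_ ?_ <;> simp only <;> omega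
      · rw [(nxO_nxC_vs_even h).1]; unfold fi hs vs; refine Prod.ext ?_ ?_ <;> simp only <;> omega
      · rw [(nxO_nxC_vs_odd h).1]; unfold fi hs vs; refine Prod.ext ?_ ?_ <;> simp only <;> omega
    | false =>
      rw [if_neg (fun h => by simpa using hw.1 h)] at h2
      rw [if_neg (by simp), if_neg (by simp), ← h2, vx_nxC]
  rcases h with ⟨h, -⟩ | ⟨-, h | h⟩
  · exact absurd h hD
  · exact key h.1 h.2
  · exact (key h.1 h.2).symm

/-- a deleted tile joins its south and north sides -/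
lemma TJ_del (hD : lt (x, y) ∈ D) (h : TJ D w (lt (x, y)) u v) :
    (u = hs x y ∧ v = hs x (y + 1)) ∨ (v = hs x y ∧ u = hs x (y + 1)) := by
  rcases h with ⟨-, -, h | h⟩ | ⟨h, -⟩
  · rw [eS_lt, eN_lt] at h; exact Or.inl h
  · rw [eS_lt, eN_lt] at h; exact Or.inr h
  · exact absurd hD h

/-- labels of the tiles with the property `p` -/
def LS (p : ℤ → ℤ → Prop) : Set (ℤ × ℤ) := {e | ∃ x y, e = lt (x, y) ∧ p x y}

lemma mem_LS {p : ℤ → ℤ → Prop} : lt (x, y) ∈ LS p ↔ p x y := by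
  constructor
  · rintro ⟨x', y', h, h2⟩
    have := lt_inj h
    simp only [Prod.mk.injEq] at this
    rw [this.1, this.2]; exact h2
  · exact fun h => ⟨x, y, rfl, h⟩

/-- **World** -/
structure Wd where
  In : ℤ → ℤ → Prop
  Zt : ℤ → ℤ → Prop
  Dl : ℤ → ℤ → Prop
  col : ℤ → ℤ → Bool

namespace Wd

variable (F : Wd)

/-- the point touches the region -/
def TE (P : ℤ × ℤ) : Prop := ∃ x y, F.In x y ∧ Tp x y P

/-- coloured tile -/
def Fl (x y : ℤ) : Prop := F.Zt x y ∧ ¬ F.In x y ∧ ¬ F.Dl x y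

/-- the open labels have the colours of the world -/
def Con (w : Finset (ℤ × ℤ)) : Prop := ∀ x y, F.Fl x y → (lt (x, y) ∈ w ↔ F.col x y = true)

/-- the strand graph -/
def G (w : Finset (ℤ × ℤ)) : SimpleGraph (ℤ × ℤ) := SG (LS F.Zt) (LS F.Dl) w

/-- horizontal interface side -/
def IH (X Y : ℤ) : Prop := F.Fl X (Y - 1) ∧ F.Fl X Y ∧ F.col X (Y - 1) ≠ F.col X Y

/-- vertical interface side -/
def IV (X Y : ℤ) : Prop := F.Fl (X - 1) Y ∧ F.Fl X Y ∧ F.col (X - 1) Y ≠ F.col X Y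

end Wd

/-- **Marks.** -/
structure Mk (F : Wd) (κ : Type) where
  /-- the mark side: interface side with exactly one end on the region -/
  I : κ → ℤ × ℤ
  /-- the side of the frame -/
  K : κ → ℤ × ℤ
  /-- points of the corridor -/
  Q : κ → ℤ × ℤ → Prop
  inz : ∀ x y, F.In x y → F.Zt x y
  far : ∀ k P, Q k P → ¬ F.TE P
  lvH : ∀ X Y, F.IH X Y → (F.TE (X, Y) → ¬ F.TE (X + 1, Y) → ∃ k, hs X Y = I k ∧ Q k (X + 1, Y)) ∧
    (F.TE (X + 1, Y) → ¬ F.TE (X, Y) → ∃ k, hs X Y = I k ∧ Q k (X, Y))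
  lvV : ∀ X Y, F.IV X Y → (F.TE (X, Y) → ¬ F.TE (X, Y + 1) → ∃ k, vs X Y = I k ∧ Q k (X, Y + 1)) ∧
    (F.TE (X, Y + 1) → ¬ F.TE (X, Y) → ∃ k, vs X Y = I k ∧ Q k (X, Y))
  stH : ∀ k X Y, F.IH X Y → (Q k (X, Y) → Q k (X + 1, Y) ∨ (hs X Y = I k ∧ F.TE (X + 1, Y))) ∧
    (Q k (X + 1, Y) → Q k (X, Y) ∨ (hs X Y = I k ∧ F.TE (X, Y)))
  stV : ∀ k X Y, F.IV X Y → (Q k (X, Y) → Q k (X, Y + 1) ∨ (vs X Y = I k ∧ F.TE (X, Y + 1))) ∧
    (Q k (X, Y + 1) → Q k (X, Y) ∨ (vs X Y = I k ∧ F.TE (X, Y)))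
  del : ∀ x y, F.Zt x y → ¬ F.In x y → F.Dl x y → F.Fl x (y - 1) ∧ F.Fl x (y + 1) ∧
    F.col x (y - 1) ≠ F.col x (y + 1) ∧ ∀ X, (X = x ∨ X = x + 1) →
    (F.TE (X, y) ↔ F.TE (X, y + 1)) ∧ ∀ k, ¬ Q k (X, y) ∧ ¬ Q k (X, y + 1)
  kc : ∀ k, ∃ x y, F.Fl x y ∧ Sd (lt (x, y)) (K k) ∧ Q k (pt (F.col x y) (K k))
  ku : ∀ k x y, F.Zt x y → Sd (lt (x, y)) (K k) → ¬ F.In x y ∧ ¬ F.TE (pt (F.col x y) (K k)) ∧
    ∀ m, Q m (pt (F.col x y) (K k)) → m = k
  path : ∀ w, F.Con w → ∀ k, (F.G w).Reachable (I k) (K k)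

/-- the worlds agree near the region, up to the translation `(tx, ty)` (odd and with flipped states if
`fl`) -/
structure Tr (F F' : Wd) (tx ty : ℤ) (fl : Bool) : Prop where
  par : (tx + ty) % 2 = if fl then 1 else 0
  inn : ∀ x y, F.In x y ↔ F'.In (x + tx) (y + ty)
  zin : ∀ x y, F.In x y → F'.Zt (x + tx) (y + ty)
  din : ∀ x y, F.In x y → (F.Dl x y ↔ F'.Dl (x + tx) (y + ty))
  near : ∀ x y, ¬ F.In x y → (∃ P, Tp x y P ∧ F.TE P) →
    (F.Zt x y ∧ F'.Zt (x + tx) (y + ty)) ∧ (F.Dl x y ↔ F'.Dl (x + tx) (y + ty)) ∧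
    (¬ F.Dl x y → F'.col (x + tx) (y + ty) = xor fl (F.col x y))

variable {F F' : Wd} {κ : Type} {tx ty : ℤ} {fl : Bool}

/-- the states of the region agree up to the translation -/
def Hin (F : Wd) (tx ty : ℤ) (fl : Bool) (w w' : Finset (ℤ × ℤ)) : Prop :=
  ∀ x y, F.In x y → ¬ F.Dl x y → (lt (x + tx, y + ty) ∈ w' ↔ (lt (x, y) ∈ w ↔ fl = false))

/-- the translation of sides -/
def Ts (tx ty : ℤ) (u : ℤ × ℤ) : ℤ × ℤ := tr (tx - ty) (tx + ty) u

lemma Ts_lt : Ts tx ty (lt (x, y)) = lt (x + tx, y + ty) := by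
  unfold Ts tr lt; refine Prod.ext ?_ ?_ <;> simp only <;> omega

lemma Ts_hs : Ts tx ty (hs X Y) = hs (X + tx) (Y + ty) := by
  unfold Ts tr hs; refine Prod.ext ?_ ?_ <;> simp only <;> omega

lemma Ts_vs : Ts tx ty (vs X Y) = vs (X + tx) (Y + ty) := by
  unfold Ts tr vs; refine Prod.ext ?_ ?_ <;> simp only <;> omega

lemma Ts_inj {u v : ℤ × ℤ} (h : Ts tx ty u = Ts tx ty v) : u = v :=
  Pool.Agent.H45.W.tr_injective _ _ h

/-- two tiles at a side, different colours: the pivots are the two ends -/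
lemma Mk.leave (M : Mk F κ) (h1 : F.Fl x y) (h2 : F.Fl x' y') (s1 : Sd (lt (x, y)) u)
    (s2 : Sd (lt (x', y')) u) (hne : (x, y) ≠ (x', y')) (hc : F.col x y ≠ F.col x' y')
    (t1 : F.TE (pt (F.col x y) u)) (t2 : ¬ F.TE (pt (F.col x' y') u)) :
    ∃ k, u = M.I k ∧ M.Q k (pt (F.col x' y') u) := by
  have hc' : F.col x y = !F.col x' y' := by
    cases h : F.col x y <;> cases h' : F.col x' y' <;> simp_all
  rcases side_cases u with ⟨X, Y, rfl⟩ | ⟨X, Y, rfl⟩
  · rw [sd_hs] at s1 s2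
    obtain ⟨rfl, s1⟩ := s1
    obtain ⟨rfl, s2⟩ := s2
    have hi : F.IH x' Y := by
      rcases s1 with rfl | rfl <;> rcases s2 with rfl | rfl
      · exact absurd rfl hne
      · exact ⟨h2, h1, Ne.symm hc⟩
      · exact ⟨h1, h2, hc⟩
      · exact absurd rfl hne
    have k := M.lvH x' Y hi
    rw [hc', pt_hs] at t1
    rw [pt_hs] at t2 ⊢
    by_cases hp : ((x' + Y) % 2 = 0 ↔ F.col x' y' = true)
    · rw [if_pos hp] at t2 ⊢
      rw [if_neg (by simp only [Bool.not_eq_true']; intro h; cases hq : F.col x' y' <;> simp_all)] at t1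
      exact k.1 t1 t2
    · rw [if_neg hp] at t2 ⊢
      rw [if_pos (by cases hq : F.col x' y' <;> simp_all)] at t1
      exact k.2 t1 t2
  · rw [sd_vs] at s1 s2
    obtain ⟨rfl, s1⟩ := s1
    obtain ⟨rfl, s2⟩ := s2
    have hi : F.IV X y' := by
      rcases s1 with rfl | rfl <;> rcases s2 with rfl | rfl
      · exact absurd rfl hne
      · exact ⟨h2, h1, Ne.symm hc⟩
      · exact ⟨h1, h2, hc⟩
      · exact absurd rfl hne
    have k := M.lvV X y' hi
    rw [hc', pt_vs] at t1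
    rw [pt_vs] at t2 ⊢
    by_cases hp : ((X + y') % 2 = 0 ↔ F.col x' y' = true)
    · rw [if_pos hp] at t2 ⊢
      rw [if_neg (by simp only [Bool.not_eq_true']; intro h; cases hq : F.col x' y' <;> simp_all)] at t1
      exact k.1 t1 t2
    · rw [if_neg hp] at t2 ⊢
      rw [if_pos (by cases hq : F.col x' y' <;> simp_all)] at t1
      exact k.2 t1 t2

lemma Mk.stay (M : Mk F κ) {k : κ} (h1 : F.Fl x y) (h2 : F.Fl x' y') (s1 : Sd (lt (x, y)) u)
    (s2 : Sd (lt (x', y')) u) (hne : (x, y) ≠ (x', y')) (hc : F.col x y ≠ F.col x' y')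
    (t1 : M.Q k (pt (F.col x y) u)) :
    M.Q k (pt (F.col x' y') u) ∨ (u = M.I k ∧ F.TE (pt (F.col x' y') u)) := by
  have hc' : F.col x y = !F.col x' y' := by
    cases h : F.col x y <;> cases h' : F.col x' y' <;> simp_all
  rcases side_cases u with ⟨X, Y, rfl⟩ | ⟨X, Y, rfl⟩
  · rw [sd_hs] at s1 s2
    obtain ⟨rfl, s1⟩ := s1
    obtain ⟨rfl, s2⟩ := s2
    have hi : F.IH x' Y := by
      rcases s1 with rfl | rfl <;> rcases s2 with rfl | rfl
      · exact absurd rfl hne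
      · exact ⟨h2, h1, Ne.symm hc⟩
      · exact ⟨h1, h2, hc⟩
      · exact absurd rfl hne
    have k := M.stH k x' Y hi
    rw [hc', pt_hs] at t1
    rw [pt_hs]
    by_cases hp : ((x' + Y) % 2 = 0 ↔ F.col x' y' = true)
    · rw [if_pos hp]
      rw [if_neg (by simp only [Bool.not_eq_true']; intro h; cases hq : F.col x' y' <;> simp_all)] at t1
      exact k.1 t1
    · rw [if_neg hp]
      rw [if_pos (by cases hq : F.col x' y' <;> simp_all)] at t1
      exact k.2 t1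
  · rw [sd_vs] at s1 s2
    obtain ⟨rfl, s1⟩ := s1
    obtain ⟨rfl, s2⟩ := s2
    have hi : F.IV X y' := by
      rcases s1 with rfl | rfl <;> rcases s2 with rfl | rfl
      · exact absurd rfl hne
      · exact ⟨h2, h1, Ne.symm hc⟩
      · exact ⟨h1, h2, hc⟩
      · exact absurd rfl hne
    have k := M.stV k X y' hi
    rw [hc', pt_vs] at t1
    rw [pt_vs]
    by_cases hp : ((X + y') % 2 = 0 ↔ F.col x' y' = true)
    · rw [if_pos hp]
      rw [if_neg (by simp only [Bool.not_eq_true']; intro h; cases hq : F.col x' y' <;> simp_all)] at t1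
      exact k.1 t1
    · rw [if_neg hp]
      rw [if_pos (by cases hq : F.col x' y' <;> simp_all)] at t1
      exact k.2 t1

/-! ### Simulation -/

/-- the side is near the region -/
def NearS (F : Wd) (u : ℤ × ℤ) : Prop := ∃ x y, F.Zt x y ∧ Sd (lt (x, y)) u ∧
  (F.In x y ∨ (F.Fl x y ∧ F.TE (pt (F.col x y) u)))

/-- the side is in the corridor of the mark `k` -/
def CorS (M : Mk F κ) (k : κ) (u : ℤ × ℤ) : Prop := ∃ x y, F.Fl x y ∧ Sd (lt (x, y)) u ∧
  M.Q k (pt (F.col x y) u)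

/-- the relation of the simulation -/
def Rl (M : Mk F κ) (tx ty : ℤ) (u u' : ℤ × ℤ) : Prop :=
  (NearS F u ∧ u' = Ts tx ty u) ∨ ∃ k, CorS M k u ∧ u' = Ts tx ty (M.I k)

/-- the ends of a side of a tile of the region touch the region -/
lemma te_of_in (h : F.In x y) (hs : Sd (lt (x, y)) u) (c : Bool) : F.TE (pt c u) :=
  ⟨x, y, h, tp_pt hs c⟩

lemma adj_iff : (F.G w).Adj u v ↔ ∃ x y, F.Zt x y ∧ TJ (LS F.Dl) w (lt (x, y)) u v := by
  unfold Wd.G
  rw [SG_adj]
  constructor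
  · rintro ⟨e, ⟨x, y, rfl, h1⟩, h2⟩
    exact ⟨x, y, h1, h2⟩
  · rintro ⟨x, y, h1, h2⟩
    exact ⟨lt (x, y), mem_LS.2 h1, h2⟩

/-- a tile near the region -/
lemma adjT (T : Tr F F' tx ty fl) (hw : F.Con w) (hw' : F'.Con w') (hin : Hin F tx ty fl w w')
    (h : F.Zt x y) (hn : F.In x y ∨ ∃ P, Tp x y P ∧ F.TE P) (hj : TJ (LS F.Dl) w (lt (x, y)) u v) :
    (F'.G w').Adj (Ts tx ty u) (Ts tx ty v) := by
  have hp := T.par
  rw [adj_iff]
  refine ⟨x + tx, y + ty, ?_, ?_⟩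
  · by_cases hI : F.In x y
    · exact T.zin x y hI
    · exact (T.near x y hI (hn.resolve_left hI)).1.2
  · have kD : Ts tx ty (lt (x, y)) ∈ LS F'.Dl ↔ lt (x, y) ∈ LS F.Dl := by
      rw [Ts_lt, mem_LS, mem_LS]
      by_cases hI : F.In x y
      · exact (T.din x y hI).symm
      · exact (T.near x y hI (hn.resolve_left hI)).2.1.symm
    have kw : lt (x, y) ∉ LS F.Dl → (Ts tx ty (lt (x, y)) ∈ w' ↔ (lt (x, y) ∈ w ↔ fl = false)) := by
      intro hD
      rw [mem_LS] at hD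
      rw [Ts_lt]
      by_cases hI : F.In x y
      · exact hin x y hI hD
      · obtain ⟨h1, h2, h3⟩ := T.near x y hI (hn.resolve_left hI)
        have h4 := hw' _ _ ⟨h1.2, by rwa [← T.inn], by rwa [← h2]⟩
        rw [h3 hD] at h4
        rw [hw x y ⟨h, hI, hD⟩, h4]
        cases fl <;> cases F.col x y <;> simp
    rw [← Ts_lt]
    cases fl
    · simp only [Bool.false_eq_true, if_false] at hp
      refine Pool.Agent.H45.W.TJ.tr_even (a := tx - ty) (b := tx + ty) (by omega) hp kD (fun h => ?_) hj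
      have h5 := kw h
      change Ts tx ty (lt (x, y)) ∈ _ ↔ _
      simpa using h5
    · simp only [if_true] at hp
      refine Pool.Agent.H45.W.TJ.tr_odd (a := tx - ty) (b := tx + ty) (by omega) hp kD (fun h => ?_) hj
      have h5 := kw h
      change Ts tx ty (lt (x, y)) ∈ _ ↔ _
      simpa using h5

/-- **one step** -/
theorem step (T : Tr F F' tx ty fl) (M : Mk F κ) (hw : F.Con w) (hw' : F'.Con w')
    (hin : Hin F tx ty fl w w')
    (h : (F.G w).Adj u v) {u' : ℤ × ℤ} (hR : Rl M tx ty u u') :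
    ∃ v', Rl M tx ty v v' ∧ (F'.G w').Reachable u' v' := by
  rw [adj_iff] at h
  obtain ⟨x, y, hz, hj⟩ := h
  have su : Sd (lt (x, y)) u := hj.sd
  have sv : Sd (lt (x, y)) v := hj.sd'
  by_cases hI : F.In x y
  · -- region tile
    have hv : NearS F v := ⟨x, y, hz, sv, Or.inl hI⟩
    have ha := adjT T hw hw' hin hz (Or.inl hI) hj
    rcases hR with ⟨-, rfl⟩ | ⟨k, ⟨x2, y2, f2, s2, q2⟩, rfl⟩
    · exact ⟨_, Or.inl ⟨hv, rfl⟩, ha.reachable⟩
    · exact absurd (te_of_in hI su _) (M.far k _ q2)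
  by_cases hD : F.Dl x y
  · -- deleted tile outside of the region
    obtain ⟨d1, d2, d3, d4⟩ := M.del x y hz hI hD
    have hd3 : F.col x (y + 1) = !F.col x (y - 1) := by
      cases h : F.col x (y - 1) <;> cases h' : F.col x (y + 1) <;> simp_all
    -- abscissa of the pivot
    obtain ⟨X, hX, p1, p2⟩ : ∃ X, (X = x ∨ X = x + 1) ∧ pt (F.col x (y - 1)) (hs x y) = (X, y) ∧
        pt (F.col x (y + 1)) (hs x (y + 1)) = (X, y + 1) := by
      rw [pt_hs, pt_hs, hd3]
      by_cases hp : ((x + y) % 2 = 0 ↔ F.col x (y - 1) = true)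
      · refine ⟨x + 1, Or.inr rfl, if_pos hp, if_pos ?_⟩
        rcases Int.emod_two_eq_zero_or_one (x + y) with e | e
        · have e' : (x + (y + 1)) % 2 = 1 := by omega
          rw [e'] ; have := hp.1 e; simp [this]
        · have e' : (x + (y + 1)) % 2 = 0 := by omega
          rw [e']; cases hq : F.col x (y - 1)
          · simp
          · have := hp.2 hq; omega
      · refine ⟨x, Or.inl rfl, if_neg hp, if_neg ?_⟩
        rcases Int.emod_two_eq_zero_or_one (x + y) with e | e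
        · have e' : (x + (y + 1)) % 2 = 1 := by omega
          rw [e']; cases hq : F.col x (y - 1)
          · simp
          · exact absurd ⟨fun _ => hq, fun _ => e⟩ hp
        · have e' : (x + (y + 1)) % 2 = 0 := by omega
          rw [e']; cases hq : F.col x (y - 1)
          · exact absurd ⟨fun h => by omega, fun h => by rw [hq] at h; simp at h⟩ hp
          · simp
    obtain ⟨d5, d6⟩ := d4 X hX
    have tpx : Tp x y (X, y) := by unfold Tp; simp only; omega
    have s1 : Sd (lt (x, y - 1)) (hs x y) := sd_hs.2 ⟨rfl, Or.inr rfl⟩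
    have s2 : Sd (lt (x, y + 1)) (hs x (y + 1)) := sd_hs.2 ⟨rfl, Or.inl rfl⟩
    have c1 : (x, y - 1) ≠ (x, y) := by intro h; rw [Prod.mk.injEq] at h; omega
    have c2 : (x, y + 1) ≠ (x, y) := by intro h; rw [Prod.mk.injEq] at h; omega
    have hcase := TJ_del (mem_LS.2 hD) hj
    -- nearness of the two sides
    have n1 : NearS F (hs x y) → F.TE (X, y) := by
      rintro ⟨x2, y2, z2, s, h⟩
      rw [sd_hs] at s
      obtain ⟨rfl, rfl | rfl⟩ := s
      · rcases h with h | h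
        · exact absurd h hI
        · exact absurd hD h.1.2.2
      · rcases h with h | h
        · exact absurd h d1.2.1
        · rw [p1] at h; exact h.2
    have n2 : NearS F (hs x (y + 1)) → F.TE (X, y + 1) := by
      rintro ⟨x2, y2, z2, s, h⟩
      rw [sd_hs] at s
      obtain ⟨rfl, rfl | rfl⟩ := s
      · rcases h with h | h
        · exact absurd h d2.2.1
        · rw [p2] at h; exact h.2
      · rw [add_sub_cancel_right] at h
        rcases h with h | h
        · exact absurd h hI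
        · exact absurd hD h.1.2.2
    have m1 : F.TE (X, y) → NearS F (hs x y) := fun h =>
      ⟨x, y - 1, d1.1, s1, Or.inr ⟨d1, by rw [p1]; exact h⟩⟩
    have m2 : F.TE (X, y + 1) → NearS F (hs x (y + 1)) := fun h =>
      ⟨x, y + 1, d2.1, s2, Or.inr ⟨d2, by rw [p2]; exact h⟩⟩
    have k1 : ∀ k, ¬ CorS M k (hs x y) := by
      rintro k ⟨x2, y2, f2, s, h⟩
      rw [sd_hs] at s
      obtain ⟨rfl, rfl | rfl⟩ := s
      · exact f2.2.2 hD
      · rw [p1] at h; exact (d6 k).1 h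
    have k2 : ∀ k, ¬ CorS M k (hs x (y + 1)) := by
      rintro k ⟨x2, y2, f2, s, h⟩
      rw [sd_hs] at s
      obtain ⟨rfl, rfl | rfl⟩ := s
      · rw [p2] at h; exact (d6 k).2 h
      · rw [add_sub_cancel_right] at f2
        exact f2.2.2 hD
    rcases hcase with ⟨rfl, rfl⟩ | ⟨rfl, rfl⟩
    · rcases hR with ⟨hn, rfl⟩ | ⟨k, hk, -⟩
      · have hT := n1 hn
        exact ⟨_, Or.inl ⟨m2 (d5.1 hT), rfl⟩, (adjT T hw hw' hin hz (Or.inr ⟨_, tpx, hT⟩) hj).reachable⟩
      · exact absurd hk (k1 k)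
    · rcases hR with ⟨hn, rfl⟩ | ⟨k, hk, -⟩
      · have hT := d5.2 (n2 hn)
        exact ⟨_, Or.inl ⟨m1 hT, rfl⟩, (adjT T hw hw' hin hz (Or.inr ⟨_, tpx, hT⟩) hj).reachable⟩
      · exact absurd hk (k2 k)
  -- coloured tile
  have hF : F.Fl x y := ⟨hz, hI, hD⟩
  have hpt : pt (F.col x y) u = pt (F.col x y) v :=
    TJ_pt (D := LS F.Dl) (fun h => hD (mem_LS.1 h)) (hw x y hF) hj
  have near : F.TE (pt (F.col x y) u) → NearS F v ∧ (F'.G w').Adj (Ts tx ty u) (Ts tx ty v) := fun h =>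
    ⟨⟨x, y, hz, sv, Or.inr ⟨hF, by rw [← hpt]; exact h⟩⟩,
      adjT T hw hw' hin hz (Or.inr ⟨_, tp_pt su _, h⟩) hj⟩
  rcases hR with ⟨⟨x2, y2, z2, s2, h2⟩, rfl⟩ | ⟨k, ⟨x2, y2, f2, s2, q2⟩, rfl⟩
  · by_cases hT : F.TE (pt (F.col x y) u)
    · obtain ⟨a1, a2⟩ := near hT
      exact ⟨_, Or.inl ⟨a1, rfl⟩, a2.reachable⟩
    · rcases h2 with h2 | ⟨f2, t2⟩
      · exact absurd (te_of_in h2 s2 _) hT
      · have hne : (x2, y2) ≠ (x, y) := by
          rintro h
          rw [Prod.mk.injEq] at h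
          obtain ⟨rfl, rfl⟩ := h
          exact hT t2
        have hc : F.col x2 y2 ≠ F.col x y := fun h => hT (by rw [← h]; exact t2)
        obtain ⟨k, e1, e2⟩ := M.leave f2 hF s2 su hne hc t2 hT
        refine ⟨_, Or.inr ⟨k, ⟨x, y, hF, sv, by rw [← hpt]; exact e2⟩, rfl⟩, ?_⟩
        rw [e1]
  · have cor : M.Q k (pt (F.col x y) u) → ∃ v', Rl M tx ty v v' ∧
        (F'.G w').Reachable (Ts tx ty (M.I k)) v' := fun h =>
      ⟨_, Or.inr ⟨k, ⟨x, y, hF, sv, by rw [← hpt]; exact h⟩, rfl⟩, SimpleGraph.Reachable.refl _⟩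
    by_cases hc : F.col x2 y2 = F.col x y
    · rw [hc] at q2; exact cor q2
    · have hne : (x2, y2) ≠ (x, y) := by
        rintro h
        rw [Prod.mk.injEq] at h
        obtain ⟨rfl, rfl⟩ := h
        exact hc rfl
      rcases M.stay f2 hF s2 su hne hc q2 with h | ⟨e1, e2⟩
      · exact cor h
      · obtain ⟨a1, a2⟩ := near e2
        refine ⟨_, Or.inl ⟨a1, rfl⟩, ?_⟩
        rw [← e1]
        exact a2.reachable

/-! ### Links -/

lemma TE_tr (T : Tr F F' tx ty fl) {P : ℤ × ℤ} : F.TE P ↔ F'.TE (P.1 + tx, P.2 + ty) := by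
  constructor
  · rintro ⟨x, y, h, h1, h2, h3, h4⟩
    exact ⟨x + tx, y + ty, (T.inn x y).1 h, by simp only; omega, by simp only; omega,
      by simp only; omega, by simp only; omega⟩
  · rintro ⟨x, y, h, h1, h2, h3, h4⟩
    simp only at h1 h2 h3 h4
    refine ⟨x - tx, y - ty, (T.inn _ _).2 (by rw [sub_add_cancel, sub_add_cancel]; exact h), ?_⟩
    unfold Tp
    omega

lemma Tr.symm (T : Tr F F' tx ty fl) (hz : ∀ x y, F.In x y → F.Zt x y) : Tr F' F (-tx) (-ty) fl := by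
  have e : ∀ x y : ℤ, x + -tx + tx = x ∧ y + -ty + ty = y := fun x y => by omega
  have hI : ∀ x y, F'.In x y ↔ F.In (x + -tx) (y + -ty) := by
    intro x y
    rw [T.inn, (e x y).1, (e x y).2]
  refine ⟨by have := T.par; split_ifs at this ⊢ <;> omega, hI, fun x y h => hz _ _ ((hI x y).1 h), fun x y h => ?_,
    fun x y h hP => ?_⟩
  · rw [T.din _ _ ((hI x y).1 h), (e x y).1, (e x y).2]
  · obtain ⟨P, h1, h2⟩ := hP
    have h3 : F.TE (P.1 - tx, P.2 - ty) := by
      rw [TE_tr T]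
      simpa using h2
    obtain ⟨k1, k2, k3⟩ := T.near (x + -tx) (y + -ty) (fun h' => h ((hI x y).2 h'))
      ⟨_, by unfold Tp at h1 ⊢; simp only; omega, h3⟩
    rw [(e x y).1, (e x y).2] at k1 k2 k3
    refine ⟨k1.symm, k2.symm, fun h' => ?_⟩
    rw [k3 (fun h'' => h' (k2.1 h''))]
    cases fl <;> cases F.col (x + -tx) (y + -ty) <;> rfl

lemma rl_K (M : Mk F κ) (k : κ) : Rl M tx ty (M.K k) (Ts tx ty (M.I k)) := Or.inr ⟨k, M.kc k, rfl⟩

lemma of_rl_K {M : Mk F κ} {l : κ} {v' : ℤ × ℤ} (h : Rl M tx ty (M.K l) v') :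
    v' = Ts tx ty (M.I l) := by
  rcases h with ⟨⟨x, y, h1, h2, h3⟩, -⟩ | ⟨k, ⟨x, y, h1, h2, h3⟩, rfl⟩
  · obtain ⟨k1, k2, k3⟩ := M.ku l x y h1 h2
    rcases h3 with h3 | h3
    · exact absurd h3 k1
    · exact absurd h3.2 k2
  · obtain ⟨k1, k2, k3⟩ := M.ku l x y h1.1 h2
    rw [k3 k h3]

/-- a side of a tile of the region -/
def InS (F : Wd) (z : ℤ × ℤ) : Prop := ∃ x y, F.In x y ∧ Sd (lt (x, y)) z

lemma rl_z (M : Mk F κ) {z : ℤ × ℤ} (hz : InS F z) : Rl M tx ty z (Ts tx ty z) := by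
  obtain ⟨x, y, h1, h2⟩ := hz
  exact Or.inl ⟨⟨x, y, M.inz _ _ h1, h2, Or.inl h1⟩, rfl⟩

lemma of_rl_z {M : Mk F κ} {z v' : ℤ × ℤ} (hz : InS F z) (h : Rl M tx ty z v') :
    v' = Ts tx ty z := by
  rcases h with ⟨-, h⟩ | ⟨k, ⟨x', y', h1, h2, h3⟩, -⟩
  · exact h
  · obtain ⟨x, y, g1, g2⟩ := hz
    exact absurd (te_of_in g1 g2 _) (M.far k _ h3)

/-- the named ends: `none` is the end `z`, `some k` the side of the frame of the mark `k` -/
def en (M : Mk F κ) (z : ℤ × ℤ) : Option κ → ℤ × ℤ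
  | none => z
  | some k => M.K k

/-- the near ends -/
def ne' (M : Mk F κ) (z : ℤ × ℤ) : Option κ → ℤ × ℤ
  | none => z
  | some k => M.I k

lemma link_mp (T : Tr F F' tx ty fl) (M : Mk F κ) (hw : F.Con w) (hw' : F'.Con w')
    (hin : Hin F tx ty fl w w')
    {z : ℤ × ℤ} (hz : InS F z) {i j : Option κ} (h : (F.G w).Reachable (en M z i) (en M z j)) :
    (F'.G w').Reachable (Ts tx ty (ne' M z i)) (Ts tx ty (ne' M z j)) := by
  have h1 : ∀ i, Rl M tx ty (en M z i) (Ts tx ty (ne' M z i)) := by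
    rintro (_ | k)
    · exact rl_z M hz
    · exact rl_K M k
  have h2 : ∀ i v', Rl M tx ty (en M z i) v' → v' = Ts tx ty (ne' M z i) := by
    rintro (_ | k) v' h
    · exact of_rl_z hz h
    · exact of_rl_K h
  obtain ⟨v', h3, h4⟩ := sim (R := Rl M tx ty) (fun u v u' h5 h6 => step T M hw hw' hin h5 h6) h (h1 i)
  rw [h2 j v' h3] at h4
  exact h4

/-- **The same links.** -/
theorem link_iff (T : Tr F F' tx ty fl) (M : Mk F κ) (M' : Mk F' κ) (hI : ∀ k, M'.I k = Ts tx ty (M.I k))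
    (hw : F.Con w) (hw' : F'.Con w') (hin : Hin F tx ty fl w w')
    {z : ℤ × ℤ} (hz : InS F z) (i j : Option κ) :
    (F.G w).Reachable (en M z i) (en M z j) ↔
      (F'.G w').Reachable (en M' (Ts tx ty z) i) (en M' (Ts tx ty z) j) := by
  have key : ∀ {F F' : Wd} {tx ty : ℤ} {w w' : Finset (ℤ × ℤ)} (M : Mk F κ) (M' : Mk F' κ),
      Tr F F' tx ty fl → (∀ k, M'.I k = Ts tx ty (M.I k)) → F.Con w → F'.Con w' →
      Hin F tx ty fl w w' →
      ∀ {z : ℤ × ℤ}, InS F z → (F.G w).Reachable (en M z i) (en M z j) →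
      (F'.G w').Reachable (en M' (Ts tx ty z) i) (en M' (Ts tx ty z) j) := by
    intro F F' tx ty w w' M M' T hI hw hw' hin z hz h
    have h1 := link_mp T M hw hw' hin hz h
    have h2 : ∀ i, (F'.G w').Reachable (Ts tx ty (ne' M z i)) (en M' (Ts tx ty z) i) := by
      rintro (_ | k)
      · exact SimpleGraph.Reachable.refl _
      · show (F'.G w').Reachable (Ts tx ty (M.I k)) (M'.K k)
        rw [← hI]
        exact M'.path w' hw' k
    exact ((h2 i).symm.trans h1).trans (h2 j)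
  constructor
  · exact key M M' T hI hw hw' hin hz
  · intro h
    have e0 : ∀ u, Ts (-tx) (-ty) (Ts tx ty u) = u := by
      intro u
      unfold Ts tr
      refine Prod.ext ?_ ?_ <;> simp only <;> omega
    have e : ∀ x y : ℤ, x + -tx + tx = x ∧ y + -ty + ty = y := fun x y => by omega
    have T' := T.symm M.inz
    have := key M' M T' (fun k => by rw [hI, e0]) hw' hw (fun x y h1 h2 => ?_) (z := Ts tx ty z) ?_ h
    · rwa [e0] at this
    · have h3 := (T'.inn x y).1 h1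
      have h4 := hin _ _ h3 (fun h5 => h2 ((T'.din x y h1).2 h5))
      rw [(e x y).1, (e x y).2] at h4
      rw [h4]
      cases fl <;> simp
    · obtain ⟨x, y, h1, h2⟩ := hz
      refine ⟨x + tx, y + ty, (T.inn _ _).1 h1, ?_⟩
      rw [← Ts_lt]
      exact Pool.Agent.H45.W.Sd_tr.2 h2

end Pool.Agent.H33.W
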