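import Mathlib
import Pool.Agent.H33.W.Frw

set_option autoImplicit false
open Finset

/-! # Turns round a point

`(X, Y)` is a pivot of the tiles of the colour `c` iff `pv c X Y` (vertex for closed tiles, face for open
tiles); one of two opposite colours has its pivot at `(X, Y)`. So an interface goes on through every point,
straight or with a turn. -/

namespace Pool.Agent.H33.W

open Pool.Agent.H75.Perc Pool.Agent.H75.TwoArm Pool.Agent.H13.W
open Pool.Agent.H33.Q1 (lt tt tv tf lt_inj tt_lt lt_odd lt_tt)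

/-- the tiles of the colour `c` turn round the point -/
def pv (c : Bool) (X Y : ℤ) : Prop := (X + Y) % 2 = 1 ↔ c = true

variable {X Y x y : ℤ} {c : Bool} {e : ℤ × ℤ} {D : Set (ℤ × ℤ)} {w : Finset (ℤ × ℤ)}

lemma pv_or (c : Bool) (X Y : ℤ) : pv c X Y ∨ pv (!c) X Y := by
  unfold pv
  rcases Int.emod_two_eq_zero_or_one (X + Y) with h | h <;> cases c <;> simp [h]

lemma nxt (e : ℤ × ℤ) : nx w e = if lab e ∈ w then nxO e else nxC e := rfl

/-- the quarter turn through the tile north east of the point -/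
lemma tj_ne (hD : lt (X, Y) ∉ D) (hw : lt (X, Y) ∈ w ↔ c = true) (h : pv c X Y) :
    TJ D w (lt (X, Y)) (hs X Y) (vs X Y) := by
  rcases Int.emod_two_eq_zero_or_one (X + Y) with p | p
  · have hc : c = false := by
      cases c
      · rfl
      · have := h.2 rfl; omega
    refine Or.inr ⟨hD, Or.inl ⟨(lab_hs_even p).1, ?_⟩⟩
    rw [nxt, (lab_hs_even p).1, if_neg (fun h => by simpa [hc] using hw.1 h), (nxO_nxC_hs_even p).2]
  · have hc : c = true := h.1 p
    refine Or.inr ⟨hD, Or.inr ⟨(lab_vs_odd p).1, ?_⟩⟩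
    rw [nxt, (lab_vs_odd p).1, if_pos (hw.2 hc), (nxO_nxC_vs_odd p).1]

/-- the quarter turn through the tile north west of the point -/
lemma tj_nw (hD : lt (X - 1, Y) ∉ D) (hw : lt (X - 1, Y) ∈ w ↔ c = true) (h : pv c X Y) :
    TJ D w (lt (X - 1, Y)) (vs X Y) (hs (X - 1) Y) := by
  rcases Int.emod_two_eq_zero_or_one (X + Y) with p | p
  · have hc : c = false := by
      cases c
      · rfl
      · have := h.2 rfl; omega
    refine Or.inr ⟨hD, Or.inl ⟨(lab_vs_even p).1, ?_⟩⟩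
    rw [nxt, (lab_vs_even p).1, if_neg (fun h => by simpa [hc] using hw.1 h), (nxO_nxC_vs_even p).2]
  · have hc : c = true := h.1 p
    have q : (X - 1 + Y) % 2 = 0 := by omega
    refine Or.inr ⟨hD, Or.inr ⟨(lab_hs_even q).1, ?_⟩⟩
    rw [nxt, (lab_hs_even q).1, if_pos (hw.2 hc), (nxO_nxC_hs_even q).1, sub_add_cancel]

/-- the quarter turn through the tile south west of the point -/
lemma tj_sw (hD : lt (X - 1, Y - 1) ∉ D) (hw : lt (X - 1, Y - 1) ∈ w ↔ c = true) (h : pv c X Y) :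
    TJ D w (lt (X - 1, Y - 1)) (hs (X - 1) Y) (vs X (Y - 1)) := by
  rcases Int.emod_two_eq_zero_or_one (X + Y) with p | p
  · have hc : c = false := by
      cases c
      · rfl
      · have := h.2 rfl; omega
    have q : (X - 1 + Y) % 2 = 1 := by omega
    refine Or.inr ⟨hD, Or.inl ⟨(lab_hs_odd q).1, ?_⟩⟩
    rw [nxt, (lab_hs_odd q).1, if_neg (fun h => by simpa [hc] using hw.1 h), (nxO_nxC_hs_odd q).2,
      sub_add_cancel]
  · have hc : c = true := h.1 p
    have q : (X + (Y - 1)) % 2 = 0 := by omega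
    refine Or.inr ⟨hD, Or.inr ⟨(lab_vs_even q).1, ?_⟩⟩
    rw [nxt, (lab_vs_even q).1, if_pos (hw.2 hc), (nxO_nxC_vs_even q).1, sub_add_cancel]

/-- the quarter turn through the tile south east of the point -/
lemma tj_se (hD : lt (X, Y - 1) ∉ D) (hw : lt (X, Y - 1) ∈ w ↔ c = true) (h : pv c X Y) :
    TJ D w (lt (X, Y - 1)) (vs X (Y - 1)) (hs X Y) := by
  rcases Int.emod_two_eq_zero_or_one (X + Y) with p | p
  · have hc : c = false := by
      cases c
      · rfl
      · have := h.2 rfl; omega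
    have q : (X + (Y - 1)) % 2 = 1 := by omega
    refine Or.inr ⟨hD, Or.inl ⟨(lab_vs_odd q).1, ?_⟩⟩
    rw [nxt, (lab_vs_odd q).1, if_neg (fun h => by simpa [hc] using hw.1 h), (nxO_nxC_vs_odd q).2,
      sub_add_cancel]
  · have hc : c = true := h.1 p
    refine Or.inr ⟨hD, Or.inr ⟨(lab_hs_odd p).1, ?_⟩⟩
    rw [nxt, (lab_hs_odd p).1, if_pos (hw.2 hc), (nxO_nxC_hs_odd p).1]

namespace Wd

variable {F : Wd}

lemma rr_of (h : F.Fl x y) {u v : ℤ × ℤ}
    (hj : TJ (LS F.Dl) w (lt (x, y)) u v) : (F.G w).Reachable u v := by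
  unfold Wd.G
  exact (SG_adj.2 ⟨lt (x, y), mem_LS.2 h.1, hj⟩).reachable

lemma Fl.nD (h : F.Fl x y) : lt (x, y) ∉ LS F.Dl := fun h' => h.2.2 (mem_LS.1 h')

lemma q_ne (hw : F.Con w) (h : F.Fl X Y) (p : pv (F.col X Y) X Y) :
    (F.G w).Reachable (hs X Y) (vs X Y) := rr_of h (tj_ne h.nD (hw _ _ h) p)

lemma q_nw (hw : F.Con w) (h : F.Fl (X - 1) Y) (p : pv (F.col (X - 1) Y) X Y) :
    (F.G w).Reachable (vs X Y) (hs (X - 1) Y) := rr_of h (tj_nw h.nD (hw _ _ h) p)

lemma q_sw (hw : F.Con w) (h : F.Fl (X - 1) (Y - 1)) (p : pv (F.col (X - 1) (Y - 1)) X Y) :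
    (F.G w).Reachable (hs (X - 1) Y) (vs X (Y - 1)) := rr_of h (tj_sw h.nD (hw _ _ h) p)

lemma q_se (hw : F.Con w) (h : F.Fl X (Y - 1)) (p : pv (F.col X (Y - 1)) X Y) :
    (F.G w).Reachable (vs X (Y - 1)) (hs X Y) := rr_of h (tj_se h.nD (hw _ _ h) p)

/-- a straight interface -/
lemma s_we (hw : F.Con w) (h0 : F.Fl X Y) (h1 : F.Fl (X - 1) Y) (h2 : F.Fl (X - 1) (Y - 1))
    (h3 : F.Fl X (Y - 1)) (c0 : F.col X Y = c) (c1 : F.col (X - 1) Y = c)
    (c2 : F.col (X - 1) (Y - 1) = !c) (c3 : F.col X (Y - 1) = !c) :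
    (F.G w).Reachable (hs (X - 1) Y) (hs X Y) := by
  rcases pv_or c X Y with p | p
  · exact ((q_ne hw h0 (by rw [c0]; exact p)).trans (q_nw hw h1 (by rw [c1]; exact p))).symm
  · exact (q_sw hw h2 (by rw [c2]; exact p)).trans (q_se hw h3 (by rw [c3]; exact p))

/-- turn from the west to the south -/
lemma s_ws (hw : F.Con w) (h0 : F.Fl X Y) (h1 : F.Fl (X - 1) Y) (h2 : F.Fl (X - 1) (Y - 1))
    (h3 : F.Fl X (Y - 1)) (c0 : F.col X Y = c) (c1 : F.col (X - 1) Y = c)
    (c2 : F.col (X - 1) (Y - 1) = !c) (c3 : F.col X (Y - 1) = c) :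
    (F.G w).Reachable (hs (X - 1) Y) (vs X (Y - 1)) := by
  rcases pv_or c X Y with p | p
  · exact (((q_se hw h3 (by rw [c3]; exact p)).trans (q_ne hw h0 (by rw [c0]; exact p))).trans
      (q_nw hw h1 (by rw [c1]; exact p))).symm
  · exact q_sw hw h2 (by rw [c2]; exact p)

/-- turn from the north to the east -/
lemma s_ne (hw : F.Con w) (h0 : F.Fl X Y) (h1 : F.Fl (X - 1) Y) (h2 : F.Fl (X - 1) (Y - 1))
    (h3 : F.Fl X (Y - 1)) (c0 : F.col X Y = !c) (c1 : F.col (X - 1) Y = c)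
    (c2 : F.col (X - 1) (Y - 1) = c) (c3 : F.col X (Y - 1) = c) :
    (F.G w).Reachable (vs X Y) (hs X Y) := by
  rcases pv_or c X Y with p | p
  · exact ((q_nw hw h1 (by rw [c1]; exact p)).trans (q_sw hw h2 (by rw [c2]; exact p))).trans
      (q_se hw h3 (by rw [c3]; exact p))
  · exact (q_ne hw h0 (by rw [c0]; exact p)).symm

/-- turn from the west to the north -/
lemma s_wn (hw : F.Con w) (h0 : F.Fl X Y) (h1 : F.Fl (X - 1) Y) (h2 : F.Fl (X - 1) (Y - 1))
    (h3 : F.Fl X (Y - 1)) (c0 : F.col X Y = c) (c1 : F.col (X - 1) Y = !c)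
    (c2 : F.col (X - 1) (Y - 1) = c) (c3 : F.col X (Y - 1) = c) :
    (F.G w).Reachable (hs (X - 1) Y) (vs X Y) := by
  rcases pv_or c X Y with p | p
  · exact ((q_sw hw h2 (by rw [c2]; exact p)).trans (q_se hw h3 (by rw [c3]; exact p))).trans
      (q_ne hw h0 (by rw [c0]; exact p))
  · exact (q_nw hw h1 (by rw [c1]; exact p)).symm

/-- turn from the south to the east -/
lemma s_se (hw : F.Con w) (h0 : F.Fl X Y) (h1 : F.Fl (X - 1) Y) (h2 : F.Fl (X - 1) (Y - 1))
    (h3 : F.Fl X (Y - 1)) (c0 : F.col X Y = c) (c1 : F.col (X - 1) Y = c)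
    (c2 : F.col (X - 1) (Y - 1) = c) (c3 : F.col X (Y - 1) = !c) :
    (F.G w).Reachable (vs X (Y - 1)) (hs X Y) := by
  rcases pv_or c X Y with p | p
  · exact (((q_ne hw h0 (by rw [c0]; exact p)).trans (q_nw hw h1 (by rw [c1]; exact p))).trans
      (q_sw hw h2 (by rw [c2]; exact p))).symm
  · exact q_se hw h3 (by rw [c3]; exact p)

/-- a straight corridor -/
lemma line (hw : F.Con w) {X1 X2 : ℤ} (h12 : X1 ≤ X2) (c : Bool)
    (hf : ∀ x, X1 ≤ x → x ≤ X2 → F.Fl x Y ∧ F.Fl x (Y - 1) ∧ F.col x Y = c ∧ F.col x (Y - 1) = !c) :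
    (F.G w).Reachable (hs X1 Y) (hs X2 Y) := by
  obtain ⟨n, rfl⟩ : ∃ n : ℕ, X2 = X1 + n := ⟨(X2 - X1).toNat, by omega⟩
  clear h12
  induction n with
  | zero => rw [Nat.cast_zero, add_zero]
  | succ n ih =>
    refine (ih fun x h1 h2 => hf x h1 (by push_cast; omega)).trans ?_
    obtain ⟨a1, a2, a3, a4⟩ := hf (X1 + n) (by omega) (by push_cast; omega)
    obtain ⟨b1, b2, b3, b4⟩ := hf (X1 + (n + 1 : ℕ)) (by push_cast; omega) le_rfl
    have e : X1 + ((n + 1 : ℕ) : ℤ) - 1 = X1 + n := by push_cast; ring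
    have := s_we (c := c) (X := X1 + ((n + 1 : ℕ) : ℤ)) (Y := Y) hw b1 (by rw [e]; exact a1)
      (by rw [e]; exact a2) b2 b3 (by rw [e]; exact a3) (by rw [e]; exact a4) b4
    rwa [e] at this

open Classical in
/-- the side of the frame at the abscissa `X` of an interface of the height `Y`; `c` = colour above -/
noncomputable def ks (c : Bool) (X Y : ℤ) : ℤ × ℤ := if pv c X Y then vs X Y else vs X (Y - 1)

/-- the interface meets the left side of the frame -/
lemma k_left (hw : F.Con w) (h0 : F.Fl X Y) (h3 : F.Fl X (Y - 1)) (hc : F.col X (Y - 1) ≠ F.col X Y) :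
    (F.G w).Reachable (ks (F.col X Y) X Y) (hs X Y) := by
  unfold ks
  by_cases p : pv (F.col X Y) X Y
  · rw [if_pos p]; exact (q_ne hw h0 p).symm
  · rw [if_neg p]
    refine q_se hw h3 ?_
    have e : F.col X (Y - 1) = !F.col X Y := by
      cases h : F.col X (Y - 1) <;> cases h' : F.col X Y <;> simp_all
    rw [e]
    exact (pv_or _ X Y).resolve_left p

/-- the interface meets the right side of the frame -/
lemma k_right (hw : F.Con w) (h1 : F.Fl (X - 1) Y) (h2 : F.Fl (X - 1) (Y - 1))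
    (hc : F.col (X - 1) (Y - 1) ≠ F.col (X - 1) Y) :
    (F.G w).Reachable (ks (F.col (X - 1) Y) X Y) (hs (X - 1) Y) := by
  unfold ks
  by_cases p : pv (F.col (X - 1) Y) X Y
  · rw [if_pos p]; exact q_nw hw h1 p
  · rw [if_neg p]
    refine (q_sw hw h2 ?_).symm
    have e : F.col (X - 1) (Y - 1) = !F.col (X - 1) Y := by
      cases h : F.col (X - 1) (Y - 1) <;> cases h' : F.col (X - 1) Y <;> simp_all
    rw [e]
    exact (pv_or _ X Y).resolve_left p

end Wd

end Pool.Agent.H33.W
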