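import Mathlib
import Pool.Agent.H33.W.Cor

set_option autoImplicit false
open Finset

/-! # Profiles with bent interfaces

Region: rows `a y ≤ x < B` (empty row: `a y = B`). Colours: `cf y` far to the left (`x < a y - δ`), `cn y`
near to the left (`a y - δ ≤ x < a y`), `dn y` near to the right (`B ≤ x < B + δ`), `df y` far to the right.
Mark `k` (left: `rt k = false`): its interface runs at the height `F k` far from the region, at the height
`N k` near the region, `|F k - N k| ≤ 1`; if `F k ≠ N k` it changes the height at the abscissa `jx k` in the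
row `min (F k) (N k)`. The half row `y = r`, `x0 ≤ x` is deleted, the colours next to it on the right are
opposite (so there is no interface there). -/

namespace Pool.Agent.H33.W

open Pool.Agent.H75.Perc Pool.Agent.H75.TwoArm Pool.Agent.H13.W
open Pool.Agent.H33.Q1 (lt tt tv tf lt_inj tt_lt lt_odd lt_tt)

lemma bnot {a b : Bool} (h : a ≠ b) : a = !b := by cases a <;> cases b <;> simp_all

variable {κ : Type}

/-- the colours `cn`, `cf` of the rows and the heights `N`, `F` of the marks with the property `p`; `E` :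
excluded heights -/
structure SC (cn cf : ℤ → Bool) (p : κ → Prop) (F N : κ → ℤ) (E : ℤ → Prop) : Prop where
  f : ∀ y, ¬ E y → (cf (y - 1) ≠ cf y ↔ ∃ k, p k ∧ F k = y)
  n : ∀ y, ¬ E y → (cn (y - 1) ≠ cn y ↔ ∃ k, p k ∧ N k = y)
  j : ∀ y, cn y ≠ cf y ↔ ∃ k, p k ∧ F k ≠ N k ∧ y = min (F k) (N k)
  e : ∀ k, p k → ¬ E (F k) ∧ ¬ E (N k)
  sep : ∀ k l, p k → p l → (F k = F l ∨ F k = N l ∨ N k = N l) → k = l
  fn : ∀ k, F k - 1 ≤ N k ∧ N k ≤ F k + 1

namespace SC

variable {cn cf : ℤ → Bool} {p : κ → Prop} {F N : κ → ℤ} {E : ℤ → Prop}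

/-- only one row near the mark can have two colours -/
lemma flat (H : SC cn cf p F N E) {k : κ} (hk : p k) {y : ℤ}
    (hy : y = F k ∨ y = F k - 1 ∨ y = N k ∨ y = N k - 1)
    (h : F k = N k ∨ y ≠ min (F k) (N k)) : cn y = cf y := by
  by_contra hne
  obtain ⟨l, hl, h1, h2⟩ := (H.j y).1 hne
  have h3 := H.fn l
  have h4 := H.fn k
  have e1 : k = l ∨ (F k ≠ F l ∧ F k ≠ N l ∧ N k ≠ N l ∧ F l ≠ N k) := by
    by_cases q : k = l
    · exact Or.inl q
    · refine Or.inr ⟨fun h => q (H.sep k l hk hl (Or.inl h)), fun h => q (H.sep k l hk hl (Or.inr (Or.inl h))),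
        fun h => q (H.sep k l hk hl (Or.inr (Or.inr h))),
        fun h => q (H.sep l k hl hk (Or.inr (Or.inl h))).symm⟩
  rcases e1 with rfl | ⟨e1, e2, e3, e4⟩
  · rcases h with h | h
    · exact h1 h
    · exact h h2
  · omega

lemma cf_ne (H : SC cn cf p F N E) {k : κ} (hk : p k) : cf (F k - 1) ≠ cf (F k) :=
  (H.f _ (H.e k hk).1).2 ⟨k, hk, rfl⟩

lemma cn_ne (H : SC cn cf p F N E) {k : κ} (hk : p k) : cn (N k - 1) ≠ cn (N k) :=
  (H.n _ (H.e k hk).2).2 ⟨k, hk, rfl⟩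

lemma j_ne (H : SC cn cf p F N E) {k : κ} (hk : p k) (h : F k ≠ N k) :
    cn (min (F k) (N k)) ≠ cf (min (F k) (N k)) := (H.j _).2 ⟨k, hk, h, rfl⟩

open Classical in
/-- the interface at the height `Y`, `g y` : near in the row `y` -/
lemma iface (H : SC cn cf p F N E) (g : ℤ → Prop) {Y : ℤ} (hE : ¬ E Y)
    (h : (if g (Y - 1) then cn (Y - 1) else cf (Y - 1)) ≠ (if g Y then cn Y else cf Y)) :
    ∃ k, p k ∧ ((F k = Y ∧ N k = Y) ∨ (F k = Y ∧ N k ≠ Y ∧ ¬ g (min (F k) (N k))) ∨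
      (N k = Y ∧ F k ≠ Y ∧ g (min (F k) (N k)))) := by
  -- a mark with a height `Y`
  have uniq : ∀ k l, p k → p l → (F k = Y ∨ N k = Y) → (F l = Y ∨ N l = Y) → k = l := by
    intro k l hk hl h1 h2
    rcases h1 with h1 | h1 <;> rcases h2 with h2 | h2
    · exact H.sep k l hk hl (Or.inl (h1.trans h2.symm))
    · exact H.sep k l hk hl (Or.inr (Or.inl (h1.trans h2.symm)))
    · exact (H.sep l k hl hk (Or.inr (Or.inl (h2.trans h1.symm)))).symm
    · exact H.sep k l hk hl (Or.inr (Or.inr (h1.trans h2.symm)))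
  by_cases hy : ∃ k, p k ∧ F k ≠ N k ∧ (F k = Y ∨ N k = Y)
  · obtain ⟨k, hk, h1, h2⟩ := hy
    have h3 := H.fn k
    refine ⟨k, hk, ?_⟩
    rcases h2 with h2 | h2
    · -- far height
      refine Or.inr (Or.inl ⟨h2, fun h => h1 (h2.trans h.symm), fun hg => h ?_⟩)
      have hn : cn (Y - 1) = cn Y := by
        by_contra hne
        obtain ⟨l, hl, h4⟩ := (H.n Y hE).1 hne
        have := uniq k l hk hl (Or.inl h2) (Or.inr h4)
        rw [← this] at h4
        exact h1 (h2.trans h4.symm)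
      rcases le_or_gt (F k) (N k) with q | q
      · rw [min_eq_left q, h2] at hg
        have e1 : cn (Y - 1) = cf (Y - 1) := H.flat hk (by omega) (Or.inr (by omega))
        rw [if_pos hg, ← e1, ite_self, hn]
      · rw [min_eq_right q.le] at hg
        have e0 : N k = Y - 1 := by omega
        rw [e0] at hg
        have e1 : cn Y = cf Y := H.flat hk (by omega) (Or.inr (by omega))
        rw [if_pos hg, ← e1, ite_self, hn]
    · -- near height
      refine Or.inr (Or.inr ⟨h2, fun h => h1 (h.trans h2.symm), ?_⟩)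
      by_contra hg
      refine h ?_
      have hn : cf (Y - 1) = cf Y := by
        by_contra hne
        obtain ⟨l, hl, h4⟩ := (H.f Y hE).1 hne
        have := uniq k l hk hl (Or.inr h2) (Or.inl h4)
        rw [← this] at h4
        exact h1 (h4.trans h2.symm)
      rcases le_or_gt (N k) (F k) with q | q
      · rw [min_eq_right q, h2] at hg
        have e1 : cn (Y - 1) = cf (Y - 1) := H.flat hk (by omega) (Or.inr (by omega))
        rw [if_neg hg, e1, ite_self, hn]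
      · rw [min_eq_left q.le] at hg
        have e0 : F k = Y - 1 := by omega
        rw [e0] at hg
        have e1 : cn Y = cf Y := H.flat hk (by omega) (Or.inr (by omega))
        rw [if_neg hg, e1, ite_self, hn]
  · -- no row with two colours
    have e1 : ∀ y, (y = Y - 1 ∨ y = Y) → cn y = cf y := by
      intro y h1
      by_contra hne
      obtain ⟨l, hl, h2, h3⟩ := (H.j y).1 hne
      have h4 := H.fn l
      exact hy ⟨l, hl, h2, by omega⟩
    rw [e1 _ (Or.inl rfl), e1 _ (Or.inr rfl), ite_self, ite_self] at h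
    obtain ⟨k, hk, h1⟩ := (H.f Y hE).1 h
    refine ⟨k, hk, Or.inl ⟨h1, ?_⟩⟩
    by_contra h2
    exact hy ⟨k, hk, fun h3 => h2 (h3.symm.trans h1), Or.inl h1⟩

end SC

/-- **Data.** -/
structure JD (κ : Type) where
  a : ℤ → ℤ
  B : ℤ
  r : ℤ
  x0 : ℤ
  XL : ℤ
  XR : ℤ
  YB : ℤ
  YT : ℤ
  δ : ℤ
  cn : ℤ → Bool
  cf : ℤ → Bool
  dn : ℤ → Bool
  df : ℤ → Bool
  rt : κ → Bool
  F : κ → ℤ
  N : κ → ℤ

namespace JD

variable (P : JD κ)

/-- the colours -/
def col (x y : ℤ) : Bool :=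
  if x < P.a y then (if P.a y - P.δ ≤ x then P.cn y else P.cf y)
  else (if x < P.B + P.δ then P.dn y else P.df y)

/-- the world -/
def W : Wd where
  In := fun x y => P.a y ≤ x ∧ x < P.B
  Zt := fun x y => P.XL ≤ x ∧ x < P.XR ∧ P.YB ≤ y ∧ y < P.YT
  Dl := fun x y => y = P.r ∧ P.x0 ≤ x
  col := P.col

/-- the end of the wall at a left mark -/
def mu (k : κ) : ℤ := min (P.a (P.N k - 1)) (P.a (P.N k))

/-- the abscissa of the jog -/
def jx (k : κ) : ℤ := if P.rt k then P.B + P.δ else P.mu k - P.δ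

/-- mark side -/
def I (k : κ) : ℤ × ℤ := if P.rt k then hs P.B (P.N k) else hs (P.mu k - 1) (P.N k)

/-- side of the frame -/
noncomputable def K (k : κ) : ℤ × ℤ :=
  if P.rt k then Wd.ks (P.df (P.F k)) P.XR (P.F k) else Wd.ks (P.cf (P.F k)) P.XL (P.F k)

/-- corridor -/
def Q (k : κ) (A : ℤ × ℤ) : Prop :=
  if P.rt k then (A.2 = P.F k ∧ P.B + P.δ ≤ A.1) ∨ (A.2 = P.N k ∧ P.B + 1 ≤ A.1 ∧ A.1 ≤ P.B + P.δ)
  else (A.2 = P.F k ∧ A.1 ≤ P.mu k - P.δ) ∨ (A.2 = P.N k ∧ P.mu k - P.δ ≤ A.1 ∧ A.1 ≤ P.mu k - 1)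

/-- **Conditions.** -/
structure Ok : Prop where
  d1 : 1 ≤ P.δ
  aB : ∀ y, P.a y ≤ P.B
  em : ∀ y, P.a y = P.B → P.cn y = P.dn y
  bx : ∀ y, P.a y < P.B → P.YB < y ∧ y + 1 < P.YT ∧ P.XL + 1 ≤ P.a y
  bR : P.B + P.δ + 1 ≤ P.XR
  r0 : P.a P.r ≤ P.x0
  r1 : P.x0 < P.B
  mb : ∀ k, P.YB < P.F k ∧ P.F k < P.YT ∧ P.YB < P.N k ∧ P.N k < P.YT
  ne : ∀ k, P.a (P.N k - 1) < P.B ∨ P.a (P.N k) < P.B
  L : SC P.cn P.cf (fun k => P.rt k = false) P.F P.N (fun _ => False)
  R : SC P.dn P.df (fun k => P.rt k = true) P.F P.N (fun y => y = P.r ∨ y = P.r + 1)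
  rn : P.dn (P.r - 1) ≠ P.dn (P.r + 1)
  rf : P.df (P.r - 1) ≠ P.df (P.r + 1)
  la : ∀ k, P.rt k = false → P.mu k ≤ P.a (P.F k - 1) ∧ P.mu k ≤ P.a (P.F k) ∧ P.XL + P.δ + 1 ≤ P.mu k
  lj : ∀ k, P.rt k = false → P.F k ≠ P.N k → P.a (min (P.F k) (P.N k)) = P.mu k

variable {P} {X Y x y : ℤ}

lemma te_iff : P.W.TE (X, Y) ↔ X ≤ P.B ∧ ((P.a (Y - 1) < P.B ∧ P.a (Y - 1) ≤ X) ∨
    (P.a Y < P.B ∧ P.a Y ≤ X)) := by
  constructor
  · rintro ⟨x, y, ⟨h1, h2⟩, h3, h4, h5, h6⟩
    simp only at h3 h4 h5 h6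
    refine ⟨by omega, ?_⟩
    rcases (by omega : y = Y - 1 ∨ y = Y) with rfl | rfl
    · exact Or.inl ⟨by omega, by omega⟩
    · exact Or.inr ⟨by omega, by omega⟩
  · rintro ⟨h0, h | h⟩
    · by_cases hX : X < P.B
      · exact ⟨X, Y - 1, ⟨h.2, hX⟩, by unfold Tp; simp only; omega⟩
      · exact ⟨X - 1, Y - 1, ⟨by omega, by omega⟩, by unfold Tp; simp only; omega⟩
    · by_cases hX : X < P.B
      · exact ⟨X, Y, ⟨h.2, hX⟩, by unfold Tp; simp only; omega⟩
      · exact ⟨X - 1, Y, ⟨by omega, by omega⟩, by unfold Tp; simp only; omega⟩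

/-- a coloured tile is to the left or to the right of the region -/
lemma fl_iff (O : P.Ok) : P.W.Fl x y ↔ (P.XL ≤ x ∧ x < P.XR ∧ P.YB ≤ y ∧ y < P.YT) ∧
    (x < P.a y ∨ (P.B ≤ x ∧ y ≠ P.r)) := by
  have h1 := O.aB y
  have h2 := O.r0
  have h3 := O.r1
  unfold Wd.Fl W
  simp only
  constructor
  · rintro ⟨h4, h5, h6⟩
    refine ⟨h4, ?_⟩
    by_cases h7 : x < P.a y
    · exact Or.inl h7
    · refine Or.inr ⟨by omega, fun h8 => h6 ⟨h8, ?_⟩⟩
      by_contra h9
      exact h5 ⟨by omega, by omega⟩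
  · rintro ⟨h4, h5⟩
    refine ⟨h4, fun h6 => ?_, fun h6 => ?_⟩
    · omega
    · rcases h5 with h5 | h5
      · rw [h6.1] at h5; omega
      · exact h5.2 h6.1

lemma mu_le (k : κ) : P.mu k ≤ P.a (P.N k - 1) ∧ P.mu k ≤ P.a (P.N k) := by
  unfold mu; exact ⟨min_le_left _ _, min_le_right _ _⟩

lemma mu_lt (O : P.Ok) (k : κ) : P.mu k < P.B := by
  have := O.ne k
  unfold mu
  rw [min_lt_iff]
  exact this

lemma mu_or (k : κ) : P.a (P.N k - 1) = P.mu k ∨ P.a (P.N k) = P.mu k := by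
  unfold mu
  rcases le_total (P.a (P.N k - 1)) (P.a (P.N k)) with h | h
  · left; rw [min_eq_left h]
  · right; rw [min_eq_right h]

/-- the horizontal interface sides -/
lemma ih_cases (O : P.Ok) (h : P.W.IH X Y) :
    (X < P.a (Y - 1) ∧ X < P.a Y ∧ ∃ k, P.rt k = false ∧
      ((Y = P.F k ∧ X < P.mu k - P.δ) ∨ (Y = P.N k ∧ P.mu k - P.δ ≤ X))) ∨
    (P.B ≤ X ∧ ∃ k, P.rt k = true ∧ ((Y = P.F k ∧ P.B + P.δ ≤ X) ∨ (Y = P.N k ∧ X < P.B + P.δ))) := by
  obtain ⟨h1, h2, h3⟩ := h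
  have a1 := O.aB (Y - 1)
  have a2 := O.aB Y
  have a3 := ((fl_iff O).1 h1).2
  have a4 := ((fl_iff O).1 h2).2
  change P.col X (Y - 1) ≠ P.col X Y at h3
  by_cases hX : X < P.B
  · left
    have b1 : X < P.a (Y - 1) := by omega
    have b2 : X < P.a Y := by omega
    refine ⟨b1, b2, ?_⟩
    unfold col at h3
    rw [if_pos b1, if_pos b2] at h3
    have h3' : (if (fun y => P.a y - P.δ ≤ X) (Y - 1) then P.cn (Y - 1) else P.cf (Y - 1)) ≠
        (if (fun y => P.a y - P.δ ≤ X) Y then P.cn Y else P.cf Y) := h3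
    obtain ⟨k, hk, h4⟩ := O.L.iface (fun y => P.a y - P.δ ≤ X) (Y := Y) (fun h => h) (by convert h3')
    refine ⟨k, hk, ?_⟩
    rcases h4 with ⟨e1, e2⟩ | ⟨e1, e2, e3⟩ | ⟨e1, e2, e3⟩
    · by_cases q : X < P.mu k - P.δ
      · exact Or.inl ⟨e1.symm, q⟩
      · exact Or.inr ⟨e2.symm, by omega⟩
    · rw [O.lj k hk (by omega)] at e3
      exact Or.inl ⟨e1.symm, by omega⟩
    · rw [O.lj k hk (by omega)] at e3
      exact Or.inr ⟨e1.symm, e3⟩
  · right
    refine ⟨by omega, ?_⟩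
    have b1 : ¬ X < P.a (Y - 1) := by omega
    have b2 : ¬ X < P.a Y := by omega
    unfold col at h3
    rw [if_neg b1, if_neg b2] at h3
    have h3' : (if (fun _ : ℤ => X < P.B + P.δ) (Y - 1) then P.dn (Y - 1) else P.df (Y - 1)) ≠
        (if (fun _ : ℤ => X < P.B + P.δ) Y then P.dn Y else P.df Y) := h3
    obtain ⟨k, hk, h4⟩ := O.R.iface (fun _ => X < P.B + P.δ) (Y := Y) (fun h => by omega)
      (by convert h3')
    refine ⟨k, hk, ?_⟩
    rcases h4 with ⟨e1, e2⟩ | ⟨e1, e2, e3⟩ | ⟨e1, e2, e3⟩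
    · by_cases q : X < P.B + P.δ
      · exact Or.inr ⟨e2.symm, q⟩
      · exact Or.inl ⟨e1.symm, by omega⟩
    · exact Or.inl ⟨e1.symm, by omega⟩
    · exact Or.inr ⟨e1.symm, e3⟩

/-- the vertical interface sides -/
lemma iv_cases (O : P.Ok) (h : P.W.IV X y) :
    ∃ k, P.F k ≠ P.N k ∧ y = min (P.F k) (P.N k) ∧ X = P.jx k := by
  obtain ⟨h1, h2, h3⟩ := h
  have a1 := O.aB y
  have d1 := O.d1
  have a3 := ((fl_iff O).1 h1).2
  have a4 := ((fl_iff O).1 h2).2
  change P.col (X - 1) y ≠ P.col X y at h3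
  unfold col at h3
  by_cases hX : X < P.a y
  · rw [if_pos hX, if_pos (by omega)] at h3
    by_cases q : P.a y - P.δ ≤ X - 1
    · rw [if_pos q, if_pos (by omega)] at h3; exact absurd rfl h3
    · by_cases q' : P.a y - P.δ ≤ X
      · rw [if_neg q, if_pos q'] at h3
        obtain ⟨k, hk, e1, e2⟩ := (O.L.j y).1 h3.symm
        refine ⟨k, e1, e2, ?_⟩
        have := O.lj k hk e1
        rw [← e2] at this
        unfold jx
        rw [if_neg (by rw [hk]; simp)]
        omega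
      · rw [if_neg q, if_neg q'] at h3; exact absurd rfl h3
  · have hX' : P.B ≤ X := by omega
    by_cases q0 : X - 1 < P.a y
    · have e : P.a y = P.B := by omega
      rw [if_pos q0, if_neg hX, if_pos (by omega), if_pos (by omega), O.em y e] at h3
      exact absurd rfl h3
    · rw [if_neg q0, if_neg hX] at h3
      by_cases q : X < P.B + P.δ
      · rw [if_pos q, if_pos (by omega)] at h3; exact absurd rfl h3
      · by_cases q' : X - 1 < P.B + P.δ
        · rw [if_neg q, if_pos q'] at h3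
          obtain ⟨k, hk, e1, e2⟩ := (O.R.j y).1 h3
          refine ⟨k, e1, e2, ?_⟩
          unfold jx
          rw [if_pos hk]
          omega
        · rw [if_neg q, if_neg q'] at h3; exact absurd rfl h3

lemma Q_left {k : κ} (h : P.rt k = false) : P.Q k (X, Y) ↔ (Y = P.F k ∧ X ≤ P.mu k - P.δ) ∨
    (Y = P.N k ∧ P.mu k - P.δ ≤ X ∧ X ≤ P.mu k - 1) := by
  unfold Q; rw [if_neg (by rw [h]; simp)]

lemma Q_right {k : κ} (h : P.rt k = true) : P.Q k (X, Y) ↔ (Y = P.F k ∧ P.B + P.δ ≤ X) ∨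
    (Y = P.N k ∧ P.B + 1 ≤ X ∧ X ≤ P.B + P.δ) := by
  unfold Q; rw [if_pos h]

lemma I_left {k : κ} (h : P.rt k = false) : P.I k = hs (P.mu k - 1) (P.N k) := by
  unfold I; rw [if_neg (by rw [h]; simp)]

lemma I_right {k : κ} (h : P.rt k = true) : P.I k = hs P.B (P.N k) := by
  unfold I; rw [if_pos h]

/-- no tile of the region at a point of a corridor -/
lemma Q_far (O : P.Ok) {k : κ} (h : P.Q k (X, Y)) : ¬ P.W.TE (X, Y) := by
  have d1 := O.d1
  have m1 := mu_le (P := P) k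
  have m2 := mu_lt O k
  rw [te_iff]
  cases hk : P.rt k
  · have m3 := O.la k hk
    rw [Q_left hk] at h
    rcases h with ⟨rfl, h⟩ | ⟨rfl, h⟩ <;> omega
  · rw [Q_right hk] at h
    omega

/-- the corridor of a mark at a height -/
lemma Q_height (k : κ) (h : P.Q k (X, Y)) : Y = P.F k ∨ Y = P.N k := by
  unfold Q at h
  split_ifs at h
  · rcases h with h | h
    · exact Or.inl h.1
    · exact Or.inr h.1
  · rcases h with h | h
    · exact Or.inl h.1
    · exact Or.inr h.1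

/-- two corridors on one side with a common height -/
lemma uniq (O : P.Ok) {k l : κ} (h : P.rt k = P.rt l) (h1 : Y = P.F k ∨ Y = P.N k)
    (h2 : Y = P.F l ∨ Y = P.N l) : k = l := by
  have key : (∀ k l, P.rt k = P.rt l → (P.F k = P.F l ∨ P.F k = P.N l ∨ P.N k = P.N l) → k = l) := by
    intro k l h h'
    cases hk : P.rt k
    · exact O.L.sep k l hk (by rw [← h, hk]) h'
    · exact O.R.sep k l hk (by rw [← h, hk]) h'
  rcases h1 with h1 | h1 <;> rcases h2 with h2 | h2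
  · exact key k l h (Or.inl (by omega))
  · exact key k l h (Or.inr (Or.inl (by omega)))
  · exact (key l k h.symm (Or.inr (Or.inl (by omega)))).symm
  · exact key k l h (Or.inr (Or.inr (by omega)))

/-- the side of a corridor point -/
lemma Q_side (O : P.Ok) {k : κ} (h : P.Q k (X, Y)) :
    (P.rt k = false → X < P.B - 1) ∧ (P.rt k = true → P.B < X) := by
  have m2 := mu_lt O k
  have d1 := O.d1
  constructor
  · intro hk; rw [Q_left hk] at h; omega
  · intro hk; rw [Q_right hk] at h; omega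

end JD

end Pool.Agent.H33.W
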