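import Mathlib
import Pool.Agent.H33.W.Prof

set_option autoImplicit false
open Finset

/-! # Profiles with bent interfaces: the marks -/

namespace Pool.Agent.H33.W

open Pool.Agent.H75.Perc Pool.Agent.H75.TwoArm Pool.Agent.H13.W
open Pool.Agent.H33.Q1 (lt tt tv tf lt_inj tt_lt lt_odd lt_tt)

lemma pt_pv {c : Bool} {X Y : ℤ} (h : pv c X Y) : pt c (vs X Y) = (X, Y) := by
  rw [pt_vs, if_neg]
  unfold pv at h
  rcases Int.emod_two_eq_zero_or_one (X + Y) with p | p <;> cases c <;> simp_all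

lemma pt_npv {c : Bool} {X Y : ℤ} (h : ¬ pv c X Y) : pt (!c) (vs X (Y - 1)) = (X, Y) := by
  rw [pt_vs, if_pos, sub_add_cancel]
  unfold pv at h
  rcases Int.emod_two_eq_zero_or_one (X + Y) with p | p
  · have q : (X + (Y - 1)) % 2 = 1 := by omega
    cases c <;> simp_all
  · have q : (X + (Y - 1)) % 2 = 0 := by omega
    cases c <;> simp_all

namespace JD

variable {κ : Type} {P : JD κ} {X Y x y : ℤ}

lemma col_l (h : x < P.a y) (h' : P.a y - P.δ ≤ x) : P.W.col x y = P.cn y := by
  change P.col x y = _; unfold col; rw [if_pos h, if_pos h']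

lemma col_lf (O : P.Ok) (h' : x < P.a y - P.δ) : P.W.col x y = P.cf y := by
  have := O.d1
  change P.col x y = _; unfold col; rw [if_pos (by omega), if_neg (by omega)]

lemma col_r (O : P.Ok) (h : P.B ≤ x) (h' : x < P.B + P.δ) : P.W.col x y = P.dn y := by
  have := O.aB y
  change P.col x y = _; unfold col; rw [if_neg (by omega), if_pos h']

lemma col_rf (O : P.Ok) (h' : P.B + P.δ ≤ x) : P.W.col x y = P.df y := by
  have := O.aB y
  have := O.d1
  change P.col x y = _; unfold col; rw [if_neg (by omega), if_neg (by omega)]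

/-- both ends of a jog are corridor points -/
lemma jog_Q (O : P.Ok) (k : κ) : P.Q k (P.jx k, P.F k) ∧ P.Q k (P.jx k, P.N k) := by
  have d1 := O.d1
  cases hk : P.rt k
  · have e : P.jx k = P.mu k - P.δ := by unfold jx; rw [if_neg (by rw [hk]; simp)]
    rw [Q_left hk, Q_left hk, e]
    exact ⟨Or.inl ⟨rfl, le_rfl⟩, Or.inr ⟨rfl, le_rfl, by omega⟩⟩
  · have e : P.jx k = P.B + P.δ := by unfold jx; rw [if_pos hk]
    rw [Q_right hk, Q_right hk, e]
    exact ⟨Or.inl ⟨rfl, le_rfl⟩, Or.inr ⟨rfl, by omega, le_rfl⟩⟩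

/-- points of two corridors with the same abscissa -/
lemma same_rt (O : P.Ok) {k l : κ} {Y' : ℤ} (h : P.Q k (X, Y)) (h' : P.Q l (X, Y')) : P.rt k = P.rt l := by
  have h1 := Q_side O h
  have h2 := Q_side O h'
  cases hk : P.rt k <;> cases hl : P.rt l
  · rfl
  · have := h1.1 hk; have := h2.2 hl; omega
  · have := h1.2 hk; have := h2.1 hl; omega
  · rfl

/-- the two ends of a vertical interface side -/
lemma iv_Q (O : P.Ok) (h : P.W.IV X y) : ∃ k, P.Q k (X, y) ∧ P.Q k (X, y + 1) := by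
  obtain ⟨k, h1, h2, rfl⟩ := iv_cases O h
  obtain ⟨h3, h4⟩ := jog_Q O k
  have h5 : P.F k - 1 ≤ P.N k ∧ P.N k ≤ P.F k + 1 := O.L.fn k
  refine ⟨k, ?_⟩
  rcases le_total (P.F k) (P.N k) with q | q
  · rw [min_eq_left q] at h2
    have : P.N k = P.F k + 1 := by omega
    rw [this] at h4
    rw [h2]; exact ⟨h3, h4⟩
  · rw [min_eq_right q] at h2
    have : P.F k = P.N k + 1 := by omega
    rw [this] at h3
    rw [h2]; exact ⟨h4, h3⟩

/-- fill tiles at a left corridor -/
lemma fl_l (O : P.Ok) (h : P.XL ≤ x) (h' : x < P.a y) (h1 : P.YB ≤ y) (h2 : y < P.YT) : P.W.Fl x y := by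
  have := O.aB y
  have := O.bR
  have := O.d1
  rw [fl_iff O]
  exact ⟨⟨h, by omega, h1, h2⟩, Or.inl h'⟩

/-- fill tiles at a right corridor -/
lemma fl_r (O : P.Ok) (h : P.B ≤ x) (h' : x < P.XR) (h1 : P.YB ≤ y) (h2 : y < P.YT) (h3 : y ≠ P.r) :
    P.W.Fl x y := by
  have h4 := O.bx P.r (by have := O.r0; have := O.r1; omega)
  have h5 := O.r0
  have h6 := O.r1
  rw [fl_iff O]
  exact ⟨⟨by omega, h', h1, h2⟩, Or.inr ⟨h, h3⟩⟩

lemma K_left {k : κ} (h : P.rt k = false) : P.K k = Wd.ks (P.cf (P.F k)) P.XL (P.F k) := by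
  unfold K; rw [if_neg (by rw [h]; simp)]

lemma K_right {k : κ} (h : P.rt k = true) : P.K k = Wd.ks (P.df (P.F k)) P.XR (P.F k) := by
  unfold K; rw [if_pos h]

/-- the tile at the side of the frame -/
lemma K_tile (O : P.Ok) (k : κ) : ∃ x y, P.W.Fl x y ∧ Sd (lt (x, y)) (P.K k) ∧
    P.Q k (pt (P.W.col x y) (P.K k)) ∧
    (∀ x' y', P.W.Zt x' y' → Sd (lt (x', y')) (P.K k) → x' = x ∧ y' = y) ∧
    (pt (P.W.col x y) (P.K k)).2 = P.F k := by
  have d1 := O.d1
  have mb := O.mb k
  cases hk : P.rt k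
  · obtain ⟨l1, l2, l3⟩ := O.la k hk
    have mc := mu_lt O k
    have hne := O.L.cf_ne (k := k) hk
    have eb : P.cf (P.F k - 1) = !P.cf (P.F k) := bnot hne
    rw [K_left hk]
    unfold Wd.ks
    by_cases p : pv (P.cf (P.F k)) P.XL (P.F k)
    · rw [if_pos p]
      refine ⟨P.XL, P.F k, fl_l O le_rfl (by omega) (by omega) (by omega), sd_vs.2 ⟨rfl, Or.inl rfl⟩, ?_,
        ?_, ?_⟩
      · rw [col_lf O (by omega), pt_pv p, Q_left hk]
        exact Or.inl ⟨rfl, by omega⟩
      · intro x' y' hz hs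
        rw [sd_vs] at hs
        have hz' : P.XL ≤ x' := hz.1
        exact ⟨by omega, hs.1⟩
      · rw [col_lf O (by omega), pt_pv p]
    · rw [if_neg p]
      refine ⟨P.XL, P.F k - 1, fl_l O le_rfl (by omega) (by omega) (by omega),
        sd_vs.2 ⟨rfl, Or.inl rfl⟩, ?_, ?_, ?_⟩
      · rw [col_lf O (by omega), eb, pt_npv p, Q_left hk]
        exact Or.inl ⟨rfl, by omega⟩
      · intro x' y' hz hs
        rw [sd_vs] at hs
        have hz' : P.XL ≤ x' := hz.1
        exact ⟨by omega, hs.1⟩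
      · rw [col_lf O (by omega), eb, pt_npv p]
  · have bR := O.bR
    have he := (O.R.e k hk).1
    have hne := O.R.cf_ne (k := k) hk
    have eb : P.df (P.F k - 1) = !P.df (P.F k) := bnot hne
    rw [K_right hk]
    unfold Wd.ks
    by_cases p : pv (P.df (P.F k)) P.XR (P.F k)
    · rw [if_pos p]
      refine ⟨P.XR - 1, P.F k, fl_r O (by omega) (by omega) (by omega) (by omega) (by omega),
        sd_vs.2 ⟨rfl, Or.inr rfl⟩, ?_, ?_, ?_⟩
      · rw [col_rf O (by omega), pt_pv p, Q_right hk]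
        exact Or.inl ⟨rfl, by omega⟩
      · intro x' y' hz hs
        rw [sd_vs] at hs
        have hz' : x' < P.XR := hz.2.1
        exact ⟨by omega, hs.1⟩
      · rw [col_rf O (by omega), pt_pv p]
    · rw [if_neg p]
      refine ⟨P.XR - 1, P.F k - 1, fl_r O (by omega) (by omega) (by omega) (by omega) (by omega),
        sd_vs.2 ⟨rfl, Or.inr rfl⟩, ?_, ?_, ?_⟩
      · rw [col_rf O (by omega), eb, pt_npv p, Q_right hk]
        exact Or.inl ⟨rfl, by omega⟩
      · intro x' y' hz hs
        rw [sd_vs] at hs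
        have hz' : x' < P.XR := hz.2.1
        exact ⟨by omega, hs.1⟩
      · rw [col_rf O (by omega), eb, pt_npv p]

open Wd

/-- the path of a left interface -/
lemma path_l (O : P.Ok) {w : Finset (ℤ × ℤ)} (hw : P.W.Con w) {k : κ} (hk : P.rt k = false) :
    (P.W.G w).Reachable (P.K k) (P.I k) := by
  have d1 := O.d1
  have mb := O.mb k
  obtain ⟨l1, l2, l3⟩ := O.la k hk
  obtain ⟨m1, m2⟩ := mu_le (P := P) k
  have mc := mu_lt O k
  have hf := bnot (O.L.cf_ne (k := k) hk)
  have hn := bnot (O.L.cn_ne (k := k) hk)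
  have fn := O.L.fn k
  rw [K_left hk, I_left hk]
  -- the end of the frame
  have s0 : (P.W.G w).Reachable (ks (P.cf (P.F k)) P.XL (P.F k)) (hs P.XL (P.F k)) := by
    have e1 : P.W.col P.XL (P.F k) = P.cf (P.F k) := col_lf O (by omega)
    have e2 : P.W.col P.XL (P.F k - 1) = !P.cf (P.F k) := by rw [col_lf O (by omega), hf]
    have := k_left (F := P.W) (X := P.XL) (Y := P.F k) hw (fl_l O le_rfl (by omega) (by omega) (by omega))
      (fl_l O le_rfl (by omega) (by omega) (by omega)) (by rw [e1, e2]; simp)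
    rwa [e1] at this
  refine s0.trans ?_
  by_cases hFN : P.F k = P.N k
  · -- straight
    have c1 : P.cn (P.F k) = P.cf (P.F k) := O.L.flat hk (by omega) (Or.inl hFN)
    have c2 : P.cn (P.F k - 1) = P.cf (P.F k - 1) := O.L.flat hk (by omega) (Or.inl hFN)
    rw [← hFN]
    refine line hw (by omega) (P.cf (P.F k)) fun x h1 h2 => ⟨fl_l O h1 (by omega) (by omega) (by omega),
      fl_l O h1 (by omega) (by omega) (by omega), ?_, ?_⟩
    · by_cases q : P.a (P.F k) - P.δ ≤ x
      · rw [col_l (by omega) q, c1]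
      · rw [col_lf O (by omega)]
    · by_cases q : P.a (P.F k - 1) - P.δ ≤ x
      · rw [col_l (by omega) q, c2, hf]
      · rw [col_lf O (by omega), hf]
  -- the far straight part
  have s1 : (P.W.G w).Reachable (hs P.XL (P.F k)) (hs (P.mu k - P.δ - 1) (P.F k)) := by
    refine line hw (by omega) (P.cf (P.F k)) fun x h1 h2 => ⟨fl_l O h1 (by omega) (by omega) (by omega),
      fl_l O h1 (by omega) (by omega) (by omega), ?_, ?_⟩
    · rw [col_lf O (by omega)]
    · rw [col_lf O (by omega), hf]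
  refine s1.trans ?_
  have hj := bnot (O.L.j_ne (k := k) hk hFN)
  have lj := O.lj k hk hFN
  rcases lt_or_gt_of_ne hFN with q | q
  · -- the mark has moved up
    have eN : P.N k = P.F k + 1 := by omega
    have eN' : P.N k - 1 = P.F k := by omega
    rw [min_eq_left q.le] at hj lj
    have c3 : P.cn (P.F k - 1) = P.cf (P.F k - 1) := O.L.flat hk (by omega) (Or.inr (by omega))
    have c4 : P.cn (P.N k) = P.cf (P.N k) := O.L.flat hk (by omega) (Or.inr (by omega))
    rw [eN'] at hn m1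
    -- near straight part
    have s4 : (P.W.G w).Reachable (hs (P.mu k - P.δ) (P.N k)) (hs (P.mu k - 1) (P.N k)) := by
      refine line hw (by omega) (P.cn (P.N k)) fun x h1 h2 => ⟨fl_l O (by omega) (by omega) (by omega)
        (by omega), fl_l O (by omega) (by rw [eN']; omega) (by omega) (by omega), ?_, ?_⟩
      · by_cases q : P.a (P.N k) - P.δ ≤ x
        · rw [col_l (by omega) q]
        · rw [col_lf O (by omega), c4]
      · rw [eN', col_l (by omega) (by omega), hn]
    refine SimpleGraph.Reachable.trans ?_ s4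
    -- turns
    have f1 : ∀ x, P.XL ≤ x → x ≤ P.mu k - 1 → P.W.Fl x (P.F k - 1) ∧ P.W.Fl x (P.F k) ∧ P.W.Fl x (P.N k) :=
      fun x h1 h2 => ⟨fl_l O h1 (by omega) (by omega) (by omega), fl_l O h1 (by omega) (by omega) (by omega),
        fl_l O h1 (by omega) (by omega) (by omega)⟩
    have g1 : ∀ x, P.W.Fl x (P.N k) → x < P.a (P.N k) → P.W.col x (P.N k) = P.cf (P.N k) := by
      intro x h1 h2
      by_cases q : P.a (P.N k) - P.δ ≤ x
      · rw [col_l (by omega) q, c4]
      · rw [col_lf O (by omega)]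
    have g2 : ∀ x, x < P.a (P.F k - 1) → P.W.col x (P.F k - 1) = P.cf (P.F k - 1) := by
      intro x h2
      by_cases q : P.a (P.F k - 1) - P.δ ≤ x
      · rw [col_l (by omega) q, c3]
      · rw [col_lf O (by omega)]
    have t1 : (P.W.G w).Reachable (hs (P.mu k - P.δ - 1) (P.F k)) (vs (P.mu k - P.δ) (P.F k)) := by
      obtain ⟨a1, a2, a3⟩ := f1 (P.mu k - P.δ) (by omega) (by omega)
      obtain ⟨b1, b2, b3⟩ := f1 (P.mu k - P.δ - 1) (by omega) (by omega)
      refine s_wn (c := P.cn (P.F k)) hw a2 b2 b1 a1 ?_ ?_ ?_ ?_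
      · rw [col_l (by omega) (by omega)]
      · rw [col_lf O (by omega), hj]; simp
      · rw [g2 _ (by omega), hf, hj]
      · rw [g2 _ (by omega), hf, hj]
    have t2 : (P.W.G w).Reachable (vs (P.mu k - P.δ) (P.F k)) (hs (P.mu k - P.δ) (P.N k)) := by
      obtain ⟨a1, a2, a3⟩ := f1 (P.mu k - P.δ) (by omega) (by omega)
      obtain ⟨b1, b2, b3⟩ := f1 (P.mu k - P.δ - 1) (by omega) (by omega)
      have := s_se (c := P.cn (P.N k)) (F := P.W) (w := w) (X := P.mu k - P.δ) (Y := P.N k) hw a3 b3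
        (by rw [eN']; exact b2) (by rw [eN']; exact a2) ?_ ?_ ?_ ?_
      · rwa [eN'] at this
      · rw [g1 _ a3 (by omega), c4]
      · rw [g1 _ b3 (by omega), c4]
      · rw [eN', col_lf O (by omega)]
        rw [hj] at hn
        simpa using hn
      · rw [eN', col_l (by omega) (by omega), hn]
    exact t1.trans t2
  · -- the mark has moved down
    have eN : P.F k = P.N k + 1 := by omega
    have eF' : P.F k - 1 = P.N k := by omega
    rw [min_eq_right q.le] at hj lj
    have c3 : P.cn (P.N k - 1) = P.cf (P.N k - 1) := O.L.flat hk (by omega) (Or.inr (by omega))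
    have c4 : P.cn (P.F k) = P.cf (P.F k) := O.L.flat hk (by omega) (Or.inr (by omega))
    rw [eF'] at hf l1
    -- near straight part
    have s4 : (P.W.G w).Reachable (hs (P.mu k - P.δ) (P.N k)) (hs (P.mu k - 1) (P.N k)) := by
      refine line hw (by omega) (P.cn (P.N k)) fun x h1 h2 => ⟨fl_l O (by omega) (by omega) (by omega)
        (by omega), fl_l O (by omega) (by omega) (by omega) (by omega), ?_, ?_⟩
      · rw [col_l (by omega) (by omega)]
      · by_cases q : P.a (P.N k - 1) - P.δ ≤ x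
        · rw [col_l (by omega) q, hn]
        · rw [col_lf O (by omega), ← c3, hn]
    refine SimpleGraph.Reachable.trans ?_ s4
    -- turns
    have f1 : ∀ x, P.XL ≤ x → x ≤ P.mu k - 1 → P.W.Fl x (P.F k) ∧ P.W.Fl x (P.N k) ∧ P.W.Fl x (P.N k - 1) :=
      fun x h1 h2 => ⟨fl_l O h1 (by omega) (by omega) (by omega), fl_l O h1 (by omega) (by omega) (by omega),
        fl_l O h1 (by omega) (by omega) (by omega)⟩
    have g1 : ∀ x, x < P.a (P.F k) → P.W.col x (P.F k) = P.cf (P.F k) := by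
      intro x h2
      by_cases q : P.a (P.F k) - P.δ ≤ x
      · rw [col_l (by omega) q, c4]
      · rw [col_lf O (by omega)]
    have g2 : ∀ x, x < P.a (P.N k - 1) → P.W.col x (P.N k - 1) = P.cf (P.N k - 1) := by
      intro x h2
      by_cases q : P.a (P.N k - 1) - P.δ ≤ x
      · rw [col_l (by omega) q, c3]
      · rw [col_lf O (by omega)]
    have t1 : (P.W.G w).Reachable (hs (P.mu k - P.δ - 1) (P.F k)) (vs (P.mu k - P.δ) (P.N k)) := by
      obtain ⟨a1, a2, a3⟩ := f1 (P.mu k - P.δ) (by omega) (by omega)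
      obtain ⟨b1, b2, b3⟩ := f1 (P.mu k - P.δ - 1) (by omega) (by omega)
      have := s_ws (c := P.cf (P.F k)) (F := P.W) (w := w) (X := P.mu k - P.δ) (Y := P.F k) hw a1 b1
        (by rw [eF']; exact b2) (by rw [eF']; exact a2) ?_ ?_ ?_ ?_
      · rwa [eF'] at this
      · rw [g1 _ (by omega)]
      · rw [g1 _ (by omega)]
      · rw [eF', col_lf O (by omega), hf]
      · rw [eF', col_l (by omega) (by omega), hj, hf]; simp
    have t2 : (P.W.G w).Reachable (vs (P.mu k - P.δ) (P.N k)) (hs (P.mu k - P.δ) (P.N k)) := by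
      obtain ⟨a1, a2, a3⟩ := f1 (P.mu k - P.δ) (by omega) (by omega)
      obtain ⟨b1, b2, b3⟩ := f1 (P.mu k - P.δ - 1) (by omega) (by omega)
      refine s_ne (c := P.cf (P.N k)) hw a2 b2 b3 a3 ?_ ?_ ?_ ?_
      · rw [col_l (by omega) (by omega), hj]
      · rw [col_lf O (by omega)]
      · rw [g2 _ (by omega), ← c3, hn, hj]; simp
      · rw [g2 _ (by omega), ← c3, hn, hj]; simp
    exact t1.trans t2

end JD

end Pool.Agent.H33.W
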