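import Mathlib
import Pool.Agent.H33.W.ProfM

set_option autoImplicit false
open Finset

/-! # Profiles with bent interfaces: the structure of marks -/

namespace Pool.Agent.H33.W

open Pool.Agent.H75.Perc Pool.Agent.H75.TwoArm Pool.Agent.H13.W
open Pool.Agent.H33.Q1 (lt tt tv tf lt_inj tt_lt lt_odd lt_tt)

namespace JD

variable {κ : Type} {P : JD κ} {X Y x y : ℤ}

open Wd

/-- the path of a right interface -/
lemma path_r (O : P.Ok) {w : Finset (ℤ × ℤ)} (hw : P.W.Con w) {k : κ} (hk : P.rt k = true) :
    (P.W.G w).Reachable (P.K k) (P.I k) := by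
  have d1 := O.d1
  have mb := O.mb k
  have bR := O.bR
  have hf := bnot (O.R.cf_ne (k := k) hk)
  have hn := bnot (O.R.cn_ne (k := k) hk)
  have fn : P.F k - 1 ≤ P.N k ∧ P.N k ≤ P.F k + 1 := O.R.fn k
  obtain ⟨eF, eN⟩ := O.R.e k hk
  rw [K_right hk, I_right hk]
  have fl : ∀ x y, P.B ≤ x → x < P.XR → (y = P.F k ∨ y = P.F k - 1 ∨ y = P.N k ∨ y = P.N k - 1) → P.W.Fl x y :=
    fun x y h1 h2 h3 => fl_r O h1 h2 (by omega) (by omega) (by omega)
  -- the end of the frame
  have s0 : (P.W.G w).Reachable (ks (P.df (P.F k)) P.XR (P.F k)) (hs (P.XR - 1) (P.F k)) := by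
    have e1 : P.W.col (P.XR - 1) (P.F k) = P.df (P.F k) := col_rf O (by omega)
    have e2 : P.W.col (P.XR - 1) (P.F k - 1) = !P.df (P.F k) := by rw [col_rf O (by omega), hf]
    have := k_right (F := P.W) (X := P.XR) (Y := P.F k) hw (fl _ _ (by omega) (by omega) (by omega))
      (fl _ _ (by omega) (by omega) (by omega)) (by rw [e1, e2]; simp)
    rwa [e1] at this
  refine s0.trans (SimpleGraph.Reachable.symm ?_)
  by_cases hFN : P.F k = P.N k
  · -- straight
    have c1 : P.dn (P.F k) = P.df (P.F k) := O.R.flat hk (by omega) (Or.inl hFN)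
    have c2 : P.dn (P.F k - 1) = P.df (P.F k - 1) := O.R.flat hk (by omega) (Or.inl hFN)
    rw [← hFN]
    refine line hw (by omega) (P.df (P.F k)) fun x h1 h2 => ⟨fl _ _ h1 (by omega) (by omega),
      fl _ _ h1 (by omega) (by omega), ?_, ?_⟩
    · by_cases q : x < P.B + P.δ
      · rw [col_r O h1 q, c1]
      · rw [col_rf O (by omega)]
    · by_cases q : x < P.B + P.δ
      · rw [col_r O h1 q, c2, hf]
      · rw [col_rf O (by omega), hf]
  -- the far straight part
  have s1 : (P.W.G w).Reachable (hs (P.B + P.δ) (P.F k)) (hs (P.XR - 1) (P.F k)) := by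
    refine line hw (by omega) (P.df (P.F k)) fun x h1 h2 => ⟨fl _ _ (by omega) (by omega) (by omega),
      fl _ _ (by omega) (by omega) (by omega), ?_, ?_⟩
    · rw [col_rf O (by omega)]
    · rw [col_rf O (by omega), hf]
  -- the near straight part
  have s4 : (P.W.G w).Reachable (hs P.B (P.N k)) (hs (P.B + P.δ - 1) (P.N k)) := by
    refine line hw (by omega) (P.dn (P.N k)) fun x h1 h2 => ⟨fl _ _ (by omega) (by omega) (by omega),
      fl _ _ (by omega) (by omega) (by omega), ?_, ?_⟩
    · rw [col_r O h1 (by omega)]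
    · rw [col_r O h1 (by omega), hn]
  refine s4.trans (SimpleGraph.Reachable.trans ?_ s1)
  have hj := bnot (O.R.j_ne (k := k) hk hFN)
  rcases lt_or_gt_of_ne hFN with q | q
  · -- the mark has moved up
    have eN' : P.N k - 1 = P.F k := by omega
    rw [min_eq_left q.le] at hj
    have c3 : P.dn (P.F k - 1) = P.df (P.F k - 1) := O.R.flat hk (by omega) (Or.inr (by omega))
    have c4 : P.dn (P.N k) = P.df (P.N k) := O.R.flat hk (by omega) (Or.inr (by omega))
    rw [eN'] at hn
    have t1 : (P.W.G w).Reachable (vs (P.B + P.δ) (P.F k)) (hs (P.B + P.δ) (P.F k)) := by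
      refine s_ne (c := P.dn (P.F k)) hw (fl _ _ (by omega) (by omega) (by omega))
        (fl _ _ (by omega) (by omega) (by omega)) (fl _ _ (by omega) (by omega) (by omega))
        (fl _ _ (by omega) (by omega) (by omega)) ?_ ?_ ?_ ?_
      · rw [col_rf O le_rfl, hj]; simp
      · rw [col_r O (by omega) (by omega)]
      · rw [col_r O (by omega) (by omega), c3, hf, hj]
      · rw [col_rf O le_rfl, hf, hj]
    have t2 : (P.W.G w).Reachable (hs (P.B + P.δ - 1) (P.N k)) (vs (P.B + P.δ) (P.F k)) := by
      have := s_ws (c := P.dn (P.N k)) (F := P.W) (w := w) (X := P.B + P.δ) (Y := P.N k) hw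
        (fl _ _ (by omega) (by omega) (by omega)) (fl _ _ (by omega) (by omega) (by omega))
        (fl _ _ (by omega) (by omega) (by omega)) (fl _ _ (by omega) (by omega) (by omega)) ?_ ?_ ?_ ?_
      · rwa [eN'] at this
      · rw [col_rf O le_rfl, c4]
      · rw [col_r O (by omega) (by omega)]
      · rw [eN', col_r O (by omega) (by omega), hn]
      · rw [eN', col_rf O le_rfl]
        rw [hj] at hn
        simpa using hn
    exact t2.trans t1
  · -- the mark has moved down
    have eF' : P.F k - 1 = P.N k := by omega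
    rw [min_eq_right q.le] at hj
    have c3 : P.dn (P.N k - 1) = P.df (P.N k - 1) := O.R.flat hk (by omega) (Or.inr (by omega))
    have c4 : P.dn (P.F k) = P.df (P.F k) := O.R.flat hk (by omega) (Or.inr (by omega))
    rw [eF'] at hf
    have t1 : (P.W.G w).Reachable (vs (P.B + P.δ) (P.N k)) (hs (P.B + P.δ) (P.F k)) := by
      have := s_se (c := P.df (P.F k)) (F := P.W) (w := w) (X := P.B + P.δ) (Y := P.F k) hw
        (fl _ _ (by omega) (by omega) (by omega)) (fl _ _ (by omega) (by omega) (by omega))
        (fl _ _ (by omega) (by omega) (by omega)) (fl _ _ (by omega) (by omega) (by omega)) ?_ ?_ ?_ ?_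
      · rwa [eF'] at this
      · rw [col_rf O le_rfl]
      · rw [col_r O (by omega) (by omega), c4]
      · rw [eF', col_r O (by omega) (by omega), hj, hf]; simp
      · rw [eF', col_rf O le_rfl, hf]
    have t2 : (P.W.G w).Reachable (hs (P.B + P.δ - 1) (P.N k)) (vs (P.B + P.δ) (P.N k)) := by
      refine s_wn (c := P.df (P.N k)) hw (fl _ _ (by omega) (by omega) (by omega))
        (fl _ _ (by omega) (by omega) (by omega)) (fl _ _ (by omega) (by omega) (by omega))
        (fl _ _ (by omega) (by omega) (by omega)) ?_ ?_ ?_ ?_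
      · rw [col_rf O le_rfl]
      · rw [col_r O (by omega) (by omega), hj]
      · rw [col_r O (by omega) (by omega), hn, hj]; simp
      · rw [col_rf O le_rfl, ← c3, hn, hj]; simp
    exact t2.trans t1

/-- **The marks.** -/
noncomputable def M (O : P.Ok) : Mk P.W κ where
  I := P.I
  K := P.K
  Q := P.Q
  inz := fun x y h => by
    have h1 := O.bx y (by have := h.1; have := h.2; omega)
    have h2 := O.bR
    have h3 := O.d1
    obtain ⟨h4, h5⟩ := h
    exact ⟨by omega, by omega, by omega, by omega⟩
  far := fun k A h => Q_far (X := A.1) (Y := A.2) O h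
  lvH := fun X Y h => by
    have d1 := O.d1
    rw [te_iff, te_iff]
    rcases ih_cases O h with ⟨h1, h2, k, hk, h3⟩ | ⟨h1, k, hk, h3⟩
    · refine ⟨fun h4 => by omega, fun h4 _ => ?_⟩
      have h5 := O.la k hk
      have h6 := mu_le (P := P) k
      rcases h3 with ⟨rfl, h3⟩ | ⟨rfl, h3⟩
      · omega
      · have h7 : P.mu k = X + 1 := by
          rcases mu_or (P := P) k with q | q <;> omega
        refine ⟨k, ?_, ?_⟩
        · rw [I_left hk, h7, add_sub_cancel_right]
        · rw [Q_left hk]; exact Or.inr ⟨rfl, by omega, by omega⟩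
    · refine ⟨fun h4 _ => ?_, fun h4 => by omega⟩
      have h5 : X = P.B := by omega
      rcases h3 with ⟨rfl, h3⟩ | ⟨rfl, h3⟩
      · omega
      · exact ⟨k, by rw [I_right hk, h5], by rw [Q_right hk]; exact Or.inr ⟨rfl, by omega, by omega⟩⟩
  lvV := fun X Y h => by
    obtain ⟨k, h1, h2⟩ := iv_Q O h
    exact ⟨fun h3 => absurd h3 (Q_far O h1), fun h3 => absurd h3 (Q_far O h2)⟩
  stH := fun k X Y h => by
    have d1 := O.d1
    rw [te_iff, te_iff]
    rcases ih_cases O h with ⟨h1, h2, l, hl, h3⟩ | ⟨h1, l, hl, h3⟩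
    · have aB := O.aB Y
      have Yl : Y = P.F l ∨ Y = P.N l := by rcases h3 with h3 | h3; exacts [Or.inl h3.1, Or.inr h3.1]
      have key : ∀ X', P.Q k (X', Y) → X' ≤ X + 1 → k = l := by
        intro X' h4 h5
        refine uniq (Y := Y) O ?_ (Q_height k h4) Yl
        have h6 := (Q_side O h4).2
        rw [hl]
        cases hk : P.rt k
        · rfl
        · have := h6 hk; omega
      have g1 := O.la l hl
      have g2 := mu_le (P := P) l
      have g3 := mu_lt O l
      constructor
      · intro h4
        obtain rfl := key X h4 (by omega)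
        rw [Q_left hl] at h4 ⊢
        rcases h3 with ⟨rfl, h3⟩ | ⟨rfl, h3⟩
        · left; exact Or.inl ⟨rfl, by omega⟩
        · by_cases q : X + 1 ≤ P.mu k - 1
          · left; exact Or.inr ⟨rfl, by omega, q⟩
          · right
            have g4 : P.mu k = X + 1 := by omega
            refine ⟨by rw [I_left hl, g4, add_sub_cancel_right], by omega, ?_⟩
            rcases mu_or (P := P) k with q | q
            · left; omega
            · right; omega
      · intro h4
        obtain rfl := key (X + 1) h4 le_rfl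
        rw [Q_left hl] at h4 ⊢
        left
        rcases h3 with ⟨rfl, h3⟩ | ⟨rfl, h3⟩
        · exact Or.inl ⟨rfl, by omega⟩
        · exact Or.inr ⟨rfl, h3, by omega⟩
    · have Yl : Y = P.F l ∨ Y = P.N l := by rcases h3 with h3 | h3; exacts [Or.inl h3.1, Or.inr h3.1]
      have key : ∀ X', P.Q k (X', Y) → X ≤ X' → k = l := by
        intro X' h4 h5
        refine uniq (Y := Y) O ?_ (Q_height k h4) Yl
        have h6 := (Q_side O h4).1
        rw [hl]
        cases hk : P.rt k
        · have := h6 hk; omega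
        · rfl
      constructor
      · intro h4
        obtain rfl := key X h4 le_rfl
        rw [Q_right hl] at h4 ⊢
        left
        rcases h3 with ⟨rfl, h3⟩ | ⟨rfl, h3⟩
        · exact Or.inl ⟨rfl, by omega⟩
        · exact Or.inr ⟨rfl, by omega, by omega⟩
      · intro h4
        obtain rfl := key (X + 1) h4 (by omega)
        rw [Q_right hl] at h4 ⊢
        rcases h3 with ⟨rfl, h3⟩ | ⟨rfl, h3⟩
        · left; exact Or.inl ⟨rfl, by omega⟩
        · by_cases q : P.B + 1 ≤ X
          · left; exact Or.inr ⟨rfl, q, by omega⟩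
          · right
            have e : X = P.B := by omega
            refine ⟨by rw [I_right hl, e], by omega, ?_⟩
            have := O.ne k
            have := O.aB (P.N k)
            have := O.aB (P.N k - 1)
            omega
  stV := fun k X Y h => by
    obtain ⟨l, h1, h2⟩ := iv_Q O h
    constructor
    · intro h3
      have : k = l := uniq (Y := Y) O (same_rt O h3 h1) (Q_height k h3) (Q_height l h1)
      rw [this]; exact Or.inl h2
    · intro h3
      have : k = l := uniq (Y := Y + 1) O (same_rt O h3 h2) (Q_height k h3) (Q_height l h2)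
      rw [this]; exact Or.inl h1
  del := fun x y hz hI hD => by
    obtain ⟨rfl, h0⟩ : y = P.r ∧ P.x0 ≤ x := hD
    have h1 := O.r0
    have h2 := O.r1
    have h3 := O.bx P.r (by omega)
    have hB : P.B ≤ x := by
      by_contra h; exact hI ⟨by omega, by omega⟩
    have hX : x < P.XR := hz.2.1
    have f1 : P.W.Fl x (P.r - 1) := fl_r O hB hX (by omega) (by omega) (by omega)
    have f2 : P.W.Fl x (P.r + 1) := fl_r O hB hX (by omega) (by omega) (by omega)
    refine ⟨f1, f2, ?_, fun X hX => ?_⟩
    · by_cases q : x < P.B + P.δ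
      · rw [col_r O hB q, col_r O hB q]; exact O.rn
      · rw [col_rf O (by omega), col_rf O (by omega)]; exact O.rf
    · constructor
      · rw [te_iff, te_iff, add_sub_cancel_right]
        constructor
        · rintro ⟨h4, -⟩; exact ⟨h4, Or.inl ⟨by omega, by omega⟩⟩
        · rintro ⟨h4, -⟩; exact ⟨h4, Or.inr ⟨by omega, by omega⟩⟩
      · intro k
        have key : ∀ Y, (Y = P.r ∨ Y = P.r + 1) → ¬ P.Q k (X, Y) := by
          intro Y hY h4
          cases hk : P.rt k
          · have := (Q_side O h4).1 hk; omega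
          · obtain ⟨e1, e2⟩ := O.R.e k hk
            rcases Q_height k h4 with h5 | h5
            · rw [← h5] at e1; exact e1 hY
            · rw [← h5] at e2; exact e2 hY
        exact ⟨key _ (Or.inl rfl), key _ (Or.inr rfl)⟩
  kc := fun k => by
    obtain ⟨x, y, h1, h2, h3, -⟩ := K_tile O k
    exact ⟨x, y, h1, h2, h3⟩
  ku := fun k x y hz hs => by
    obtain ⟨x', y', h1, h2, h3, h4, h5⟩ := K_tile O k
    obtain ⟨rfl, rfl⟩ := h4 x y hz hs
    refine ⟨h1.2.1, Q_far (X := _) (Y := _) O h3, fun m hm => ?_⟩
    refine uniq (Y := (pt (P.W.col x y) (P.K k)).2) O (same_rt O (X := (pt (P.W.col x y) (P.K k)).1)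
      (Y := (pt (P.W.col x y) (P.K k)).2) (Y' := (pt (P.W.col x y) (P.K k)).2) hm h3) (Q_height m hm) (Or.inl h5)
  path := fun w hw k => by
    cases hk : P.rt k
    · exact (path_l O hw hk).symm
    · exact (path_r O hw hk).symm

end JD

end Pool.Agent.H33.W
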