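import Mathlib
import Pool.Agent.H33.W.ProfR
import Pool.Agent.Q1.ExC

set_option autoImplicit false
open Finset

/-! # Equal means

`JD.EF` : labels of the region, `JD.WF` : open labels outside, `JD.ends` : the interior end `z` and the sides of
the frame, `JD.Ph V w` : an arbitrary function `V` of the links of the ends, `JD.Ev V` : its mean.
`Near P P' tx ty fl` : the data near the regions agree up to the translation `(tx, ty)` (odd with flipped states
if `fl`). `ev_eq` : equal means. -/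

namespace Pool.Agent.H33.W

open Pool.Agent.H75.Perc Pool.Agent.H75.TwoArm Pool.Agent.H13.W
open Pool.Agent.H33.Q1 (lt tt tv tf lt_inj tt_lt lt_odd lt_tt)
open Pool.Agent.Q1 (Ec Ec_congr Ec_insert Ec_empty)
open Pool.Agent.H45.W (tr)

section fair

variable {α β : Type*} [DecidableEq α] [DecidableEq β]

lemma ec_image {σ : α → β} (hσ : Function.Injective σ) (c : ℂ) (E : Finset α) (F : Finset β → ℂ) :
    Ec (fun _ => c) (E.image σ) F = Ec (fun _ => c) E (fun ω => F (ω.image σ)) := by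
  induction E using Finset.induction_on generalizing F with
  | empty => simp
  | insert e E he ih =>
    have he' : σ e ∉ E.image σ := by
      rw [mem_image]; rintro ⟨a, h1, h2⟩; exact he (hσ h2 ▸ h1)
    rw [image_insert, Ec_insert _ he', Ec_insert _ he, ih, ih]
    simp only [image_insert]

/-- complement under the fair weights -/
lemma ec_compl (E : Finset α) (F : Finset α → ℂ) :
    Ec (fun _ => (1 / 2 : ℂ)) E (fun ω => F (E \ ω)) = Ec (fun _ => (1 / 2 : ℂ)) E F := by
  induction E using Finset.induction_on generalizing F with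
  | empty => simp
  | insert e E he ih =>
    rw [Ec_insert _ he, Ec_insert _ he]
    have h1 : Ec (fun _ => (1 / 2 : ℂ)) E (fun ω => F (insert e E \ ω)) =
        Ec (fun _ => (1 / 2 : ℂ)) E (fun ω => F (insert e ω)) := by
      rw [← ih (fun ω => F (insert e ω))]
      refine Ec_congr fun ω hω => ?_
      rw [insert_sdiff_of_notMem _ (fun h => he (hω h))]
    have h2 : Ec (fun _ => (1 / 2 : ℂ)) E (fun ω => F (insert e E \ insert e ω)) =
        Ec (fun _ => (1 / 2 : ℂ)) E F := by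
      rw [← ih F]
      refine Ec_congr fun ω hω => ?_
      congr 1
      ext x
      simp only [mem_sdiff, mem_insert]
      constructor
      · rintro ⟨h1 | h1, h2⟩
        · exact absurd (Or.inl h1) h2
        · exact ⟨h1, fun h => h2 (Or.inr h)⟩
      · rintro ⟨h1, h2⟩
        refine ⟨Or.inr h1, ?_⟩
        rintro (h | h)
        · exact he (h ▸ h1)
        · exact h2 h
    rw [h1, h2]
    ring

end fair

namespace JD

variable {κ : Type} (P : JD κ)

/-- the interior end and the sides of the frame -/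
noncomputable def ends : Option κ → ℤ × ℤ
  | none => vs P.x0 P.r
  | some k => P.K k

/-- a function of the links -/
noncomputable def Ph (V : (Option κ → Option κ → Prop) → ℂ) (w : Finset (ℤ × ℤ)) : ℂ :=
  V fun i j => (P.W.G w).Reachable (P.ends i) (P.ends j)

/-- the tiles of the box -/
noncomputable def bx0 : Finset (ℤ × ℤ) := Icc P.XL (P.XR - 1) ×ˢ Icc P.YB (P.YT - 1)

/-- labels of the region -/
noncomputable def EF : Finset (ℤ × ℤ) :=
  (P.bx0.filter fun t => P.a t.2 ≤ t.1 ∧ t.1 < P.B).image lt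

/-- open labels outside of the region -/
noncomputable def WF : Finset (ℤ × ℤ) :=
  (P.bx0.filter fun t => ¬ (P.a t.2 ≤ t.1 ∧ t.1 < P.B) ∧ P.col t.1 t.2 = true).image lt

variable {P} {x y : ℤ}

lemma mem_bx0 {t : ℤ × ℤ} : t ∈ P.bx0 ↔ P.XL ≤ t.1 ∧ t.1 < P.XR ∧ P.YB ≤ t.2 ∧ t.2 < P.YT := by
  unfold bx0
  rw [mem_product, mem_Icc, mem_Icc]
  omega

lemma mem_EF (O : P.Ok) : lt (x, y) ∈ P.EF ↔ P.a y ≤ x ∧ x < P.B := by
  unfold EF
  simp only [mem_image, mem_filter, Prod.exists]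
  constructor
  · rintro ⟨x', y', ⟨-, h2⟩, h3⟩
    have := lt_inj h3
    simp only [Prod.mk.injEq] at this
    obtain ⟨rfl, rfl⟩ := this
    exact h2
  · intro h
    have h1 := O.bx y (by omega)
    have h2 := O.bR
    have h3 := O.d1
    exact ⟨x, y, ⟨mem_bx0.2 (by simp only; omega), h⟩, rfl⟩

lemma mem_WF : lt (x, y) ∈ P.WF ↔ (P.XL ≤ x ∧ x < P.XR ∧ P.YB ≤ y ∧ y < P.YT) ∧
    ¬ (P.a y ≤ x ∧ x < P.B) ∧ P.col x y = true := by
  unfold WF
  simp only [mem_image, mem_filter, Prod.exists]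
  constructor
  · rintro ⟨x', y', ⟨h1, h2⟩, h3⟩
    have := lt_inj h3
    simp only [Prod.mk.injEq] at this
    obtain ⟨rfl, rfl⟩ := this
    exact ⟨mem_bx0.1 h1, h2⟩
  · rintro ⟨h1, h2⟩
    exact ⟨x, y, ⟨mem_bx0.2 h1, h2⟩, rfl⟩

lemma con_WF (O : P.Ok) {w : Finset (ℤ × ℤ)} (hw : w ⊆ P.EF) : P.W.Con (w ∪ P.WF) := by
  rintro x y ⟨h1, h2, h3⟩
  rw [mem_union]
  constructor
  · rintro (h | h)
    · exact absurd ((mem_EF O).1 (hw h)) h2
    · exact (mem_WF.1 h).2.2
  · exact fun h => Or.inr (mem_WF.2 ⟨h1, h2, h⟩)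

variable (P)

/-- the mean of a function of the links -/
noncomputable def Ev (V : (Option κ → Option κ → Prop) → ℂ) : ℂ :=
  Ec (fun _ => (1 / 2 : ℂ)) P.EF fun w => P.Ph V (w ∪ P.WF)

variable {P}

/-- a tile outside of the region which touches it -/
lemma touch (O : P.Ok) (hI : ¬ (P.a y ≤ x ∧ x < P.B)) (h : ∃ A, Tp x y A ∧ P.W.TE A) :
    (P.XL ≤ x ∧ x < P.XR ∧ P.YB ≤ y ∧ y < P.YT) ∧
      P.col x y = if x < P.a y then P.cn y else P.dn y := by
  obtain ⟨A, ⟨a1, a2, a3, a4⟩, x', y', ⟨h1, h2⟩, b1, b2, b3, b4⟩ := h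
  have d1 := O.d1
  have bx := O.bx y' (by omega)
  have bR := O.bR
  have aB := O.aB y
  refine ⟨⟨by omega, by omega, by omega, by omega⟩, ?_⟩
  unfold col
  by_cases q : x < P.a y
  · rw [if_pos q, if_pos q]
    by_cases q' : P.a y - P.δ ≤ x
    · rw [if_pos q']
    · rw [if_neg q']
      by_contra hne
      obtain ⟨k, hk, e1, e2⟩ := (O.L.j y).1 (Ne.symm hne)
      have e3 := O.lj k hk e1
      rw [← e2] at e3
      obtain ⟨l1, l2, l3⟩ := O.la k hk
      obtain ⟨m1, m2⟩ := mu_le (P := P) k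
      have fn : P.F k - 1 ≤ P.N k ∧ P.N k ≤ P.F k + 1 := O.L.fn k
      have hy : y' = P.F k - 1 ∨ y' = P.F k ∨ y' = P.N k - 1 ∨ y' = P.N k := by omega
      rcases hy with rfl | rfl | rfl | rfl <;> omega
  · rw [if_neg q, if_neg q, if_pos (by omega)]

/-- **The data near the regions agree.** -/
structure Near (P P' : JD κ) (tx ty : ℤ) (fl : Bool) : Prop where
  par : (tx + ty) % 2 = if fl then 1 else 0
  a : ∀ y, P'.a (y + ty) = P.a y + tx
  B : P'.B = P.B + tx
  r : P'.r = P.r + ty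
  x0 : P'.x0 = P.x0 + tx
  rt : ∀ k, P'.rt k = P.rt k
  N : ∀ k, P'.N k = P.N k + ty
  cn : ∀ y, P'.cn (y + ty) = xor fl (P.cn y)
  dn : ∀ y, y ≠ P.r → P'.dn (y + ty) = xor fl (P.dn y)

variable {P' : JD κ} {tx ty : ℤ} {fl : Bool}

lemma Near.tr (H : Near P P' tx ty fl) (O : P.Ok) (O' : P'.Ok) : Tr P.W P'.W tx ty fl := by
  have hI : ∀ x y, (P.a y ≤ x ∧ x < P.B) ↔ (P'.a (y + ty) ≤ x + tx ∧ x + tx < P'.B) := by
    intro x y
    rw [H.a, H.B]
    omega
  have hD : ∀ x y, (y = P.r ∧ P.x0 ≤ x) ↔ (y + ty = P'.r ∧ P'.x0 ≤ x + tx) := by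
    intro x y
    rw [H.r, H.x0]
    omega
  refine ⟨H.par, hI, fun x y h => ?_, fun x y _ => hD x y, fun x y h hT => ?_⟩
  · have h1 := (hI x y).1 h
    exact (M O').inz _ _ h1
  · have hT' : ∃ A, Tp (x + tx) (y + ty) A ∧ P'.W.TE A := by
      obtain ⟨A, ⟨a1, a2, a3, a4⟩, x', y', h1, b1, b2, b3, b4⟩ := hT
      exact ⟨(A.1 + tx, A.2 + ty), by unfold Tp; simp only; omega, x' + tx, y' + ty, (hI x' y').1 h1, by
        unfold Tp; simp only; omega⟩
    have h0 : ¬ (P.a y ≤ x ∧ x < P.B) := h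
    obtain ⟨k1, k2⟩ := touch O h hT
    obtain ⟨k1', k2'⟩ := touch O' (fun h' => h ((hI x y).2 h')) hT'
    refine ⟨⟨k1, k1'⟩, hD x y, fun hd => ?_⟩
    change P'.col (x + tx) (y + ty) = xor fl (P.col x y)
    rw [k2, k2', H.a, H.cn]
    by_cases q : x < P.a y
    · rw [if_pos q, if_pos (by omega)]
    · rw [if_neg q, if_neg (by omega), H.dn]
      rintro rfl
      have h1 := O.r0
      have h2 := O.r1
      exact hd ⟨rfl, by omega⟩

lemma Near.mu (H : Near P P' tx ty fl) (k : κ) : P'.mu k = P.mu k + tx := by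
  have e1 : P'.a (P'.N k - 1) = P.a (P.N k - 1) + tx := by
    rw [H.N, ← H.a]; congr 1; ring
  unfold JD.mu
  rw [e1, H.N, H.a, min_add_add_right]

lemma Near.I (H : Near P P' tx ty fl) (k : κ) : P'.I k = Ts tx ty (P.I k) := by
  unfold JD.I
  rw [H.rt, H.B, H.N, H.mu]
  split_ifs
  · rw [Ts_hs]
  · rw [Ts_hs]; congr 1; ring

lemma in_z (O : P.Ok) : InS P.W (vs P.x0 P.r) :=
  ⟨P.x0, P.r, ⟨O.r0, O.r1⟩, sd_vs.2 ⟨rfl, Or.inl rfl⟩⟩

/-- **The same links for every configuration.** -/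
theorem ph_eq (H : Near P P' tx ty fl) (O : P.Ok) (O' : P'.Ok) {w w' : Finset (ℤ × ℤ)} (hw : P.W.Con w)
    (hw' : P'.W.Con w') (hin : Hin P.W tx ty fl w w') (V : (Option κ → Option κ → Prop) → ℂ) :
    P.Ph V w = P'.Ph V w' := by
  unfold Ph
  congr 1
  funext i j
  have h := link_iff (H.tr O O') (M O) (M O') H.I hw hw' hin (in_z O) i j
  have e1 : ∀ i, en (M O) (vs P.x0 P.r) i = P.ends i := by rintro (_ | k) <;> rfl
  have e2 : ∀ i, en (M O') (Ts tx ty (vs P.x0 P.r)) i = P'.ends i := by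
    rintro (_ | k)
    · change Ts tx ty (vs P.x0 P.r) = vs P'.x0 P'.r
      rw [Ts_vs, H.x0, H.r]
    · rfl
  rw [e1, e1, e2, e2] at h
  exact propext h

/-- **Equal means.** -/
theorem ev_eq (H : Near P P' tx ty fl) (O : P.Ok) (O' : P'.Ok) (V : (Option κ → Option κ → Prop) → ℂ) :
    P.Ev V = P'.Ev V := by
  have hE : P'.EF = P.EF.image (Ts tx ty) := by
    ext e
    constructor
    · intro h
      have h0 := h
      unfold EF at h
      simp only [mem_image, mem_filter, Prod.exists] at h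
      obtain ⟨x, y, -, rfl⟩ := h
      rw [mem_EF O'] at h0
      rw [mem_image]
      refine ⟨lt (x - tx, y - ty), (mem_EF O).2 ?_, by rw [Ts_lt, sub_add_cancel, sub_add_cancel]⟩
      have h1 := H.a (y - ty)
      rw [sub_add_cancel] at h1
      have h2 := H.B
      omega
    · intro h
      rw [mem_image] at h
      obtain ⟨e', h1, rfl⟩ := h
      have h0 := h1
      unfold EF at h1
      simp only [mem_image, mem_filter, Prod.exists] at h1
      obtain ⟨x, y, -, rfl⟩ := h1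
      rw [mem_EF O] at h0
      rw [Ts_lt, mem_EF O', H.a, H.B]
      omega
  have inj : Function.Injective (Ts tx ty) := fun u v h => Ts_inj h
  unfold Ev
  rw [hE, ec_image inj]
  cases fl
  · refine Ec_congr fun ω hω => ph_eq H O O' (con_WF O hω) (con_WF O' ?_) ?_ V
    · rw [hE]; exact image_subset_image hω
    · intro x y h1 h2
      have h3 : lt (x + tx, y + ty) ∉ P'.WF := fun h => (mem_WF.1 h).2.1 (by
        have h4 : P.a y ≤ x ∧ x < P.B := h1
        rw [H.a, H.B]; omega)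
      have h5 : lt (x, y) ∉ P.WF := fun h => (mem_WF.1 h).2.1 h1
      rw [mem_union, mem_union, or_iff_left h3, or_iff_left h5, ← Ts_lt, inj.mem_finset_image]
      simp
  · rw [← ec_compl P.EF (fun ω => P'.Ph V (ω.image (Ts tx ty) ∪ P'.WF))]
    refine Ec_congr fun ω hω => ph_eq H O O' (con_WF O hω) (con_WF O' ?_) ?_ V
    · rw [hE]; exact image_subset_image sdiff_subset
    · intro x y h1 h2
      have h3 : lt (x + tx, y + ty) ∉ P'.WF := fun h => (mem_WF.1 h).2.1 (by
        have h4 : P.a y ≤ x ∧ x < P.B := h1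
        rw [H.a, H.B]; omega)
      have h5 : lt (x, y) ∉ P.WF := fun h => (mem_WF.1 h).2.1 h1
      rw [mem_union, mem_union, or_iff_left h3, or_iff_left h5, ← Ts_lt, inj.mem_finset_image, mem_sdiff]
      have h6 : lt (x, y) ∈ P.EF := (mem_EF O).2 h1
      simp [h6]

end JD

end Pool.Agent.H33.W
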