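import Mathlib
import Pool.Agent.H33.W.Exact

set_option autoImplicit false
open Finset

/-! # Shapes and pushed walls

`Shp` : rows `a y ≤ x < B`, colours `l` to the left, `rc` to the right. `mv d` : moved; `fo` : left walls pushed
out, `ce` : right wall, `le` : ceilings, `ri` : floors (colour of a new row = colour of the row which gives the
minimum). `Reg` : regular shape with marks `F`. `ok_st`, `ok_le`, `ok_ri` : conditions of `JD` for the pushed
shape with the colours of the shape far away. -/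

namespace Pool.Agent.H33.W

open Pool.Agent.H75.Perc Pool.Agent.H75.TwoArm Pool.Agent.H13.W
open Pool.Agent.H33.Q1 (lt tt tv tf lt_inj tt_lt lt_odd lt_tt)

namespace SC

variable {κ : Type} {c cn cf : ℤ → Bool} {p : κ → Prop} {F N : κ → ℤ} {E U : ℤ → Prop}

/-- one colour per row -/
lemma straight (f : ∀ y, ¬ E y → (c (y - 1) ≠ c y ↔ ∃ k, p k ∧ F k = y)) (e : ∀ k, p k → ¬ E (F k))
    (inj : ∀ k l, p k → p l → F k = F l → k = l) : SC c c p F F E where
  f := f
  n := f
  j y := ⟨fun h => absurd rfl h, fun ⟨k, _, h, _⟩ => absurd rfl h⟩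
  e k hk := ⟨e k hk, e k hk⟩
  sep k l hk hl h := inj k l hk hl (by tauto)
  fn k := ⟨by omega, by omega⟩

open Classical in
/-- rows with the property `U` take the colour of the row below -/
lemma up_ (f : ∀ y, ¬ E y → (c (y - 1) ≠ c y ↔ ∃ k, p k ∧ F k = y))
    (e : ∀ k, p k → ¬ E (F k) ∧ ¬ E (F k + 1))
    (sep : ∀ k l, p k → p l → F k - 2 ≤ F l → F l ≤ F k + 2 → k = l)
    (u1 : ∀ k, p k → ¬ U (F k - 1) ∧ ¬ U (F k + 1)) (uE : ∀ y, E y → ¬ U y)
    (fn : ∀ k, F k - 1 ≤ N k ∧ N k ≤ F k + 1)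
    (hN : ∀ k, p k → N k = if U (F k) then F k + 1 else F k)
    (hcn : ∀ y, cn y = if U y then c (y - 1) else c y) : SC cn c p F N E := by
  have N1 : ∀ k, p k → U (F k) → N k = F k + 1 := fun k hk h => by rw [hN k hk, if_pos h]
  have N2 : ∀ k, p k → ¬ U (F k) → N k = F k := fun k hk h => by rw [hN k hk, if_neg h]
  refine ⟨f, fun y hE => ?_, fun y => ?_, fun k hk => ?_, fun k l hk hl h => ?_, fn⟩
  · rw [hcn, hcn]
    by_cases h0 : U y
    · rw [if_pos h0]
      constructor
      · intro h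
        exfalso
        by_cases h1 : U (y - 1)
        · rw [if_pos h1] at h
          obtain ⟨k, hk, h2⟩ := (f (y - 1) (fun h => uE _ h h1)).1 h
          have := (u1 k hk).2
          rw [h2, sub_add_cancel] at this
          exact this h0
        · rw [if_neg h1] at h; exact h rfl
      · rintro ⟨k, hk, h2⟩
        exfalso
        by_cases h3 : U (F k)
        · rw [N1 k hk h3] at h2
          have := (u1 k hk).2
          rw [h2] at this
          exact this h0
        · rw [N2 k hk h3] at h2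
          rw [h2] at h3; exact h3 h0
    · rw [if_neg h0]
      by_cases h1 : U (y - 1)
      · rw [if_pos h1]
        have h2 : c (y - 1) = c y := by
          by_contra h
          obtain ⟨k, hk, h2⟩ := (f y hE).1 h
          have := (u1 k hk).1
          rw [h2] at this
          exact this h1
        rw [← h2, f (y - 1) (fun h => uE _ h h1)]
        constructor
        · rintro ⟨k, hk, h3⟩
          exact ⟨k, hk, by rw [N1 k hk (by rw [h3]; exact h1), h3, sub_add_cancel]⟩
        · rintro ⟨k, hk, h3⟩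
          refine ⟨k, hk, ?_⟩
          by_cases h4 : U (F k)
          · rw [N1 k hk h4] at h3; omega
          · rw [N2 k hk h4] at h3
            have := (u1 k hk).1
            rw [h3] at this
            exact absurd h1 this
      · rw [if_neg h1, f y hE]
        constructor
        · rintro ⟨k, hk, h3⟩
          exact ⟨k, hk, by rw [N2 k hk (by rw [h3]; exact h0), h3]⟩
        · rintro ⟨k, hk, h3⟩
          refine ⟨k, hk, ?_⟩
          by_cases h4 : U (F k)
          · exfalso
            rw [N1 k hk h4] at h3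
            have : F k = y - 1 := by omega
            rw [this] at h4
            exact h1 h4
          · rw [N2 k hk h4] at h3; exact h3
  · rw [hcn]
    by_cases h0 : U y
    · rw [if_pos h0, f y (fun h => uE _ h h0)]
      constructor
      · rintro ⟨k, hk, h3⟩
        have := N1 k hk (by rw [h3]; exact h0)
        exact ⟨k, hk, by omega, by omega⟩
      · rintro ⟨k, hk, h3, h4⟩
        refine ⟨k, hk, ?_⟩
        by_cases h5 : U (F k)
        · have := N1 k hk h5; omega
        · exact absurd (N2 k hk h5).symm h3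
    · rw [if_neg h0]
      constructor
      · exact fun h => absurd rfl h
      · rintro ⟨k, hk, h3, h4⟩
        exfalso
        by_cases h5 : U (F k)
        · have := N1 k hk h5
          have h6 : F k = y := by omega
          rw [h6] at h5; exact h0 h5
        · exact h3 (N2 k hk h5).symm
  · refine ⟨(e k hk).1, ?_⟩
    by_cases h5 : U (F k)
    · rw [N1 k hk h5]; exact (e k hk).2
    · rw [N2 k hk h5]; exact (e k hk).1
  · have h1 : N k = F k + 1 ∨ N k = F k := by
      by_cases h5 : U (F k)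
      · exact Or.inl (N1 k hk h5)
      · exact Or.inr (N2 k hk h5)
    have h2 : N l = F l + 1 ∨ N l = F l := by
      by_cases h5 : U (F l)
      · exact Or.inl (N1 l hl h5)
      · exact Or.inr (N2 l hl h5)
    exact sep k l hk hl (by omega) (by omega)

/-- reflection of the heights -/
lemma refl_ (H : SC cn cf p F N E) :
    SC (fun y => cn (-1 - y)) (fun y => cf (-1 - y)) p (fun k => - F k) (fun k => - N k)
      (fun y => E (-y)) where
  f y hE := by
    have e : (-1 - (y - 1) : ℤ) = -y := by ring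
    have e' : (-1 - y : ℤ) = -y - 1 := by ring
    rw [e, e', ne_comm, H.f (-y) hE]
    constructor
    · rintro ⟨k, hk, h⟩; exact ⟨k, hk, by omega⟩
    · rintro ⟨k, hk, h⟩; exact ⟨k, hk, by omega⟩
  n y hE := by
    have e : (-1 - (y - 1) : ℤ) = -y := by ring
    have e' : (-1 - y : ℤ) = -y - 1 := by ring
    rw [e, e', ne_comm, H.n (-y) hE]
    constructor
    · rintro ⟨k, hk, h⟩; exact ⟨k, hk, by omega⟩
    · rintro ⟨k, hk, h⟩; exact ⟨k, hk, by omega⟩
  j y := by
    rw [H.j]
    constructor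
    · rintro ⟨k, hk, h1, h2⟩
      have := H.fn k
      exact ⟨k, hk, by omega, by omega⟩
    · rintro ⟨k, hk, h1, h2⟩
      have := H.fn k
      exact ⟨k, hk, by omega, by omega⟩
  e k hk := by
    rw [neg_neg, neg_neg]; exact H.e k hk
  sep k l hk hl h := H.sep k l hk hl (by omega)
  fn k := by have := H.fn k; omega

open Classical in
/-- rows with the property `U` take the colour of the row above -/
lemma dn_ (f : ∀ y, ¬ E y → (c (y - 1) ≠ c y ↔ ∃ k, p k ∧ F k = y))
    (e : ∀ k, p k → ¬ E (F k) ∧ ¬ E (F k - 1))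
    (sep : ∀ k l, p k → p l → F k - 2 ≤ F l → F l ≤ F k + 2 → k = l)
    (u1 : ∀ k, p k → ¬ U (F k) ∧ ¬ U (F k - 2)) (uE : ∀ y, E y → ¬ U (y - 1))
    (fn : ∀ k, F k - 1 ≤ N k ∧ N k ≤ F k + 1)
    (hN : ∀ k, p k → N k = if U (F k - 1) then F k - 1 else F k)
    (hcn : ∀ y, cn y = if U y then c (y + 1) else c y) : SC cn c p F N E := by
  have key : SC (fun y => cn (-1 - y)) (fun y => c (-1 - y)) p (fun k => - F k) (fun k => - N k)
      (fun y => E (-y)) := by
    refine up_ (U := fun y => U (-1 - y)) (fun y hE => ?_) (fun k hk => ?_) (fun k l hk hl h1 h2 => ?_)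
      (fun k hk => ?_) (fun y hE => ?_) (fun k => ?_) (fun k hk => ?_) (fun y => ?_)
    · have e : (-1 - (y - 1) : ℤ) = -y := by ring
      have e' : (-1 - y : ℤ) = -y - 1 := by ring
      rw [e, e', ne_comm, f (-y) hE]
      constructor
      · rintro ⟨k, hk, h⟩; exact ⟨k, hk, by omega⟩
      · rintro ⟨k, hk, h⟩; exact ⟨k, hk, by omega⟩
    · have e1 : -(-F k) = F k := by ring
      have e2 : -(-F k + 1) = F k - 1 := by ring
      rw [e1, e2]; exact e k hk
    · exact sep k l hk hl (by omega) (by omega)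
    · have e1 : -1 - (-F k - 1) = F k := by ring
      have e2 : -1 - (-F k + 1) = F k - 2 := by ring
      rw [e1, e2]; exact u1 k hk
    · have e1 : (-1 - y : ℤ) = -y - 1 := by ring
      rw [e1]; exact uE _ hE
    · have := fn k; omega
    · have e1 : -1 - -F k = F k - 1 := by ring
      rw [hN k hk, e1]
      split_ifs <;> ring
    · have e1 : (-1 - (y - 1) : ℤ) = -1 - y + 1 := by ring
      rw [hcn, e1]
  have := refl_ key
  simpa using this

end SC

/-- **Shapes.** -/
structure Shp where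
  a : ℤ → ℤ
  B : ℤ
  l : ℤ → Bool
  rc : ℤ → Bool

namespace Shp

variable (S : Shp)

/-- moved to the right -/
def mv (d : ℤ) : Shp := ⟨fun y => S.a y + d, S.B + d, S.l, S.rc⟩

/-- left walls pushed out -/
def fo : Shp := ⟨fun y => if S.a y < S.B then S.a y - 1 else S.a y, S.B, S.l, S.rc⟩

/-- right wall pushed out -/
def ce : Shp := ⟨fun y => if S.a y < S.B then S.a y else S.a y + 1, S.B + 1, S.l, S.rc⟩

/-- ceilings pushed out -/
def le : Shp := ⟨fun y => min (S.a y) (S.a (y - 1)), S.B,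
  fun y => if S.a (y - 1) < S.a y then S.l (y - 1) else S.l y,
  fun y => if S.a y = S.B ∧ S.a (y - 1) < S.B then S.rc (y - 1) else S.rc y⟩

/-- floors pushed out -/
def ri : Shp := ⟨fun y => min (S.a y) (S.a (y + 1)), S.B,
  fun y => if S.a (y + 1) < S.a y then S.l (y + 1) else S.l y,
  fun y => if S.a y = S.B ∧ S.a (y + 1) < S.B then S.rc (y + 1) else S.rc y⟩

variable {κ : Type}

/-- the pushed shape `T` with the colours of `S` far away -/
def jd (T : Shp) (r x0 XL XR YB YT δ : ℤ) (rt : κ → Bool) (F N : κ → ℤ) : JD κ where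
  a := T.a
  B := T.B
  r := r
  x0 := x0
  XL := XL
  XR := XR
  YB := YB
  YT := YT
  δ := δ
  cn := T.l
  cf := S.l
  dn := T.rc
  df := S.rc
  rt := rt
  F := F
  N := N

/-- heights of the marks, ceilings pushed -/
def Nle (rt : κ → Bool) (F : κ → ℤ) (k : κ) : ℤ :=
  if rt k then (if S.a (F k) = S.B ∧ S.a (F k - 1) < S.B then F k + 1 else F k)
  else (if S.a (F k - 1) < S.a (F k) then F k + 1 else F k)

/-- heights of the marks, floors pushed -/
def Nri (rt : κ → Bool) (F : κ → ℤ) (k : κ) : ℤ :=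
  if rt k then (if S.a (F k - 1) = S.B ∧ S.a (F k) < S.B then F k - 1 else F k)
  else (if S.a (F k) < S.a (F k - 1) then F k - 1 else F k)

/-- **Regular shapes.** -/
structure Reg (r : ℤ) (rt : κ → Bool) (F : κ → ℤ) : Prop where
  aB : ∀ y, S.a y ≤ S.B
  em : ∀ y, S.a y = S.B → S.l y = S.rc y
  sl : ∀ y, S.a y = S.a (y + 1) → S.l y = S.l (y + 1)
  lf : ∀ y, S.l (y - 1) ≠ S.l y ↔ ∃ k, rt k = false ∧ F k = y
  rf : ∀ y, ¬ (y = r ∨ y = r + 1) → (S.rc (y - 1) ≠ S.rc y ↔ ∃ k, rt k = true ∧ F k = y)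
  rr : S.rc (r - 1) ≠ S.rc (r + 1)
  rw : ∀ y, r - 3 ≤ y → y ≤ r + 3 → S.a y < S.B
  la : ∀ k, rt k = false → S.a (F k - 2) = S.a (F k - 1) ∧ S.a (F k + 1) = S.a (F k)
  ra : ∀ k, rt k = true → (S.a (F k - 2) = S.B ↔ S.a (F k - 1) = S.B) ∧
    (S.a (F k + 1) = S.B ↔ S.a (F k) = S.B) ∧ (F k < r - 3 ∨ r + 3 < F k)
  rn : ∀ k, S.a (F k - 1) < S.B ∨ S.a (F k) < S.B
  sep : ∀ k l, rt k = rt l → F k - 2 ≤ F l → F l ≤ F k + 2 → k = l

/-- **Box with a margin.** -/
structure Bx (XL XR YB YT δ : ℤ) : Prop where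
  d1 : 1 ≤ δ
  ro : ∀ y, S.a y < S.B → YB + 3 ≤ y ∧ y + 3 < YT ∧ XL + δ + 2 ≤ S.a y
  ri : S.B + δ + 2 ≤ XR

variable {S} {T : Shp} {r x0 XL XR YB YT δ : ℤ} {rt : κ → Bool} {F : κ → ℤ}

lemma bf (b : Bool) : (b = true) ∨ (b = false) := by cases b <;> simp

/-- **Straight interfaces**: the rows of `T` are those of `S` moved by at most one. -/
theorem ok_st (R : S.Reg r rt F) (X : S.Bx XL XR YB YT δ) (aB : ∀ y, T.a y ≤ T.B)
    (em : ∀ y, T.a y = T.B ↔ S.a y = S.B) (h1 : ∀ y, S.a y < S.B → S.a y - 1 ≤ T.a y)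
    (h2 : T.B ≤ S.B + 1) (hl : T.l = S.l) (hr : T.rc = S.rc) (h3 : T.a r ≤ x0) (h4 : x0 < T.B) :
    (S.jd T r x0 XL XR YB YT δ rt F F).Ok := by
  have lt' : ∀ y, T.a y < T.B → S.a y < S.B := fun y h => by
    have k1 := R.aB y
    have k2 := em y
    by_contra h'
    have : T.a y = T.B := k2.2 (by omega)
    omega
  have lt2 : ∀ y, S.a y < S.B → T.a y < T.B := fun y h => by
    have k1 := aB y
    have k2 := em y
    by_contra h'
    have : S.a y = S.B := k2.1 (by omega)
    omega
  have mb : ∀ k, YB < F k ∧ F k < YT := fun k => by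
    rcases R.rn k with h | h
    · have := X.ro _ h; omega
    · have := X.ro _ h; omega
  have hmu : ∀ k, (S.jd T r x0 XL XR YB YT δ rt F F).mu k = min (T.a (F k - 1)) (T.a (F k)) := fun k => rfl
  refine ⟨X.d1, aB, fun y h => ?_, fun y h => ?_, ?_, h3, h4, fun k => ⟨(mb k).1, (mb k).2, (mb k).1, (mb k).2⟩,
    fun k => ?_, ?_, ?_, ?_, ?_, fun k hk => ⟨?_, ?_, ?_⟩, fun k hk h => absurd rfl h⟩
  · change T.l y = T.rc y
    rw [hl, hr]; exact R.em y ((em y).1 h)
  · have k1 := X.ro y (lt' y h)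
    have k2 := h1 y (lt' y h)
    have k3 := X.d1
    change YB < y ∧ y + 1 < YT ∧ XL + 1 ≤ T.a y
    omega
  · have := X.ri
    change T.B + δ + 1 ≤ XR
    omega
  · rcases R.rn k with h | h
    · exact Or.inl (lt2 _ h)
    · exact Or.inr (lt2 _ h)
  · change SC T.l S.l _ F F _
    rw [hl]
    exact SC.straight (fun y _ => R.lf y) (fun k _ => id) (fun k l hk hl h => R.sep k l (hk.trans hl.symm)
      (by omega) (by omega))
  · change SC T.rc S.rc _ F F _
    rw [hr]
    exact SC.straight (fun y h => R.rf y h) (fun k hk => by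
      have := (R.ra k hk).2.2
      change ¬ (F k = r ∨ F k = r + 1)
      omega) (fun k l hk hl h => R.sep k l (hk.trans hl.symm) (by omega) (by omega))
  · change T.rc (r - 1) ≠ T.rc (r + 1)
    rw [hr]; exact R.rr
  · exact R.rr
  · rw [hmu]; exact min_le_left _ _
  · rw [hmu]; exact min_le_right _ _
  · rw [hmu]
    have key : ∀ y, XL + δ + 1 ≤ T.a y ∨ ¬ T.a y < T.B := fun y => by
      by_cases h : T.a y < T.B
      · left
        have k1 := X.ro y (lt' y h)
        have k2 := h1 y (lt' y h)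
        omega
      · right; exact h
    change XL + δ + 1 ≤ min (T.a (F k - 1)) (T.a (F k))
    rw [le_min_iff]
    have e1 := key (F k - 1)
    have e2 := key (F k)
    have e3 := aB (F k - 1)
    have e4 := aB (F k)
    rcases R.rn k with h | h
    · have := lt2 _ h; omega
    · have := lt2 _ h; omega

/-- facts at a left mark -/
lemma Reg.ne_l (R : S.Reg r rt F) {k : κ} (hk : rt k = false) : S.a (F k - 1) ≠ S.a (F k) := by
  intro h
  have h1 := R.sl (F k - 1) (by rw [sub_add_cancel]; exact h)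
  rw [sub_add_cancel] at h1
  exact ((R.lf (F k)).2 ⟨k, hk, rfl⟩) h1

/-- **Ceilings pushed.** -/
theorem ok_le (R : S.Reg r rt F) (X : S.Bx XL XR YB YT δ) (h3 : S.a r ≤ x0) (h4 : x0 < S.B) :
    (S.jd S.le r x0 XL XR YB YT δ rt F (S.Nle rt F)).Ok := by
  classical
  have d1 := X.d1
  have fn : ∀ k, F k - 1 ≤ S.Nle rt F k ∧ S.Nle rt F k ≤ F k + 1 := fun k => by
    unfold Nle; split_ifs <;> omega
  have mb : ∀ k, YB + 3 ≤ F k ∧ F k + 2 < YT := fun k => by
    rcases R.rn k with h | h
    · have := X.ro _ h; omega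
    · have := X.ro _ h; omega
  have hmu : ∀ k, (S.jd S.le r x0 XL XR YB YT δ rt F (S.Nle rt F)).mu k =
    min (S.le.a (S.Nle rt F k - 1)) (S.le.a (S.Nle rt F k)) := fun k => rfl
  have ha : ∀ y, S.le.a y = min (S.a y) (S.a (y - 1)) := fun y => rfl
  have hlt : ∀ y, S.le.a y < S.B ↔ S.a y < S.B ∨ S.a (y - 1) < S.B := fun y => by
    rw [ha, min_lt_iff]
  have NL : ∀ k, rt k = false → S.Nle rt F k = if S.a (F k - 1) < S.a (F k) then F k + 1 else F k :=
    fun k hk => by unfold Nle; rw [if_neg (by rw [hk]; simp)]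
  have NR : ∀ k, rt k = true → S.Nle rt F k =
      if S.a (F k) = S.B ∧ S.a (F k - 1) < S.B then F k + 1 else F k :=
    fun k hk => by unfold Nle; rw [if_pos hk]
  -- the abscissa of a moved left mark
  have up : ∀ k, rt k = false → S.a (F k - 1) < S.a (F k) → S.Nle rt F k = F k + 1 ∧
      S.le.a (F k) = S.a (F k - 1) ∧ S.le.a (F k + 1) = S.a (F k) ∧ S.le.a (F k - 1) = S.a (F k - 1) := by
    intro k hk h
    obtain ⟨l1, l2⟩ := R.la k hk
    refine ⟨by rw [NL k hk, if_pos h], ?_, ?_, ?_⟩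
    · rw [ha]; exact min_eq_right h.le
    · rw [ha, add_sub_cancel_right, l2, min_self]
    · rw [ha, show F k - 1 - 1 = F k - 2 by ring, l1, min_self]
  have hB : ∀ y, S.le.a y ≤ S.B := fun y => by rw [ha]; exact (min_le_left _ _).trans (R.aB y)
  refine ⟨d1, hB, fun y h => ?_, fun y h => ?_, ?_, ?_, h4, fun k => ?_, fun k => ?_, ?_, ?_, ?_, R.rr,
    fun k hk => ?_, fun k hk h => ?_⟩
  · change S.le.a y = S.B at h
    have k1 := R.aB y
    have k2 := R.aB (y - 1)
    rw [ha] at h
    have k3 : S.a y = S.B := by omega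
    have k4 : S.a (y - 1) = S.B := by omega
    change (if S.a (y - 1) < S.a y then S.l (y - 1) else S.l y) =
      (if S.a y = S.B ∧ S.a (y - 1) < S.B then S.rc (y - 1) else S.rc y)
    rw [if_neg (by omega), if_neg (by omega)]
    exact R.em y k3
  · change S.le.a y < S.B at h
    change YB < y ∧ y + 1 < YT ∧ XL + 1 ≤ S.le.a y
    have k5 := R.aB y
    have k6 := R.aB (y - 1)
    have k7 := X.ro y
    have k8 := X.ro (y - 1)
    rw [ha] at h ⊢
    omega
  · have := X.ri
    change S.B + δ + 1 ≤ XR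
    omega
  · change S.le.a r ≤ x0
    rw [ha]; exact (min_le_left _ _).trans h3
  · have := mb k
    have := fn k
    change YB < F k ∧ F k < YT ∧ YB < S.Nle rt F k ∧ S.Nle rt F k < YT
    omega
  · change S.le.a (S.Nle rt F k - 1) < S.B ∨ S.le.a (S.Nle rt F k) < S.B
    have k1 : S.Nle rt F k = F k + 1 ∨ S.Nle rt F k = F k := by
      unfold Nle; split_ifs <;> simp
    rcases k1 with k1 | k1
    · rw [k1, add_sub_cancel_right]
      exact Or.inl ((hlt _).2 (R.rn k).symm)
    · rw [k1, hlt, hlt]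
      rcases R.rn k with h | h
      · exact Or.inl (Or.inl h)
      · exact Or.inr (Or.inl h)
  · refine SC.up_ (U := fun y => S.a (y - 1) < S.a y) (fun y _ => R.lf y) (fun k _ => ⟨id, id⟩)
      (fun k l hk hl => R.sep k l (hk.trans hl.symm)) (fun k hk => ?_) (fun y h => h.elim) fn
      (fun k hk => ?_) (fun y => ?_)
    · obtain ⟨l1, l2⟩ := R.la k hk
      change ¬ S.a (F k - 1 - 1) < S.a (F k - 1) ∧ ¬ S.a (F k + 1 - 1) < S.a (F k + 1)
      rw [show F k - 1 - 1 = F k - 2 by ring, add_sub_cancel_right]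
      omega
    · rw [show (S.jd S.le r x0 XL XR YB YT δ rt F (S.Nle rt F)).N = S.Nle rt F from rfl, NL k hk]
      congr
    · change (if S.a (y - 1) < S.a y then S.l (y - 1) else S.l y) = _
      congr
  · refine SC.up_ (U := fun y => S.a y = S.B ∧ S.a (y - 1) < S.B) (fun y h => R.rf y h) (fun k hk => ?_)
      (fun k l hk hl => R.sep k l (hk.trans hl.symm)) (fun k hk => ?_) (fun y h h' => ?_) fn
      (fun k hk => ?_) (fun y => ?_)
    · have := (R.ra k hk).2.2
      change ¬ (F k = r ∨ F k = r + 1) ∧ ¬ (F k + 1 = r ∨ F k + 1 = r + 1)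
      omega
    · obtain ⟨l1, l2, -⟩ := R.ra k hk
      have k1 := R.aB (F k - 1)
      change ¬ (S.a (F k - 1) = S.B ∧ S.a (F k - 1 - 1) < S.B) ∧
        ¬ (S.a (F k + 1) = S.B ∧ S.a (F k + 1 - 1) < S.B)
      rw [show F k - 1 - 1 = F k - 2 by ring, add_sub_cancel_right]
      constructor
      · rintro ⟨h1, h2⟩
        have := l1.2 h1; omega
      · rintro ⟨h1, h2⟩
        have := l2.1 h1; omega
    · have k1 := R.rw y (by change y = r ∨ y = r + 1 at h; omega) (by change y = r ∨ y = r + 1 at h; omega)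
      omega
    · rw [show (S.jd S.le r x0 XL XR YB YT δ rt F (S.Nle rt F)).N = S.Nle rt F from rfl, NR k hk]
      congr
    · change (if S.a y = S.B ∧ S.a (y - 1) < S.B then S.rc (y - 1) else S.rc y) = _
      congr
  · change (if S.a (r - 1) = S.B ∧ S.a (r - 1 - 1) < S.B then S.rc (r - 1 - 1) else S.rc (r - 1)) ≠
      (if S.a (r + 1) = S.B ∧ S.a (r + 1 - 1) < S.B then S.rc (r + 1 - 1) else S.rc (r + 1))
    have k1 := R.rw (r - 1) (by omega) (by omega)
    have k2 := R.rw (r + 1) (by omega) (by omega)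
    rw [if_neg (by omega), if_neg (by omega)]
    exact R.rr
  · rw [hmu]
    change min (S.le.a (S.Nle rt F k - 1)) (S.le.a (S.Nle rt F k)) ≤ S.le.a (F k - 1) ∧
      min (S.le.a (S.Nle rt F k - 1)) (S.le.a (S.Nle rt F k)) ≤ S.le.a (F k) ∧
      XL + δ + 1 ≤ min (S.le.a (S.Nle rt F k - 1)) (S.le.a (S.Nle rt F k))
    rcases lt_or_gt_of_ne (R.ne_l hk) with q | q
    · obtain ⟨e1, e2, e3, e4⟩ := up k hk q
      rw [e1, add_sub_cancel_right, e2, e3, e4]
      have k1 := R.aB (F k)
      have k2 := X.ro (F k - 1) (by omega)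
      omega
    · have e1 : S.Nle rt F k = F k := by rw [NL k hk, if_neg (by omega)]
      rw [e1, ha, ha]
      obtain ⟨l1, l2⟩ := R.la k hk
      rw [show F k - 1 - 1 = F k - 2 by ring, l1]
      have k1 := R.aB (F k - 1)
      have k2 := X.ro (F k) (by omega)
      omega
  · change F k ≠ S.Nle rt F k at h
    rw [hmu]
    change S.le.a (min (F k) (S.Nle rt F k)) = min (S.le.a (S.Nle rt F k - 1)) (S.le.a (S.Nle rt F k))
    rcases lt_or_gt_of_ne (R.ne_l hk) with q | q
    · obtain ⟨e1, e2, e3, e4⟩ := up k hk q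
      rw [e1, add_sub_cancel_right, e2, e3, min_eq_left (by omega), e2]
      omega
    · exact absurd (by rw [NL k hk, if_neg (by omega)]) h

/-- **Floors pushed.** -/
theorem ok_ri (R : S.Reg r rt F) (X : S.Bx XL XR YB YT δ) (h3 : S.a r ≤ x0) (h4 : x0 < S.B) :
    (S.jd S.ri r x0 XL XR YB YT δ rt F (S.Nri rt F)).Ok := by
  classical
  have d1 := X.d1
  have fn : ∀ k, F k - 1 ≤ S.Nri rt F k ∧ S.Nri rt F k ≤ F k + 1 := fun k => by
    unfold Nri; split_ifs <;> omega
  have mb : ∀ k, YB + 3 ≤ F k ∧ F k + 2 < YT := fun k => by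
    rcases R.rn k with h | h
    · have := X.ro _ h; omega
    · have := X.ro _ h; omega
  have hmu : ∀ k, (S.jd S.ri r x0 XL XR YB YT δ rt F (S.Nri rt F)).mu k =
    min (S.ri.a (S.Nri rt F k - 1)) (S.ri.a (S.Nri rt F k)) := fun k => rfl
  have ha : ∀ y, S.ri.a y = min (S.a y) (S.a (y + 1)) := fun y => rfl
  have hlt : ∀ y, S.ri.a y < S.B ↔ S.a y < S.B ∨ S.a (y + 1) < S.B := fun y => by
    rw [ha, min_lt_iff]
  have NL : ∀ k, rt k = false → S.Nri rt F k = if S.a (F k) < S.a (F k - 1) then F k - 1 else F k :=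
    fun k hk => by unfold Nri; rw [if_neg (by rw [hk]; simp)]
  have NR : ∀ k, rt k = true → S.Nri rt F k =
      if S.a (F k - 1) = S.B ∧ S.a (F k) < S.B then F k - 1 else F k :=
    fun k hk => by unfold Nri; rw [if_pos hk]
  have dn : ∀ k, rt k = false → S.a (F k) < S.a (F k - 1) → S.Nri rt F k = F k - 1 ∧
      S.ri.a (F k - 1) = S.a (F k) ∧ S.ri.a (F k - 2) = S.a (F k - 1) ∧ S.ri.a (F k) = S.a (F k) := by
    intro k hk h
    obtain ⟨l1, l2⟩ := R.la k hk
    refine ⟨by rw [NL k hk, if_pos h], ?_, ?_, ?_⟩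
    · rw [ha, sub_add_cancel]; exact min_eq_right h.le
    · rw [ha, show F k - 2 + 1 = F k - 1 by ring, l1, min_self]
    · rw [ha, l2, min_self]
  have hB : ∀ y, S.ri.a y ≤ S.B := fun y => by rw [ha]; exact (min_le_left _ _).trans (R.aB y)
  refine ⟨d1, hB, fun y h => ?_, fun y h => ?_, ?_, ?_, h4, fun k => ?_, fun k => ?_, ?_, ?_, ?_, R.rr,
    fun k hk => ?_, fun k hk h => ?_⟩
  · change S.ri.a y = S.B at h
    have k1 := R.aB y
    have k2 := R.aB (y + 1)
    rw [ha] at h
    have k3 : S.a y = S.B := by omega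
    have k4 : S.a (y + 1) = S.B := by omega
    change (if S.a (y + 1) < S.a y then S.l (y + 1) else S.l y) =
      (if S.a y = S.B ∧ S.a (y + 1) < S.B then S.rc (y + 1) else S.rc y)
    rw [if_neg (by omega), if_neg (by omega)]
    exact R.em y k3
  · change S.ri.a y < S.B at h
    change YB < y ∧ y + 1 < YT ∧ XL + 1 ≤ S.ri.a y
    have k5 := R.aB y
    have k6 := R.aB (y + 1)
    have k7 := X.ro y
    have k8 := X.ro (y + 1)
    rw [ha] at h ⊢
    omega
  · have := X.ri
    change S.B + δ + 1 ≤ XR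
    omega
  · change S.ri.a r ≤ x0
    rw [ha]; exact (min_le_left _ _).trans h3
  · have := mb k
    have := fn k
    change YB < F k ∧ F k < YT ∧ YB < S.Nri rt F k ∧ S.Nri rt F k < YT
    omega
  · change S.ri.a (S.Nri rt F k - 1) < S.B ∨ S.ri.a (S.Nri rt F k) < S.B
    have k1 : S.Nri rt F k = F k - 1 ∨ S.Nri rt F k = F k := by
      unfold Nri; split_ifs <;> simp
    rcases k1 with k1 | k1
    · rw [k1]
      refine Or.inr ((hlt _).2 ?_)
      rw [sub_add_cancel]; exact R.rn k
    · rw [k1, hlt, hlt]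
      rcases R.rn k with h | h
      · exact Or.inl (Or.inl h)
      · exact Or.inr (Or.inl h)
  · refine SC.dn_ (U := fun y => S.a (y + 1) < S.a y) (fun y _ => R.lf y) (fun k _ => ⟨id, id⟩)
      (fun k l hk hl => R.sep k l (hk.trans hl.symm)) (fun k hk => ?_) (fun y h => h.elim) fn
      (fun k hk => ?_) (fun y => ?_)
    · obtain ⟨l1, l2⟩ := R.la k hk
      change ¬ S.a (F k + 1) < S.a (F k) ∧ ¬ S.a (F k - 2 + 1) < S.a (F k - 2)
      rw [show F k - 2 + 1 = F k - 1 by ring]
      omega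
    · rw [show (S.jd S.ri r x0 XL XR YB YT δ rt F (S.Nri rt F)).N = S.Nri rt F from rfl, NL k hk,
        sub_add_cancel]
      congr
    · change (if S.a (y + 1) < S.a y then S.l (y + 1) else S.l y) = _
      congr
  · refine SC.dn_ (U := fun y => S.a y = S.B ∧ S.a (y + 1) < S.B) (fun y h => R.rf y h) (fun k hk => ?_)
      (fun k l hk hl => R.sep k l (hk.trans hl.symm)) (fun k hk => ?_) (fun y h h' => ?_) fn
      (fun k hk => ?_) (fun y => ?_)
    · have := (R.ra k hk).2.2
      change ¬ (F k = r ∨ F k = r + 1) ∧ ¬ (F k - 1 = r ∨ F k - 1 = r + 1)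
      omega
    · obtain ⟨l1, l2, -⟩ := R.ra k hk
      have k1 := R.aB (F k)
      change ¬ (S.a (F k) = S.B ∧ S.a (F k + 1) < S.B) ∧
        ¬ (S.a (F k - 2) = S.B ∧ S.a (F k - 2 + 1) < S.B)
      rw [show F k - 2 + 1 = F k - 1 by ring]
      constructor
      · rintro ⟨h1, h2⟩
        have := l2.2 h1; omega
      · rintro ⟨h1, h2⟩
        have := l1.1 h1; omega
    · have k1 := R.rw (y - 1) (by change y = r ∨ y = r + 1 at h; omega)
        (by change y = r ∨ y = r + 1 at h; omega)
      omega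
    · rw [show (S.jd S.ri r x0 XL XR YB YT δ rt F (S.Nri rt F)).N = S.Nri rt F from rfl, NR k hk,
        sub_add_cancel]
      congr
    · change (if S.a y = S.B ∧ S.a (y + 1) < S.B then S.rc (y + 1) else S.rc y) = _
      congr
  · change (if S.a (r - 1) = S.B ∧ S.a (r - 1 + 1) < S.B then S.rc (r - 1 + 1) else S.rc (r - 1)) ≠
      (if S.a (r + 1) = S.B ∧ S.a (r + 1 + 1) < S.B then S.rc (r + 1 + 1) else S.rc (r + 1))
    have k1 := R.rw (r - 1) (by omega) (by omega)
    have k2 := R.rw (r + 1) (by omega) (by omega)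
    rw [if_neg (by omega), if_neg (by omega)]
    exact R.rr
  · rw [hmu]
    change min (S.ri.a (S.Nri rt F k - 1)) (S.ri.a (S.Nri rt F k)) ≤ S.ri.a (F k - 1) ∧
      min (S.ri.a (S.Nri rt F k - 1)) (S.ri.a (S.Nri rt F k)) ≤ S.ri.a (F k) ∧
      XL + δ + 1 ≤ min (S.ri.a (S.Nri rt F k - 1)) (S.ri.a (S.Nri rt F k))
    rcases lt_or_gt_of_ne (R.ne_l hk) with q | q
    · have e1 : S.Nri rt F k = F k := by rw [NL k hk, if_neg (by omega)]
      rw [e1, ha, ha, sub_add_cancel]
      obtain ⟨l1, l2⟩ := R.la k hk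
      rw [l2]
      have k1 := R.aB (F k)
      have k2 := X.ro (F k - 1) (by omega)
      omega
    · obtain ⟨e1, e2, e3, e4⟩ := dn k hk q
      rw [e1, show F k - 1 - 1 = F k - 2 by ring, e2, e3, e4]
      have k1 := R.aB (F k - 1)
      have k2 := X.ro (F k) (by omega)
      omega
  · change F k ≠ S.Nri rt F k at h
    rw [hmu]
    change S.ri.a (min (F k) (S.Nri rt F k)) = min (S.ri.a (S.Nri rt F k - 1)) (S.ri.a (S.Nri rt F k))
    rcases lt_or_gt_of_ne (R.ne_l hk) with q | q
    · exact absurd (by rw [NL k hk, if_neg (by omega)]) h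
    · obtain ⟨e1, e2, e3, e4⟩ := dn k hk q
      rw [e1, show F k - 1 - 1 = F k - 2 by ring, e2, e3, min_eq_right (by omega), e2]
      omega

end Shp

end Pool.Agent.H33.W
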