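import Mathlib
import Pool.Agent.H33.W.Push
import Pool.Agent.H62.W.Phi

set_option autoImplicit false
open Finset

/-! # Pushed coarse shapes

`negC C` : colours negated. `Kp C c0` : the marks, `rtK`, `FK` : side and height. `shC C n c0 r` : shape without
notches, right wall of the colour `c0` below the row `r`, `!c0` from `r` on. `NF` : mean of 62's functional
`Phi` for the region `T` and the colours of `shC`, bent next to the moved marks. -/

namespace Pool.Agent.H33.W

open Pool.Agent.H75.Perc Pool.Agent.H75.TwoArm Pool.Agent.H13.W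
open Pool.Agent.H33.Q1 (lt tt tv tf lt_inj tt_lt lt_odd lt_tt)
open Pool.Agent.Q1 (Ec Ec_congr)
open Pool.Agent.H54.W (CD NE Zb mem_Zb lah)
open Pool.Agent.H21.W (DR mem_DR ladt)
open Pool.Agent.H62.W (PhiG Phi)

/-- negated colours -/
def negC (C : CD) : CD := { C with
  CL := fun Y => !C.CL Y
  CB := !C.CB
  CT := !C.CT
  sc := fun Y h1 h2 h3 => by rw [C.sc Y h1 h2 h3] }

variable {C : CD} {c0 : Bool} {n : ℤ}

lemma ok_neg {a : NE} : (negC C).ok (!c0) a ↔ C.ok c0 a := by
  have key : ∀ b c : Bool, ((!b) ≠ (!c)) ↔ b ≠ c := by decide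
  cases a with
  | z => exact Iff.rfl
  | l Y =>
    show (0 ≤ Y ∧ Y ≤ C.H ∧ (negC C).cLo Y ≠ (negC C).cUp Y) ↔ (0 ≤ Y ∧ Y ≤ C.H ∧ C.cLo Y ≠ C.cUp Y)
    have e1 : (negC C).cLo Y = !C.cLo Y := by
      unfold CD.cLo; split_ifs <;> rfl
    have e2 : (negC C).cUp Y = !C.cUp Y := by
      unfold CD.cUp
      change (if Y = C.H then !C.CT else !C.CL Y) = _
      split_ifs <;> rfl
    rw [e1, e2, key]
  | b => exact key _ _
  | t =>
    show (!C.CT) = (!c0) ↔ C.CT = c0
    cases C.CT <;> cases c0 <;> simp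

variable (C c0) in
/-- the marks -/
abbrev Kp : Type := {a : NE // a ≠ NE.z ∧ C.ok c0 a}

/-- side of the mark -/
def rtK (k : Kp C c0) : Bool := match k.1 with
  | NE.b => true
  | NE.t => true
  | _ => false

/-- height of the mark -/
def FK (n : ℤ) (k : Kp C c0) : ℤ := match k.1 with
  | NE.l Y => n * Y
  | NE.t => n * C.H
  | _ => 0

open Classical in
/-- name of an end -/
noncomputable def emb (a : NE) (h : C.ok c0 a) : Option (Kp C c0) :=
  if h' : a = NE.z then none else some ⟨a, h', h⟩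

/-- `Ψ` looks only at the names which exist -/
def Only (C : CD) (c0 : Bool) (Ψ : (NE → NE → Prop) → ℂ) : Prop :=
  ∀ R R' : NE → NE → Prop, (∀ i j, C.ok c0 i → C.ok c0 j → (R i j ↔ R' i j)) → Ψ R = Ψ R'

variable (C c0) in
/-- the functional of the links of `z` and the marks -/
noncomputable def Vof (Ψ : (NE → NE → Prop) → ℂ) (R : Option (Kp C c0) → Option (Kp C c0) → Prop) : ℂ :=
  Ψ fun i j => ∃ (hi : C.ok c0 i) (hj : C.ok c0 j), R (emb i hi) (emb j hj)

variable {Ψ : (NE → NE → Prop) → ℂ} {P : JD (Kp C c0)} {X : NE → ℤ × ℤ}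

lemma LS_Zb : LS P.W.Zt = Zb P.XL P.XR P.YB P.YT := by
  ext e
  constructor
  · rintro ⟨x, y, rfl, h⟩
    exact mem_Zb.2 h
  · rintro ⟨t, h1, rfl⟩
    exact ⟨t.1, t.2, rfl, h1⟩

lemma LS_DR : LS P.W.Dl = DR P.x0 P.r := by
  ext e
  constructor
  · rintro ⟨x, y, rfl, h⟩
    exact mem_DR.2 h
  · rintro ⟨t, h1, rfl⟩
    exact ⟨t.1, t.2, rfl, h1⟩

/-- 62's functional is the functional of the profile -/
lemma phiG_ph (hX : ∀ a (h : C.ok c0 a), X a = P.ends (emb a h)) (hΨ : Only C c0 Ψ) (w : Finset (ℤ × ℤ)) :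
    PhiG (Zb P.XL P.XR P.YB P.YT) (DR P.x0 P.r) X Ψ w = P.Ph (Vof C c0 Ψ) w := by
  unfold PhiG JD.Ph Vof
  refine hΨ _ _ fun i j hi hj => ?_
  rw [← LS_Zb, ← LS_DR, hX i hi, hX j hj]
  exact ⟨fun h => ⟨hi, hj, h⟩, fun ⟨_, _, h⟩ => h⟩

open Classical in
/-- the side of the frame is 54's -/
lemma ks_lah (p : Bool) (x y : ℤ) : Wd.ks (!p) x y = lah x y (ladt p x y) := by
  unfold Wd.ks lah
  have e : ladt p x y = !decide (pv (!p) x y) := by
    unfold ladt pv
    rcases Int.emod_two_eq_zero_or_one (x + y) with h | h <;> cases p <;> simp [h]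
  rw [e]
  by_cases h : pv (!p) x y
  · simp only [h, if_true, decide_true, Bool.not_true, Bool.false_eq_true, if_false]; rfl
  · simp only [h, if_false, decide_false, Bool.not_false, if_true]; rfl

/-! ### The shape -/

/-- the shape without notches -/
def shC (C : CD) (n : ℤ) (c0 : Bool) (r : ℤ) : Shp where
  a y := if 0 ≤ y ∧ y < n * C.H then n * C.A (y / n) else n * C.W
  B := n * C.W
  l y := if y < 0 then C.CB else if n * C.H ≤ y then C.CT else C.CL (y / n)
  rc y := if y < 0 then C.CB else if n * C.H ≤ y then C.CT else if y < r then c0 else !c0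

/-- negated colours -/
def Shp.neg (S : Shp) : Shp := ⟨S.a, S.B, fun y => !S.l y, fun y => !S.rc y⟩

lemma shC_neg (r : ℤ) : shC (negC C) n (!c0) r = (shC C n c0 r).neg := by
  unfold shC Shp.neg
  simp only [Shp.mk.injEq]
  refine ⟨rfl, rfl, ?_, ?_⟩
  · funext y
    change (if y < 0 then !C.CB else if n * C.H ≤ y then !C.CT else !C.CL (y / n)) = _
    split_ifs <;> rfl
  · funext y
    change (if y < 0 then !C.CB else if n * C.H ≤ y then !C.CT else if y < r then !c0 else !!c0) = _
    split_ifs <;> rfl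

lemma Shp.Reg.neg {S : Shp} {κ : Type} {r : ℤ} {rt : κ → Bool} {F : κ → ℤ} (R : S.Reg r rt F) :
    S.neg.Reg r rt F where
  aB := R.aB
  em y h := by
    change (!S.l y) = !S.rc y
    rw [R.em y h]
  sl y h := by
    change (!S.l y) = !S.l (y + 1)
    rw [R.sl y h]
  lf y := by
    rw [← R.lf y]
    change ((!S.l (y - 1)) ≠ !S.l y) ↔ _
    cases S.l (y - 1) <;> cases S.l y <;> simp
  rf y h := by
    rw [← R.rf y h]
    change ((!S.rc (y - 1)) ≠ !S.rc y) ↔ _
    cases S.rc (y - 1) <;> cases S.rc y <;> simp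
  rr := by
    have := R.rr
    change (!S.rc (r - 1)) ≠ !S.rc (r + 1)
    cases h1 : S.rc (r - 1) <;> cases h2 : S.rc (r + 1) <;> simp_all
  rw := R.rw
  la := R.la
  ra := R.ra
  rn := R.rn
  sep := R.sep

/-- coarse coordinates of a row -/
lemma row_div (hn : 0 < n) (y : ℤ) : ∃ q s : ℤ, y = n * q + s ∧ 0 ≤ s ∧ s < n ∧ y / n = q := by
  refine ⟨y / n, y % n, ?_, Int.emod_nonneg y hn.ne', Int.emod_lt_of_pos y hn, rfl⟩
  have := Int.emod_add_mul_ediv y n
  omega

lemma div_of (hn : 0 < n) {q s : ℤ} (h1 : 0 ≤ s) (h2 : s < n) : (n * q + s) / n = q := by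
  have h3 : n * q ≤ n * q + s := by omega
  exact Pool.Agent.H54.W.ediv_eq hn h3 (by omega)

/-- heights of marks are multiples of `n` -/
lemma FK_mul (n : ℤ) (k : Kp C c0) : ∃ Y, FK n k = n * Y ∧ 0 ≤ Y ∧ Y ≤ C.H ∧
    (rtK k = false → k.1 = NE.l Y ∧ C.cLo Y ≠ C.cUp Y) ∧
    (rtK k = true → (Y = 0 ∧ k.1 = NE.b ∧ C.CB ≠ c0) ∨ (Y = C.H ∧ k.1 = NE.t ∧ C.CT = c0)) := by
  obtain ⟨a, h1, h2⟩ := k
  have H0 := C.H0
  cases a with
  | z => exact absurd rfl h1
  | l Y => exact ⟨Y, rfl, h2.1, h2.2.1, fun _ => ⟨rfl, h2.2.2⟩, fun h => by simp [rtK] at h⟩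
  | b => exact ⟨0, by simp [FK], le_rfl, H0.le, fun h => by simp [rtK] at h, fun _ => Or.inl ⟨rfl, rfl, h2⟩⟩
  | t => exact ⟨C.H, rfl, H0.le, le_rfl, fun h => by simp [rtK] at h, fun _ => Or.inr ⟨rfl, rfl, h2⟩⟩

section reg

variable {r x0 x y : ℤ} (hn : 8 ≤ n)

include hn

lemma mulH {q : ℤ} : (n * q < n * C.H ↔ q < C.H) ∧ (n * q ≤ n * C.H ↔ q ≤ C.H) ∧ (0 ≤ n * q ↔ 0 ≤ q) := by
  have h0 : (0 : ℤ) < n := by omega
  refine ⟨mul_lt_mul_iff_right₀ h0, mul_le_mul_iff_right₀ h0, ?_⟩
  exact mul_nonneg_iff_of_pos_left h0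

/-- the row of the coarse row `q` -/
lemma row_in {q s : ℤ} (h1 : 0 ≤ s) (h2 : s < n) : (0 ≤ n * q + s ∧ n * q + s < n * C.H) ↔ (0 ≤ q ∧ q < C.H) := by
  have h0 : (0 : ℤ) < n := by omega
  constructor
  · rintro ⟨h3, h4⟩
    constructor
    · by_contra h
      have : n * q ≤ n * (-1) := mul_le_mul_of_nonneg_left (by omega) h0.le
      rw [mul_neg_one] at this
      omega
    · by_contra h
      have : n * C.H ≤ n * q := mul_le_mul_of_nonneg_left (by omega) h0.le
      omega
  · rintro ⟨h3, h4⟩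
    have k1 : 0 ≤ n * q := mul_nonneg h0.le h3
    have k2 : n * (q + 1) ≤ n * C.H := mul_le_mul_of_nonneg_left (by omega) h0.le
    rw [mul_add, mul_one] at k2
    omega

/-- the left end in coarse coordinates -/
lemma sh_a {q s : ℤ} (h1 : 0 ≤ s) (h2 : s < n) : (shC C n c0 r).a (n * q + s) =
    if 0 ≤ q ∧ q < C.H then n * C.A q else n * C.W := by
  have h0 : (0 : ℤ) < n := by omega
  change (if 0 ≤ n * q + s ∧ n * q + s < n * C.H then n * C.A ((n * q + s) / n) else n * C.W) = _
  rw [div_of h0 h1 h2]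
  by_cases h : 0 ≤ q ∧ q < C.H
  · rw [if_pos ((row_in hn h1 h2).2 h), if_pos h]
  · rw [if_neg (fun h' => h ((row_in hn h1 h2).1 h')), if_neg h]

/-- colour to the left in coarse coordinates -/
lemma sh_l {q s : ℤ} (h1 : 0 ≤ s) (h2 : s < n) : (shC C n c0 r).l (n * q + s) =
    if q < 0 then C.CB else if C.H ≤ q then C.CT else C.CL q := by
  have h0 : (0 : ℤ) < n := by omega
  change (if n * q + s < 0 then C.CB else if n * C.H ≤ n * q + s then C.CT else C.CL ((n * q + s) / n)) = _
  rw [div_of h0 h1 h2]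
  have k := row_in (C := C) hn (q := q) h1 h2
  have k1 : n * q + s < 0 ↔ q < 0 := by
    constructor
    · intro h
      by_contra h'
      have := mul_nonneg h0.le (show 0 ≤ q by omega)
      omega
    · intro h
      have : n * q ≤ n * (-1) := mul_le_mul_of_nonneg_left (by omega) h0.le
      rw [mul_neg_one] at this
      omega
  by_cases e1 : q < 0
  · rw [if_pos (k1.2 e1), if_pos e1]
  · rw [if_neg (fun h => e1 (k1.1 h)), if_neg e1]
    by_cases e2 : C.H ≤ q
    · rw [if_pos (by by_contra h; have := (k.1 ⟨by omega, by omega⟩).2; omega), if_pos e2]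
    · rw [if_neg (by have := (k.2 ⟨by omega, by omega⟩).2; omega), if_neg e2]

/-- the colours of the left side jump exactly at the marks -/
lemma sh_lf (y : ℤ) : (shC C n c0 r).l (y - 1) ≠ (shC C n c0 r).l y ↔
    ∃ k : Kp C c0, rtK k = false ∧ FK n k = y := by
  have h0 : (0 : ℤ) < n := by omega
  have H0 := C.H0
  obtain ⟨q, s, rfl, h1, h2, -⟩ := row_div h0 y
  by_cases hs : s = 0
  · subst hs
    have e1 : n * q + 0 - 1 = n * (q - 1) + (n - 1) := by ring
    rw [e1, sh_l hn (by omega) (by omega), sh_l hn le_rfl (by omega), add_zero]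
    constructor
    · intro h
      have hq : 0 ≤ q ∧ q ≤ C.H := by
        by_contra hc
        by_cases c1 : q < 0
        · rw [if_pos (by omega), if_pos c1] at h; exact h rfl
        · rw [if_neg (by omega), if_pos (by omega), if_neg c1, if_pos (by omega)] at h; exact h rfl
      refine ⟨⟨NE.l q, by simp, hq.1, hq.2, ?_⟩, rfl, rfl⟩
      unfold CD.cLo CD.cUp
      by_cases c1 : q = 0
      · rw [if_pos (by omega), if_neg (by omega), if_neg (by omega)] at h
        rw [if_pos c1, if_neg (by omega)]; exact h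
      · rw [if_neg (by omega), if_neg (by omega), if_neg (by omega)] at h
        rw [if_neg c1]
        by_cases c2 : q = C.H
        · rw [if_pos (by omega)] at h
          rw [if_pos c2]; exact h
        · rw [if_neg (by omega)] at h
          rw [if_neg c2]; exact h
    · rintro ⟨k, hk, h3⟩
      obtain ⟨Y, f1, f2, f3, f4, -⟩ := FK_mul n k
      have hY : Y = q := by
        rw [f1] at h3
        exact mul_left_cancel₀ h0.ne' h3
      subst hY
      have h4 := (f4 hk).2
      unfold CD.cLo CD.cUp at h4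
      by_cases c1 : Y = 0
      · rw [if_pos c1, if_neg (by omega)] at h4
        rw [if_pos (by omega), if_neg (by omega), if_neg (by omega)]; exact h4
      · rw [if_neg c1] at h4
        rw [if_neg (by omega), if_neg (by omega), if_neg (by omega)]
        by_cases c2 : Y = C.H
        · rw [if_pos c2] at h4
          rw [if_pos (by omega)]; exact h4
        · rw [if_neg c2] at h4
          rw [if_neg (by omega)]; exact h4
  · have e1 : n * q + s - 1 = n * q + (s - 1) := by ring
    rw [e1, sh_l hn (by omega) (by omega), sh_l hn h1 h2]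
    constructor
    · exact fun h => absurd rfl h
    · rintro ⟨k, -, h3⟩
      exfalso
      obtain ⟨Y, f1, -⟩ := FK_mul n k
      rw [f1] at h3
      have e2 := div_of h0 (q := q) h1 h2
      rw [← h3, Int.mul_ediv_cancel_left _ h0.ne'] at e2
      rw [e2] at h3
      omega

/-- the colours of the right side jump exactly at the marks and at the string -/
lemma sh_rf (hr0 : 0 < r) (hr : r + 1 < n * C.H) (y : ℤ) (hy : ¬ (y = r ∨ y = r + 1)) :
    (shC C n c0 r).rc (y - 1) ≠ (shC C n c0 r).rc y ↔ ∃ k : Kp C c0, rtK k = true ∧ FK n k = y := by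
  have h0 : (0 : ℤ) < n := by omega
  have H0 := C.H0
  change (if y - 1 < 0 then C.CB else if n * C.H ≤ y - 1 then C.CT else if y - 1 < r then c0 else !c0) ≠
    (if y < 0 then C.CB else if n * C.H ≤ y then C.CT else if y < r then c0 else !c0) ↔ _
  constructor
  · intro h
    by_cases c1 : y = 0
    · subst c1
      rw [if_pos (by omega), if_neg (by omega), if_neg (by omega), if_pos hr0] at h
      exact ⟨⟨NE.b, by simp, h⟩, rfl, rfl⟩
    · by_cases c2 : y = n * C.H
      · subst c2
        rw [if_neg (by omega), if_neg (by omega), if_neg (by omega), if_neg (by omega), if_pos le_rfl] at h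
        refine ⟨⟨NE.t, by simp, ?_⟩, rfl, rfl⟩
        show C.CT = c0
        cases h1 : C.CT <;> cases h2 : c0 <;> simp_all
      · exfalso
        by_cases c3 : y < 0
        · rw [if_pos (by omega), if_pos c3] at h; exact h rfl
        · by_cases c4 : n * C.H < y
          · rw [if_neg (by omega), if_pos (by omega), if_neg c3, if_pos (by omega)] at h; exact h rfl
          · rw [if_neg (show ¬ y - 1 < 0 by omega), if_neg (show ¬ n * C.H ≤ y - 1 by omega), if_neg c3,
              if_neg (show ¬ n * C.H ≤ y by omega)] at h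
            by_cases c5 : y < r
            · rw [if_pos (show y - 1 < r by omega), if_pos c5] at h; exact h rfl
            · rw [if_neg (show ¬ y - 1 < r by omega), if_neg c5] at h; exact h rfl
  · rintro ⟨k, hk, rfl⟩
    obtain ⟨Y, f1, f2, f3, -, f5⟩ := FK_mul n k
    rcases f5 hk with ⟨rfl, -, h3⟩ | ⟨rfl, -, h3⟩
    · rw [mul_zero] at f1
      rw [f1, if_pos (by omega), if_neg (by omega), if_neg (by omega), if_pos hr0]
      exact h3
    · rw [f1, if_neg (by omega), if_neg (by omega), if_neg (by omega), if_neg (by omega), if_pos le_rfl, h3]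
      cases c0 <;> simp

/-- **The shape is regular.** -/
theorem reg_shC (hr0 : 4 ≤ r) (hr : r + 4 ≤ n * C.H) : (shC C n c0 r).Reg r rtK (FK (C := C) (c0 := c0) n) := by
  have h0 : (0 : ℤ) < n := by omega
  have H0 := C.H0
  have aq : ∀ q, 0 ≤ q ∧ q < C.H → n * C.A q + n ≤ n * C.W := fun q h => by
    have := C.AW q h.1 h.2
    have := mul_le_mul_of_nonneg_left (show C.A q + 1 ≤ C.W by omega) h0.le
    rwa [mul_add, mul_one] at this
  have hin : ∀ y, (shC C n c0 r).a y < (shC C n c0 r).B ↔ (0 ≤ y ∧ y < n * C.H) := by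
    intro y
    obtain ⟨q, s, rfl, h1, h2, -⟩ := row_div h0 y
    rw [sh_a hn h1 h2, row_in hn h1 h2]
    change _ < n * C.W ↔ _
    constructor
    · intro h
      by_contra h'
      rw [if_neg h'] at h
      exact lt_irrefl _ h
    · intro h
      rw [if_pos h]
      have := aq q h
      omega
  have haB : ∀ y, (shC C n c0 r).a y ≤ (shC C n c0 r).B := by
    intro y
    change (if 0 ≤ y ∧ y < n * C.H then n * C.A (y / n) else n * C.W) ≤ n * C.W
    split_ifs with h
    · have h' : (shC C n c0 r).a y < (shC C n c0 r).B := (hin y).2 h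
      change (if 0 ≤ y ∧ y < n * C.H then n * C.A (y / n) else n * C.W) < n * C.W at h'
      rw [if_pos h] at h'
      exact h'.le
    · exact le_rfl
  have hFK : ∀ k : Kp C c0, ∃ Y, FK n k = n * Y ∧ 0 ≤ Y ∧ Y ≤ C.H := fun k => by
    obtain ⟨Y, f1, f2, f3, -⟩ := FK_mul n k
    exact ⟨Y, f1, f2, f3⟩
  have hfar : ∀ Y : ℤ, (Y < C.H → n * Y + n ≤ n * C.H) := fun Y h => by
    have := mul_le_mul_of_nonneg_left (show Y + 1 ≤ C.H by omega) h0.le
    rwa [mul_add, mul_one] at this
  refine ⟨haB, fun y h => ?_, fun y h => ?_, sh_lf hn, fun y hy => sh_rf hn (by omega) (by omega) y hy, ?_,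
    fun y h1 h2 => (hin y).2 ⟨by omega, by omega⟩, fun k hk => ?_, fun k hk => ?_, fun k => ?_,
    fun k l hkl h1 h2 => ?_⟩
  · -- empty rows
    have h' : ¬ (0 ≤ y ∧ y < n * C.H) := fun h' => by
      have := (hin y).2 h'
      omega
    change (if y < 0 then C.CB else if n * C.H ≤ y then C.CT else C.CL (y / n)) =
      (if y < 0 then C.CB else if n * C.H ≤ y then C.CT else if y < r then c0 else !c0)
    by_cases c1 : y < 0
    · rw [if_pos c1, if_pos c1]
    · rw [if_neg c1, if_neg c1, if_pos (by omega), if_pos (by omega)]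
  · -- no change of the colour on a vertical wall
    by_contra hne
    have hne' : (shC C n c0 r).l (y + 1 - 1) ≠ (shC C n c0 r).l (y + 1) := by
      rw [add_sub_cancel_right]; exact hne
    obtain ⟨k, hk, h3⟩ := (sh_lf hn (y + 1)).1 hne'
    obtain ⟨Y, f1, f2, f3, f4, -⟩ := FK_mul n k
    have e1 : y + 1 = n * Y + 0 := by omega
    have e2 : y = n * (Y - 1) + (n - 1) := by
      have : n * (Y - 1) = n * Y - n := by ring
      omega
    rw [e1, sh_a hn le_rfl (by omega), e2, sh_a hn (by omega) (by omega)] at h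
    have h4 := (f4 hk).2
    unfold CD.cLo CD.cUp at h4
    by_cases c1 : Y = 0
    · subst c1
      rw [if_neg (by omega), if_pos (by omega)] at h
      have := aq 0 ⟨le_rfl, H0⟩
      omega
    · rw [if_pos (by omega)] at h
      by_cases c2 : Y = C.H
      · rw [if_neg (by omega)] at h
        have := aq (Y - 1) ⟨by omega, by omega⟩
        omega
      · rw [if_pos (by omega)] at h
        have h5 := C.sc (Y - 1) (by omega) (by omega)
          (by rw [sub_add_cancel]; exact mul_left_cancel₀ h0.ne' h)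
        rw [sub_add_cancel] at h5
        rw [if_neg c1, if_neg c2] at h4
        exact h4 h5
  · -- opposite colours next to the string
    change (if r - 1 < 0 then C.CB else if n * C.H ≤ r - 1 then C.CT else if r - 1 < r then c0 else !c0) ≠
      (if r + 1 < 0 then C.CB else if n * C.H ≤ r + 1 then C.CT else if r + 1 < r then c0 else !c0)
    rw [if_neg (by omega), if_neg (by omega), if_pos (by omega), if_neg (by omega), if_neg (by omega),
      if_neg (by omega)]
    cases c0 <;> simp
  · -- flat near a left mark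
    obtain ⟨Y, f1, -⟩ := hFK k
    have e1 : FK n k - 2 = n * (Y - 1) + (n - 2) := by rw [f1]; ring
    have e2 : FK n k - 1 = n * (Y - 1) + (n - 1) := by rw [f1]; ring
    have e3 : FK n k = n * Y + 0 := by rw [f1]; ring
    rw [e1, e2]
    refine ⟨?_, ?_⟩
    · rw [sh_a hn (by omega) (by omega), sh_a hn (by omega) (by omega)]
    · rw [e3, sh_a hn le_rfl (by omega), add_assoc, sh_a hn (by omega) (by omega)]
  · -- flat near a right mark
    obtain ⟨Y, f1, f2, f3, -, f5⟩ := FK_mul n k
    have e1 : FK n k - 2 = n * (Y - 1) + (n - 2) := by rw [f1]; ring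
    have e2 : FK n k - 1 = n * (Y - 1) + (n - 1) := by rw [f1]; ring
    have e3 : FK n k = n * Y + 0 := by rw [f1]; ring
    refine ⟨?_, ?_, ?_⟩
    · rw [e1, e2, sh_a hn (by omega) (by omega), sh_a hn (by omega) (by omega)]
    · rw [e3, add_assoc, sh_a hn le_rfl (by omega), sh_a hn (by omega) (by omega)]
    · rcases f5 hk with ⟨rfl, -⟩ | ⟨rfl, -⟩
      · rw [mul_zero] at f1; omega
      · omega
  · -- one row at a mark is not empty
    obtain ⟨Y, f1, f2, f3⟩ := hFK k
    have k1 : 0 ≤ n * Y := mul_nonneg h0.le f2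
    rw [hin, hin, f1]
    by_cases c1 : Y = C.H
    · left
      rw [c1]
      have := mul_le_mul_of_nonneg_left (show 1 ≤ C.H by omega) h0.le
      omega
    · right
      have := hfar Y (by omega)
      omega
  · -- separation
    obtain ⟨Y, f1, f2, f3, f4, f5⟩ := FK_mul n k
    obtain ⟨Z, g1, g2, g3, g4, g5⟩ := FK_mul n l
    have hYZ : Y = Z := by
      rw [f1, g1] at h1 h2
      by_contra hne
      rcases lt_or_gt_of_ne hne with c | c
      · have := mul_le_mul_of_nonneg_left (show Y + 1 ≤ Z by omega) h0.le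
        rw [mul_add, mul_one] at this
        omega
      · have := mul_le_mul_of_nonneg_left (show Z + 1 ≤ Y by omega) h0.le
        rw [mul_add, mul_one] at this
        omega
    subst hYZ
    refine Subtype.ext ?_
    cases hk : rtK k
    · rw [(f4 hk).1, (g4 (by rw [← hkl, hk])).1]
    · rcases f5 hk with ⟨a1, a2, -⟩ | ⟨a1, a2, -⟩ <;>
        rcases g5 (by rw [← hkl, hk]) with ⟨b1, b2, -⟩ | ⟨b1, b2, -⟩
      · rw [a2, b2]
      · omega
      · omega
      · rw [a2, b2]

end reg

end Pool.Agent.H33.W
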