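import Mathlib
import Pool.Agent.H33.W.PushC

set_option autoImplicit false
open Finset

/-! # Exact relations between the canonical values

`Ef T X1 X2 Y1 Y2` : labels of the region `T` in the box, `Wf S T ..` : open labels of the box outside of it
(colours of `S`, bent next to the moved marks), `NF C n c0 T x0 r X1 X2 Y1 Y2 Ψ` : mean of 62's `Phi`.
`nf_s1` : left walls of the world `false` = right wall of the world `true` (same sets).
`nf_pp` : world `true` at `(x0 - 1, r)` = world `false` of the negated colours at `(x0, r)`.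
`nf_s2` : floors at `(x0, r - 1)` = ceilings of the negated colours at `(x0, r)`.
The two boxes are arbitrary. -/

namespace Pool.Agent.H33.W

open Pool.Agent.H75.Perc Pool.Agent.H75.TwoArm Pool.Agent.H13.W
open Pool.Agent.H33.Q1 (lt tt tv tf lt_inj tt_lt lt_odd lt_tt)
open Pool.Agent.Q1 (Ec Ec_congr)
open Pool.Agent.H54.W (CD NE Zb mem_Zb lah)
open Pool.Agent.H21.W (DR mem_DR ladt fillC)
open Pool.Agent.H62.W (PhiG Phi)

/-- labels of the region -/
noncomputable def Ef (T : Shp) (X1 X2 Y1 Y2 : ℤ) : Finset (ℤ × ℤ) :=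
  ((Icc X1 (X2 - 1) ×ˢ Icc Y1 (Y2 - 1)).filter fun t => T.a t.2 ≤ t.1 ∧ t.1 < T.B).image lt

/-- colours outside of the region `T` -/
def cF (S T : Shp) (x y : ℤ) : Bool :=
  if x < T.a y then (if T.a y - 2 ≤ x then T.l y else S.l y)
  else (if x < T.B + 2 then T.rc y else S.rc y)

/-- open labels outside of the region -/
noncomputable def Wf (S T : Shp) (X1 X2 Y1 Y2 : ℤ) : Finset (ℤ × ℤ) :=
  ((Icc X1 (X2 - 1) ×ˢ Icc Y1 (Y2 - 1)).filter fun t =>
    ¬ (T.a t.2 ≤ t.1 ∧ t.1 < T.B) ∧ cF S T t.1 t.2 = true).image lt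

/-- **The canonical value.** -/
noncomputable def NF (C : CD) (n : ℤ) (c0 : Bool) (T : Shp) (x0 r X1 X2 Y1 Y2 : ℤ)
    (Ψ : (NE → NE → Prop) → ℂ) : ℂ :=
  Ec (fun _ => (1 / 2 : ℂ)) (Ef T X1 X2 Y1 Y2) fun w =>
    Phi C n c0 x0 r X1 X2 Y1 Y2 Ψ (w ∪ Wf (shC C n c0 r) T X1 X2 Y1 Y2)

/-- margin of the box -/
structure MB (C : CD) (n X1 X2 Y1 Y2 : ℤ) : Prop where
  x1 : X1 + 4 ≤ n * C.LO
  x2 : n * C.W + 4 ≤ X2
  y1 : Y1 + 3 ≤ 0
  y2 : n * C.H + 3 ≤ Y2

variable {C : CD} {n : ℤ} {c0 : Bool} {S T : Shp} {x0 r X1 X2 Y1 Y2 x y : ℤ} {Ψ : (NE → NE → Prop) → ℂ}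

lemma mem_Ef : lt (x, y) ∈ Ef T X1 X2 Y1 Y2 ↔ (X1 ≤ x ∧ x < X2 ∧ Y1 ≤ y ∧ y < Y2) ∧ T.a y ≤ x ∧ x < T.B := by
  unfold Ef
  simp only [mem_image, mem_filter, mem_product, mem_Icc, Prod.exists]
  constructor
  · rintro ⟨x', y', ⟨h1, h2⟩, h3⟩
    have := lt_inj h3
    simp only [Prod.mk.injEq] at this
    obtain ⟨rfl, rfl⟩ := this
    exact ⟨by omega, h2⟩
  · rintro ⟨h1, h2⟩
    exact ⟨x, y, ⟨by omega, h2⟩, rfl⟩

lemma mem_Wf : lt (x, y) ∈ Wf S T X1 X2 Y1 Y2 ↔ (X1 ≤ x ∧ x < X2 ∧ Y1 ≤ y ∧ y < Y2) ∧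
    ¬ (T.a y ≤ x ∧ x < T.B) ∧ cF S T x y = true := by
  unfold Wf
  simp only [mem_image, mem_filter, mem_product, mem_Icc, Prod.exists]
  constructor
  · rintro ⟨x', y', ⟨h1, h2⟩, h3⟩
    have := lt_inj h3
    simp only [Prod.mk.injEq] at this
    obtain ⟨rfl, rfl⟩ := this
    exact ⟨by omega, h2⟩
  · rintro ⟨h1, h2⟩
    exact ⟨x, y, ⟨by omega, h2⟩, rfl⟩

lemma ef_odd {e : ℤ × ℤ} (h : e ∈ Ef T X1 X2 Y1 Y2) : (e.1 + e.2) % 2 = 1 := by
  unfold Ef at h
  obtain ⟨t, -, rfl⟩ := mem_image.1 h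
  exact lt_odd t

lemma wf_odd {e : ℤ × ℤ} (h : e ∈ Wf S T X1 X2 Y1 Y2) : (e.1 + e.2) % 2 = 1 := by
  unfold Wf at h
  obtain ⟨t, -, rfl⟩ := mem_image.1 h
  exact lt_odd t

/-! ### The value as the mean of a profile -/

/-- the shape at the height of a mark -/
lemma up_col {D : CD} {d0 : Bool} (hn : 8 ≤ n) (hr : 0 < r) {Y : ℤ} (h1 : 0 ≤ Y) (h2 : Y ≤ D.H) :
    (shC D n d0 r).l (n * Y) = D.cUp Y := by
  have := sh_l (C := D) (c0 := d0) (r := r) hn (q := Y) (s := 0) le_rfl (by omega)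
  rw [add_zero] at this
  rw [this, if_neg (by omega)]
  unfold CD.cUp
  by_cases h : Y = D.H
  · rw [if_pos (by omega), if_pos h]
  · rw [if_neg (by omega), if_neg h]

/-- the ends of the profile are the ends of the box -/
lemma ends_eq {D : CD} {d0 : Bool} {P : JD (Kp C c0)} (hH : D.H = C.H) (hok : ∀ a, D.ok d0 a ↔ C.ok c0 a)
    (hn : 8 ≤ n) (h0 : 4 ≤ r) (h1 : r + 4 ≤ n * C.H) (p1 : P.cf = (shC D n d0 r).l)
    (p2 : P.df = (shC D n d0 r).rc) (p3 : P.rt = rtK) (p4 : P.F = FK n) (p5 : P.r = r)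
    (a : NE) (h : C.ok c0 a) :
    D.be n d0 P.x0 P.r P.XL P.XR a = P.ends (emb a h) := by
  unfold emb
  by_cases hz : a = NE.z
  · rw [dif_pos hz, hz]; rfl
  · rw [dif_neg hz]
    change _ = P.K ⟨a, hz, h⟩
    have hD := (hok a).2 h
    unfold JD.K
    rw [p3, p4, p1, p2]
    have H0 := C.H0
    cases a with
    | z => exact absurd rfl hz
    | l Y =>
      have e : D.cUp Y = !D.cLo Y := bnot (Ne.symm hD.2.2)
      rw [if_neg (by simp [rtK])]
      change lah P.XL (n * Y) (ladt (D.cLo Y) P.XL (n * Y)) = Wd.ks ((shC D n d0 r).l (n * Y)) P.XL (n * Y)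
      rw [up_col hn (by omega) hD.1 hD.2.1, e, ks_lah]
    | b =>
      have hD' : D.CB ≠ d0 := hD
      rw [if_pos (by simp [rtK])]
      change lah P.XR 0 (ladt D.CB P.XR 0) = Wd.ks ((shC D n d0 r).rc 0) P.XR 0
      have e : (shC D n d0 r).rc 0 = !D.CB := by
        change (if (0 : ℤ) < 0 then D.CB else if n * D.H ≤ 0 then D.CT else if 0 < r then d0 else !d0) = _
        rw [if_neg (by omega), if_neg (by rw [hH]; omega), if_pos (by omega)]
        exact bnot (Ne.symm hD')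
      rw [e, ks_lah]
    | t =>
      have hD' : D.CT = d0 := hD
      rw [if_pos (by simp [rtK])]
      change lah P.XR (n * D.H) (ladt (!d0) P.XR (n * D.H)) =
        Wd.ks ((shC D n d0 r).rc (n * C.H)) P.XR (n * C.H)
      have e : (shC D n d0 r).rc (n * C.H) = !(!d0) := by
        change (if n * C.H < 0 then D.CB else if n * D.H ≤ n * C.H then D.CT else
          if n * C.H < r then d0 else !d0) = _
        rw [if_neg (by omega), hH, if_pos le_rfl, hD', Bool.not_not]
      rw [e, ks_lah, hH]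

/-- **The canonical value is the mean of a profile.** -/
theorem nf_ev {D : CD} {d0 : Bool} (hH : D.H = C.H) (hok : ∀ a, D.ok d0 a ↔ C.ok c0 a) (hn : 8 ≤ n)
    (h0 : 4 ≤ r) (h1 : r + 4 ≤ n * C.H) (hΨ : Only C c0 Ψ) (T : Shp) (N : Kp C c0 → ℤ) :
    NF D n d0 T x0 r X1 X2 Y1 Y2 Ψ =
      ((shC D n d0 r).jd T r x0 X1 X2 Y1 Y2 2 rtK (FK (C := C) (c0 := c0) n) N).Ev (Vof C c0 Ψ) := by
  unfold NF JD.Ev
  refine Ec_congr fun w _ => ?_
  exact phiG_ph (P := (shC D n d0 r).jd T r x0 X1 X2 Y1 Y2 2 rtK (FK (C := C) (c0 := c0) n) N)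
    (X := D.be n d0 x0 r X1 X2) (fun a h => ends_eq (D := D) (d0 := d0)
      (P := (shC D n d0 r).jd T r x0 X1 X2 Y1 Y2 2 rtK (FK (C := C) (c0 := c0) n) N)
      hH hok hn h0 h1 rfl rfl rfl rfl rfl a h) hΨ _

/-! ### Boxes -/

lemma bx_shC (hn : 8 ≤ n) (M : MB C n X1 X2 Y1 Y2) : (shC C n c0 r).Bx X1 X2 Y1 Y2 2 where
  d1 := by norm_num
  ro y h := by
    have h0 : (0 : ℤ) < n := by omega
    have m1 := M.x1; have m2 := M.y1; have m3 := M.y2
    change (if 0 ≤ y ∧ y < n * C.H then n * C.A (y / n) else n * C.W) < n * C.W at h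
    by_cases hy : 0 ≤ y ∧ y < n * C.H
    · obtain ⟨q, s, rfl, h1, h2, -⟩ := row_div h0 y
      have hq := (row_in (C := C) hn h1 h2).1 hy
      rw [sh_a hn h1 h2, if_pos hq]
      have := mul_le_mul_of_nonneg_left (C.lo q hq.1 hq.2) h0.le
      omega
    · rw [if_neg hy] at h; exact absurd h (lt_irrefl _)
  ri := by
    have := M.x2
    change n * C.W + 2 + 2 ≤ X2
    omega

lemma Bx_neg {δ XL XR YB YT : ℤ} (h : S.Bx XL XR YB YT δ) : S.neg.Bx XL XR YB YT δ := ⟨h.d1, h.ro, h.ri⟩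

/-- the world of the position `x0` -/
lemma zin_a (hz : Pool.Agent.H21.W.RP C n x0 r) : (shC C n c0 r).a r ≤ x0 ∧ x0 < (shC C n c0 r).B := by
  obtain ⟨h1, h2, h3, h4⟩ := hz
  change (if 0 ≤ r ∧ r < n * C.H then n * C.A (r / n) else n * C.W) ≤ x0 ∧ x0 < n * C.W
  rw [if_pos ⟨h1, h2⟩]
  exact ⟨h3, h4⟩

/-- **World `true`, nothing pushed** -/
theorem nf_pp {X1' X2' Y1' Y2' : ℤ} (hn : 8 ≤ n) (h0 : 4 ≤ r) (h1 : r + 4 ≤ n * C.H)
    (hz : Pool.Agent.H21.W.RP C n x0 r) (M : MB C n X1 X2 Y1 Y2) (M' : MB C n X1' X2' Y1' Y2')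
    (hΨ : Only C c0 Ψ) :
    NF C n c0 ((shC C n c0 r).mv (-1)) (x0 - 1) r X1 X2 Y1 Y2 Ψ =
      NF (negC C) n (!c0) (shC (negC C) n (!c0) r) x0 r X1' X2' Y1' Y2' Ψ := by
  obtain ⟨z1, z2⟩ := zin_a (c0 := c0) hz
  have R := reg_shC (C := C) (c0 := c0) hn h0 h1
  have B := bx_shC (c0 := c0) (r := r) hn M
  have B' := bx_shC (c0 := c0) (r := r) hn M'
  rw [nf_ev (C := C) (c0 := c0) rfl (fun _ => Iff.rfl) hn h0 h1 hΨ _ (FK n),
    nf_ev (C := C) (c0 := c0) (D := negC C) (d0 := !c0) rfl (fun _ => ok_neg) hn h0 h1 hΨ _ (FK n), shC_neg]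
  have O : ((shC C n c0 r).jd ((shC C n c0 r).mv (-1)) r (x0 - 1) X1 X2 Y1 Y2 2 rtK
      (FK (C := C) (c0 := c0) n) (FK n)).Ok := by
    refine Shp.ok_st R B (fun y => ?_) (fun y => ?_) (fun y _ => ?_) ?_ rfl rfl ?_ ?_
    · exact add_le_add_left (R.aB y) _
    · change (shC C n c0 r).a y + -1 = (shC C n c0 r).B + -1 ↔ _
      omega
    · change (shC C n c0 r).a y - 1 ≤ (shC C n c0 r).a y + -1
      omega
    · change (shC C n c0 r).B + -1 ≤ (shC C n c0 r).B + 1
      omega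
    · change (shC C n c0 r).a r + -1 ≤ x0 - 1
      omega
    · change x0 - 1 < (shC C n c0 r).B + -1
      omega
  have O' : ((shC C n c0 r).neg.jd (shC C n c0 r).neg r x0 X1' X2' Y1' Y2' 2 rtK
      (FK (C := C) (c0 := c0) n) (FK n)).Ok :=
    Shp.ok_st R.neg (Bx_neg B') R.neg.aB (fun _ => Iff.rfl) (fun y _ => by omega) (by omega) rfl rfl z1 z2
  have H : JD.Near ((shC C n c0 r).jd ((shC C n c0 r).mv (-1)) r (x0 - 1) X1 X2 Y1 Y2 2 rtK
      (FK (C := C) (c0 := c0) n) (FK n)) ((shC C n c0 r).neg.jd (shC C n c0 r).neg r x0 X1' X2' Y1' Y2' 2 rtK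
      (FK (C := C) (c0 := c0) n) (FK n)) 1 0 true := by
    refine ⟨by norm_num, fun y => ?_, ?_, ?_, ?_, fun _ => rfl, fun k => ?_, fun y => ?_, fun y _ => ?_⟩
    · change (shC C n c0 r).a (y + 0) = (shC C n c0 r).a y + -1 + 1
      rw [add_zero]; ring
    · change (shC C n c0 r).B = (shC C n c0 r).B + -1 + 1
      ring
    · change r = r + 0
      ring
    · change x0 = x0 - 1 + 1
      ring
    · change FK n k = FK n k + 0
      ring
    · change (!(shC C n c0 r).l (y + 0)) = xor true ((shC C n c0 r).l y)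
      rw [add_zero, Bool.true_xor]
    · change (!(shC C n c0 r).rc (y + 0)) = xor true ((shC C n c0 r).rc y)
      rw [add_zero, Bool.true_xor]
  exact JD.ev_eq H O O' _

/-- **Left walls of the world `false`, right wall of the world `true`** -/
theorem nf_s1 (S : Shp) : S.fo = (S.mv (-1)).ce := by
  unfold Shp.fo Shp.mv Shp.ce
  simp only [Shp.mk.injEq]
  refine ⟨?_, by ring, trivial, trivial⟩
  funext y
  by_cases h : S.a y < S.B
  · rw [if_pos h, if_pos (by omega)]; ring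
  · rw [if_neg h, if_neg (by omega)]; ring

/-- at a right mark exactly one of the two rows is empty -/
lemma right_one (hn : 8 ≤ n) {k : Kp C c0} (hk : rtK k = true) :
    ((shC C n c0 r).a (FK n k) = (shC C n c0 r).B ↔ ¬ (shC C n c0 r).a (FK n k - 1) = (shC C n c0 r).B) := by
  have h0 : (0 : ℤ) < n := by omega
  have H0 := C.H0
  have aq : ∀ q, 0 ≤ q ∧ q < C.H → n * C.A q + n ≤ n * C.W := fun q h => by
    have := C.AW q h.1 h.2
    have := mul_le_mul_of_nonneg_left (show C.A q + 1 ≤ C.W by omega) h0.le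
    rwa [mul_add, mul_one] at this
  obtain ⟨Y, f1, f2, f3, -, f5⟩ := FK_mul n k
  have e2 : FK n k - 1 = n * (Y - 1) + (n - 1) := by rw [f1]; ring
  have e3 : FK n k = n * Y + 0 := by rw [f1]; ring
  rw [e2, e3, sh_a hn le_rfl (by omega), sh_a hn (by omega) (by omega)]
  change _ = n * C.W ↔ ¬ _ = n * C.W
  rcases f5 hk with ⟨rfl, -⟩ | ⟨rfl, -⟩
  · rw [if_pos ⟨le_rfl, H0⟩, if_neg (by omega)]
    have := aq 0 ⟨le_rfl, H0⟩
    constructor
    · intro h; omega
    · intro h; exact absurd rfl h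
  · rw [if_neg (by omega), if_pos ⟨by omega, by omega⟩]
    have := aq (C.H - 1) ⟨by omega, by omega⟩
    constructor
    · intro _ h; omega
    · intro _; rfl

/-- **Floors and ceilings.** -/
theorem nf_s2 {X1' X2' Y1' Y2' : ℤ} (hn : 8 ≤ n) (h0 : 5 ≤ r) (h1 : r + 4 ≤ n * C.H)
    (hz : Pool.Agent.H21.W.RP C n x0 r) (hz' : Pool.Agent.H21.W.RP C n x0 (r - 1))
    (M : MB C n X1 X2 Y1 Y2) (M' : MB C n X1' X2' Y1' Y2') (hΨ : Only C c0 Ψ) :
    NF C n c0 (shC C n c0 (r - 1)).ri x0 (r - 1) X1 X2 Y1 Y2 Ψ =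
      NF (negC C) n (!c0) (shC (negC C) n (!c0) r).le x0 r X1' X2' Y1' Y2' Ψ := by
  obtain ⟨z1, z2⟩ := zin_a (c0 := c0) hz
  obtain ⟨z3, z4⟩ := zin_a (c0 := c0) hz'
  have R := reg_shC (C := C) (c0 := c0) hn (show 4 ≤ r by omega) h1
  have R' := reg_shC (C := C) (c0 := c0) (r := r - 1) hn (by omega) (by omega)
  have B := bx_shC (c0 := c0) (r := r - 1) hn M
  have B' := bx_shC (c0 := c0) (r := r) hn M'
  have aq : ∀ y, (shC C n c0 (r - 1)).a y = (shC C n c0 r).a y := fun y => rfl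
  have aqB : (shC C n c0 (r - 1)).B = (shC C n c0 r).B := rfl
  have lq : ∀ y, (shC C n c0 (r - 1)).l y = (shC C n c0 r).l y := fun y => rfl
  rw [nf_ev (C := C) (c0 := c0) rfl (fun _ => Iff.rfl) hn (by omega) (by omega) hΨ _
      ((shC C n c0 (r - 1)).Nri rtK (FK n)),
    nf_ev (C := C) (c0 := c0) (D := negC C) (d0 := !c0) rfl (fun _ => ok_neg) hn (by omega) h1 hΨ _
      ((shC C n c0 r).neg.Nle rtK (FK n)), shC_neg]
  have O := Shp.ok_ri R' B z3 z4
  have O' := Shp.ok_le R.neg (Bx_neg B') z1 z2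
  have H : JD.Near ((shC C n c0 (r - 1)).jd (shC C n c0 (r - 1)).ri (r - 1) x0 X1 X2 Y1 Y2 2 rtK
      (FK (C := C) (c0 := c0) n) ((shC C n c0 (r - 1)).Nri rtK (FK n)))
      ((shC C n c0 r).neg.jd (shC C n c0 r).neg.le r x0 X1' X2' Y1' Y2' 2 rtK
      (FK (C := C) (c0 := c0) n) ((shC C n c0 r).neg.Nle rtK (FK n))) 0 1 true := by
    refine ⟨by norm_num, fun y => ?_, ?_, ?_, ?_, fun _ => rfl, fun k => ?_, fun y => ?_, fun y hy => ?_⟩
    · change min ((shC C n c0 r).a (y + 1)) ((shC C n c0 r).a (y + 1 - 1)) =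
        min ((shC C n c0 r).a y) ((shC C n c0 r).a (y + 1)) + 0
      rw [add_sub_cancel_right, add_zero, min_comm]
    · exact (add_zero _).symm
    · change r = r - 1 + 1
      ring
    · exact (add_zero _).symm
    · change (shC C n c0 r).neg.Nle rtK (FK n) k = (shC C n c0 (r - 1)).Nri rtK (FK n) k + 1
      unfold Shp.Nle Shp.Nri
      change (if rtK k then (if (shC C n c0 r).a (FK n k) = (shC C n c0 r).B ∧
          (shC C n c0 r).a (FK n k - 1) < (shC C n c0 r).B then FK n k + 1 else FK n k)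
        else (if (shC C n c0 r).a (FK n k - 1) < (shC C n c0 r).a (FK n k) then FK n k + 1 else FK n k)) =
        (if rtK k then (if (shC C n c0 r).a (FK n k - 1) = (shC C n c0 r).B ∧
          (shC C n c0 r).a (FK n k) < (shC C n c0 r).B then FK n k - 1 else FK n k)
        else (if (shC C n c0 r).a (FK n k) < (shC C n c0 r).a (FK n k - 1) then FK n k - 1 else FK n k)) + 1
      cases hk : rtK k
      · simp only [Bool.false_eq_true, if_false]
        rcases lt_or_gt_of_ne (R.ne_l hk) with q | q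
        · rw [if_pos q, if_neg (by omega)]
        · rw [if_neg (by omega), if_pos q]; ring
      · simp only [if_true]
        have k1 := right_one (r := r) hn hk
        have k2 := R.aB (FK n k)
        have k3 := R.aB (FK n k - 1)
        by_cases q : (shC C n c0 r).a (FK n k) = (shC C n c0 r).B
        · have k4 := k1.1 q
          rw [if_pos ⟨q, by omega⟩, if_neg (by omega)]
        · have k4 : (shC C n c0 r).a (FK n k - 1) = (shC C n c0 r).B := by
            by_contra h; exact q (k1.2 h)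
          rw [if_neg (by omega), if_pos ⟨k4, by omega⟩]; ring
    · change (if (shC C n c0 r).a (y + 1 - 1) < (shC C n c0 r).a (y + 1) then !(shC C n c0 r).l (y + 1 - 1)
        else !(shC C n c0 r).l (y + 1)) = xor true (if (shC C n c0 r).a (y + 1) < (shC C n c0 r).a y then
        (shC C n c0 r).l (y + 1) else (shC C n c0 r).l y)
      rw [add_sub_cancel_right, Bool.true_xor]
      rcases lt_trichotomy ((shC C n c0 r).a y) ((shC C n c0 r).a (y + 1)) with q | q | q
      · rw [if_pos q, if_neg (by omega)]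
      · rw [if_neg (by omega), if_neg (by omega), R.sl y q]
      · rw [if_neg (by omega), if_pos q]
    · change y ≠ r - 1 at hy
      change (if (shC C n c0 r).a (y + 1) = (shC C n c0 r).B ∧ (shC C n c0 r).a (y + 1 - 1) <
          (shC C n c0 r).B then !(shC C n c0 r).rc (y + 1 - 1) else !(shC C n c0 r).rc (y + 1)) =
        xor true (if (shC C n c0 r).a y = (shC C n c0 r).B ∧ (shC C n c0 r).a (y + 1) < (shC C n c0 r).B
        then (shC C n c0 (r - 1)).rc (y + 1) else (shC C n c0 (r - 1)).rc y)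
      rw [add_sub_cancel_right, Bool.true_xor]
      have hemp : ∀ y, (shC C n c0 r).a y = (shC C n c0 r).B ↔ ¬ (0 ≤ y ∧ y < n * C.H) := by
        intro y
        have h0' : (0 : ℤ) < n := by omega
        obtain ⟨q, s, rfl, e1, e2, -⟩ := row_div h0' y
        rw [sh_a hn e1 e2, row_in hn e1 e2]
        change _ = n * C.W ↔ _
        constructor
        · intro h h'
          rw [if_pos h'] at h
          have := C.AW q h'.1 h'.2
          have := mul_left_cancel₀ h0'.ne' h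
          omega
        · intro h; rw [if_neg h]
      have hlt : ∀ y, (shC C n c0 r).a y < (shC C n c0 r).B ↔ (0 ≤ y ∧ y < n * C.H) := by
        intro y
        have k1 := R.aB y
        have k2 := hemp y
        constructor
        · intro h
          by_contra h'
          have := k2.2 h'
          omega
        · intro h
          by_contra h'
          exact k2.1 (by omega) h
      have e1 : ((shC C n c0 r).a (y + 1) = (shC C n c0 r).B ∧ (shC C n c0 r).a y < (shC C n c0 r).B) ↔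
          y + 1 = n * C.H := by
        rw [hemp, hlt]; omega
      have e2 : ((shC C n c0 r).a y = (shC C n c0 r).B ∧ (shC C n c0 r).a (y + 1) < (shC C n c0 r).B) ↔
          y = -1 := by
        rw [hemp, hlt]; omega
      have rcv : ∀ r y, (shC C n c0 r).rc y =
        if y < 0 then C.CB else if n * C.H ≤ y then C.CT else if y < r then c0 else !c0 := fun _ _ => rfl
      by_cases c1 : y = -1
      · rw [if_neg (fun h => by have := e1.1 h; omega), if_pos (e2.2 c1), rcv, rcv,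
          if_neg (show ¬ y + 1 < 0 by omega), if_neg (show ¬ n * C.H ≤ y + 1 by omega),
          if_pos (show y + 1 < r by omega), if_neg (show ¬ y + 1 < 0 by omega),
          if_neg (show ¬ n * C.H ≤ y + 1 by omega), if_pos (show y + 1 < r - 1 by omega)]
      · rw [if_neg (fun h => c1 (e2.1 h))]
        by_cases c2 : y + 1 = n * C.H
        · rw [if_pos (e1.2 c2), rcv, rcv, if_neg (show ¬ y < 0 by omega), if_neg (show ¬ n * C.H ≤ y by omega),
            if_neg (show ¬ y < r by omega), if_neg (show ¬ y < 0 by omega),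
            if_neg (show ¬ n * C.H ≤ y by omega), if_neg (show ¬ y < r - 1 by omega)]
        · rw [if_neg (fun h => c2 (e1.1 h)), rcv, rcv]
          by_cases c3 : y < 0
          · rw [if_pos (show y + 1 < 0 by omega), if_pos c3]
          · by_cases c4 : n * C.H ≤ y
            · rw [if_neg (show ¬ y + 1 < 0 by omega), if_pos (show n * C.H ≤ y + 1 by omega), if_neg c3,
                if_pos c4]
            · rw [if_neg (show ¬ y + 1 < 0 by omega), if_neg (show ¬ n * C.H ≤ y + 1 by omega), if_neg c3,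
                if_neg c4]
              by_cases c5 : y < r - 1
              · rw [if_pos (show y + 1 < r by omega), if_pos c5]
              · rw [if_neg (show ¬ y + 1 < r by omega), if_neg c5]
  exact JD.ev_eq H O O' _

end Pool.Agent.H33.W
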