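import Mathlib
import Pool.Agent.H33.W.NF

set_option autoImplicit false
open Finset

/-! # The colours of the canonical worlds

`cF_of` : shapes with the colours of `S` (nothing, left walls, right wall pushed, moved by `-1`): the colours
outside of the region are those of 54's `fillC`. `cF_le`, `cF_ri` : the same for pushed ceilings / floors off
the three tiles next to a moved mark. `jump` : the places where `a` jumps. -/

namespace Pool.Agent.H33.W

open Pool.Agent.H33.Q1 (lt tt tv tf lt_inj tt_lt lt_odd lt_tt)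
open Pool.Agent.H54.W (CD NE)
open Pool.Agent.H21.W (fillC RP)

variable {C : CD} {n : ℤ} {c0 : Bool} {S T : Shp} {x0 r x y : ℤ}

/-- colour of the shape `S` outside -/
def fS (S : Shp) (x y : ℤ) : Bool := if x < S.a y then S.l y else S.rc y

/-- it is 54's colour -/
lemma fS_fillC {cr : ℤ → Bool} (hcr : ∀ y, 0 ≤ y → y < n * C.H → cr y = if y < r then c0 else !c0) :
    fS (shC C n c0 r) x y = fillC C n cr x y := by
  unfold fS fillC
  change (if x < (if 0 ≤ y ∧ y < n * C.H then n * C.A (y / n) else n * C.W) then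
    (if y < 0 then C.CB else if n * C.H ≤ y then C.CT else C.CL (y / n)) else
    (if y < 0 then C.CB else if n * C.H ≤ y then C.CT else if y < r then c0 else !c0)) = _
  by_cases h1 : y < 0
  · rw [if_pos h1, if_pos h1, ite_self, if_pos h1]
  · by_cases h2 : n * C.H ≤ y
    · rw [if_neg h1, if_pos h2, if_neg h1, if_pos h2, ite_self, if_neg h1, if_pos h2]
    · rw [if_neg h1, if_neg h2, if_neg h1, if_neg h2, if_pos (show 0 ≤ y ∧ y < n * C.H by omega), if_neg h1,
        if_neg h2, hcr y (by omega) (by omega)]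

/-- **Colours of `S` in all rows.** -/
lemma cF_of (hl : T.l = S.l) (hr : T.rc = S.rc) (em : ∀ y, S.a y = S.B → S.l y = S.rc y)
    (h3 : S.B ≤ T.B + 1) (h1 : T.a y ≤ S.a y) (haB : S.a y ≤ S.B)
    (hI : ¬ (T.a y ≤ x ∧ x < T.B)) : cF S T x y = fS S x y := by
  unfold cF fS
  rw [hl, hr, ite_self, ite_self]
  by_cases q : x < T.a y
  · rw [if_pos q, if_pos (by omega)]
  · rw [if_neg q]
    by_cases q2 : x < S.a y
    · rw [if_pos q2]
      exact (em y (by omega)).symm
    · rw [if_neg q2]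

/-- ceilings pushed -/
lemma cF_le (R : ∀ y, S.a y ≤ S.B) (hI : ¬ (S.le.a y ≤ x ∧ x < S.le.B)) : cF S S.le x y = fS S x y ∨
    (S.a (y - 1) < S.a y ∧ S.a (y - 1) - 2 ≤ x ∧ x < S.a (y - 1)) ∨
    (S.a y = S.B ∧ S.a (y - 1) < S.B ∧ S.B ≤ x ∧ x < S.B + 2) := by
  have k1 := R y
  have k2 := R (y - 1)
  have e1 : S.le.a y = min (S.a y) (S.a (y - 1)) := rfl
  have e2 : S.le.B = S.B := rfl
  have e3 : S.le.l y = if S.a (y - 1) < S.a y then S.l (y - 1) else S.l y := rfl
  have e4 : S.le.rc y = if S.a y = S.B ∧ S.a (y - 1) < S.B then S.rc (y - 1) else S.rc y := rfl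
  rw [e1, e2] at hI
  unfold cF fS
  rw [e1, e2, e3, e4]
  by_cases q : x < min (S.a y) (S.a (y - 1))
  · rw [if_pos q, if_pos (show x < S.a y by omega)]
    by_cases q2 : S.a (y - 1) < S.a y
    · by_cases q3 : min (S.a y) (S.a (y - 1)) - 2 ≤ x
      · exact Or.inr (Or.inl (by omega))
      · left; rw [if_neg q3]
    · left; rw [if_neg q2, ite_self]
  · rw [if_neg q, if_neg (show ¬ x < S.a y by omega)]
    by_cases q2 : S.a y = S.B ∧ S.a (y - 1) < S.B
    · by_cases q3 : x < S.B + 2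
      · exact Or.inr (Or.inr (by omega))
      · left; rw [if_neg q3]
    · left; rw [if_neg q2, ite_self]

/-- floors pushed -/
lemma cF_ri (R : ∀ y, S.a y ≤ S.B) (hI : ¬ (S.ri.a y ≤ x ∧ x < S.ri.B)) : cF S S.ri x y = fS S x y ∨
    (S.a (y + 1) < S.a y ∧ S.a (y + 1) - 2 ≤ x ∧ x < S.a (y + 1)) ∨
    (S.a y = S.B ∧ S.a (y + 1) < S.B ∧ S.B ≤ x ∧ x < S.B + 2) := by
  have k1 := R y
  have k2 := R (y + 1)
  have e1 : S.ri.a y = min (S.a y) (S.a (y + 1)) := rfl
  have e2 : S.ri.B = S.B := rfl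
  have e3 : S.ri.l y = if S.a (y + 1) < S.a y then S.l (y + 1) else S.l y := rfl
  have e4 : S.ri.rc y = if S.a y = S.B ∧ S.a (y + 1) < S.B then S.rc (y + 1) else S.rc y := rfl
  rw [e1, e2] at hI
  unfold cF fS
  rw [e1, e2, e3, e4]
  by_cases q : x < min (S.a y) (S.a (y + 1))
  · rw [if_pos q, if_pos (show x < S.a y by omega)]
    by_cases q2 : S.a (y + 1) < S.a y
    · by_cases q3 : min (S.a y) (S.a (y + 1)) - 2 ≤ x
      · exact Or.inr (Or.inl (by omega))
      · left; rw [if_neg q3]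
    · left; rw [if_neg q2, ite_self]
  · rw [if_neg q, if_neg (show ¬ x < S.a y by omega)]
    by_cases q2 : S.a y = S.B ∧ S.a (y + 1) < S.B
    · by_cases q3 : x < S.B + 2
      · exact Or.inr (Or.inr (by omega))
      · left; rw [if_neg q3]
    · left; rw [if_neg q2, ite_self]

/-- the left end of a row -/
lemma aC_in (h1 : 0 ≤ y) (h2 : y < n * C.H) : (shC C n c0 r).a y = n * C.A (y / n) := if_pos ⟨h1, h2⟩

lemma aC_out (h : ¬ (0 ≤ y ∧ y < n * C.H)) : (shC C n c0 r).a y = n * C.W := if_neg h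

/-- the places where the left end jumps -/
lemma jump (hn : 8 ≤ n) (h : (shC C n c0 r).a (y - 1) ≠ (shC C n c0 r).a y) : ∃ Y, 0 ≤ Y ∧ Y ≤ C.H ∧ y = n * Y ∧
    (shC C n c0 r).a (y - 1) = (if 0 < Y then n * C.A (Y - 1) else n * C.W) ∧
    (shC C n c0 r).a y = if Y < C.H then n * C.A Y else n * C.W := by
  have h0 : (0 : ℤ) < n := by omega
  obtain ⟨q, s, rfl, h1, h2, -⟩ := row_div h0 y
  by_cases hs : s = 0
  · subst hs
    have e1 : n * q + 0 - 1 = n * (q - 1) + (n - 1) := by ring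
    rw [e1, sh_a hn (by omega) (by omega), sh_a hn le_rfl (by omega)] at h
    have hq : 0 ≤ q ∧ q ≤ C.H := by
      by_contra hc
      rw [if_neg (by omega), if_neg (by omega)] at h
      exact h rfl
    refine ⟨q, hq.1, hq.2, by ring, ?_, ?_⟩
    · rw [e1, sh_a hn (by omega) (by omega)]
      by_cases c : 0 < q
      · rw [if_pos (by omega), if_pos c]
      · rw [if_neg (by omega), if_neg c]
    · rw [sh_a hn le_rfl (by omega)]
      by_cases c : q < C.H
      · rw [if_pos (by omega), if_pos c]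
      · rw [if_neg (by omega), if_neg c]
  · exfalso
    have e1 : n * q + s - 1 = n * q + (s - 1) := by ring
    rw [e1, sh_a hn (by omega) (by omega), sh_a hn h1 h2] at h
    exact h rfl

/-- room tiles -/
lemma rp_iff : RP C n x y ↔ (shC C n c0 r).a y ≤ x ∧ x < (shC C n c0 r).B := by
  unfold RP
  by_cases h : 0 ≤ y ∧ y < n * C.H
  · rw [aC_in h.1 h.2]
    change _ ↔ n * C.A (y / n) ≤ x ∧ x < n * C.W
    tauto
  · rw [aC_out h]
    change _ ↔ n * C.W ≤ x ∧ x < n * C.W
    omega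

/-- colours outside: nothing pushed -/
lemma cF_0 : cF (shC C n c0 r) (shC C n c0 r) x y =
    fS (shC C n c0 r) x y := by
  unfold cF fS
  rw [ite_self, ite_self]

/-- colours outside: moved -/
lemma cF_mv (hn : 8 ≤ n) (h0 : 4 ≤ r) (h1 : r + 4 ≤ n * C.H)
    (hI : ¬ (((shC C n c0 r).mv (-1)).a y ≤ x ∧ x < ((shC C n c0 r).mv (-1)).B)) :
    cF (shC C n c0 r) ((shC C n c0 r).mv (-1)) x y = fS (shC C n c0 r) x y := by
  have R := reg_shC (C := C) (c0 := c0) hn h0 h1
  refine cF_of rfl rfl R.em ?_ ?_ (R.aB y) hI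
  · change _ ≤ (shC C n c0 r).B + -1 + 1
    omega
  · change (shC C n c0 r).a y + -1 ≤ _
    omega

/-- colours outside: left walls pushed -/
lemma cF_fo (hn : 8 ≤ n) (h0 : 4 ≤ r) (h1 : r + 4 ≤ n * C.H)
    (hI : ¬ ((shC C n c0 r).fo.a y ≤ x ∧ x < (shC C n c0 r).fo.B)) :
    cF (shC C n c0 r) (shC C n c0 r).fo x y = fS (shC C n c0 r) x y := by
  have R := reg_shC (C := C) (c0 := c0) hn h0 h1
  refine cF_of rfl rfl R.em ?_ ?_ (R.aB y) hI
  · change _ ≤ (shC C n c0 r).B + 1
    omega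
  · change (if (shC C n c0 r).a y < (shC C n c0 r).B then (shC C n c0 r).a y - 1 else (shC C n c0 r).a y) ≤ _
    split_ifs <;> omega

end Pool.Agent.H33.W
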