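import Mathlib
import Pool.Agent.H33.W.NFc

set_option autoImplicit false
open Finset

/-! # The canonical value on the zone without the half row

`nf_zone` : only the labels of the zone `ZS` (box without the deleted half row) matter. `mem_EfZ`, `mem_WfZ` :
membership of tiles. -/

namespace Pool.Agent.H33.W

open Pool.Agent.H33.Q1 (lt tt tv tf lt_inj tt_lt lt_odd lt_tt)
open Pool.Agent.Q1 (Ec Ec_congr Ec_split Ec_const)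
open Pool.Agent.H54.W (CD NE)
open Pool.Agent.H62.W (PhiG Phi ZS mem_ZS zone_Phi)

variable {C : CD} {n : ℤ} {c0 : Bool} {S T : Shp} {x0 r X1 X2 Y1 Y2 x y : ℤ} {Ψ : (NE → NE → Prop) → ℂ}

/-- a functional of the labels of a zone -/
lemma ec_zone {q : ℤ × ℤ → ℂ} {E W Z : Finset (ℤ × ℤ)} {F : Finset (ℤ × ℤ) → ℂ}
    (hF : ∀ w w', w ∩ Z = w' ∩ Z → F w = F w') :
    Ec q E (fun w => F (w ∪ W)) = Ec q (E ∩ Z) (fun w => F (w ∪ W ∩ Z)) := by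
  rw [Ec_split q (inter_subset_left : E ∩ Z ⊆ E)]
  refine Ec_congr fun ω1 h1 => ?_
  rw [Ec_congr (G := fun _ => F (ω1 ∪ W ∩ Z)) fun ω2 h2 => ?_, Ec_const]
  refine hF _ _ ?_
  ext e
  simp only [mem_inter, mem_union]
  constructor
  · rintro ⟨(h | h) | h, hz⟩
    · exact ⟨Or.inl h, hz⟩
    · have := mem_sdiff.1 (h2 h)
      exact absurd (mem_inter.2 ⟨this.1, hz⟩) this.2
    · exact ⟨Or.inr ⟨h, hz⟩, hz⟩
  · rintro ⟨h | h, hz⟩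
    · exact ⟨Or.inl (Or.inl h), hz⟩
    · exact ⟨Or.inr h.1, hz⟩

/-- **Only the zone matters.** -/
theorem nf_zone : NF C n c0 T x0 r X1 X2 Y1 Y2 Ψ =
    Ec (fun _ => (1 / 2 : ℂ)) (Ef T X1 X2 Y1 Y2 ∩ ZS X1 X2 Y1 Y2 x0 r) fun w =>
      Phi C n c0 x0 r X1 X2 Y1 Y2 Ψ (w ∪ Wf (shC C n c0 r) T X1 X2 Y1 Y2 ∩ ZS X1 X2 Y1 Y2 x0 r) :=
  ec_zone fun _ _ h => (zone_Phi C n c0).congr h

lemma mem_EfZ (h : lt (x, y) ∈ ZS X1 X2 Y1 Y2 x0 r) :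
    lt (x, y) ∈ Ef T X1 X2 Y1 Y2 ∩ ZS X1 X2 Y1 Y2 x0 r ↔ T.a y ≤ x ∧ x < T.B := by
  rw [mem_inter, mem_Ef]
  have := (mem_ZS.1 h).1
  tauto

lemma mem_WfZ (h : lt (x, y) ∈ ZS X1 X2 Y1 Y2 x0 r) :
    lt (x, y) ∈ Wf S T X1 X2 Y1 Y2 ∩ ZS X1 X2 Y1 Y2 x0 r ↔ ¬ (T.a y ≤ x ∧ x < T.B) ∧ cF S T x y = true := by
  rw [mem_inter, mem_Wf]
  have := (mem_ZS.1 h).1
  tauto

/-- the two label sets are disjoint -/
lemma disj_EW : Disjoint (Ef T X1 X2 Y1 Y2) (Wf S T X1 X2 Y1 Y2) := by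
  rw [disjoint_left]
  intro e h1 h2
  obtain ⟨x, y, rfl⟩ := Pool.Agent.H74.R45.exists_lt (ef_odd h1)
  exact (mem_Wf.1 h2).2.1 (mem_Ef.1 h1).2

end Pool.Agent.H33.W
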