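import Mathlib
import Pool.Agent.H33.W.NFc

set_option autoImplicit false
open Finset

/-! # The functional does not depend on the box

`RI C n c0 r x0 XA XB YA YB X1 X2 Y1 Y2` : the rectangle `[XA, XB) × [YA, YB)` contains the room and the start of
the string and lies in the box with a margin of two columns and one row. `NatO` : natural colours off the
rectangle and off the string. `box_indep` : 62's `Phi` has the same value in two boxes for configurations which
agree in the rectangle off the string. -/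

namespace Pool.Agent.H33.W

open Pool.Agent.H75.Perc Pool.Agent.H75.TwoArm Pool.Agent.H13.W
open Pool.Agent.H33.Q1 (lt tt tv tf lt_inj tt_lt lt_odd lt_tt)
open Pool.Agent.H54.W (CD NE Zb mem_Zb lah)
open Pool.Agent.H21.W (DR mem_DR ladt fillC)
open Pool.Agent.H62.W (PhiG Phi)

/-- the rectangle in the box -/
structure RI (C : CD) (n r x0 XA XB YA YB X1 X2 Y1 Y2 : ℤ) : Prop where
  hn : 8 ≤ n
  r0 : 4 ≤ r
  r1 : r + 4 ≤ n * C.H
  a : ∀ q, 0 ≤ q → q < C.H → XA ≤ n * C.A q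
  b : n * C.W ≤ XB
  ya : YA ≤ 0
  yb : n * C.H ≤ YB
  xa : XA ≤ x0
  xb : x0 < XB
  x1 : X1 + 2 ≤ XA
  x2 : XB + 2 ≤ X2
  y1 : Y1 < YA
  y2 : YB < Y2

/-- natural colours off the rectangle and the string -/
def NatO (C : CD) (n : ℤ) (cr : ℤ → Bool) (r x0 XA XB YA YB X1 X2 Y1 Y2 : ℤ) (L : Finset (ℤ × ℤ)) : Prop :=
  ∀ x y, (X1 ≤ x ∧ x < X2 ∧ Y1 ≤ y ∧ y < Y2) → ¬ (XA ≤ x ∧ x < XB ∧ YA ≤ y ∧ y < YB) →
    ¬ (y = r ∧ x0 ≤ x) → (lt (x, y) ∈ L ↔ fillC C n cr x y = true)

variable {C : CD} {c0 : Bool} {n r x0 XA XB YA YB X1 X2 Y1 Y2 X1' X2' Y1' Y2' x y : ℤ}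
  {Ψ : (NE → NE → Prop) → ℂ} {L L' : Finset (ℤ × ℤ)}

/-- the rectangle as a shape -/
def shR (S : Shp) (XA XB YA YB : ℤ) : Shp := ⟨fun y => if YA ≤ y ∧ y < YB then XA else XB, XB, S.l, S.rc⟩

/-- the profile of the rectangle -/
def jR (C : CD) (n : ℤ) (c0 : Bool) (r x0 XA XB YA YB X1 X2 Y1 Y2 : ℤ) : JD (Kp C c0) :=
  (shC C n c0 r).jd (shR (shC C n c0 r) XA XB YA YB) r x0 X1 X2 Y1 Y2 1 rtK (FK n) (FK n)

lemma RI.ok (h : RI C n r x0 XA XB YA YB X1 X2 Y1 Y2) :
    (jR C n c0 r x0 XA XB YA YB X1 X2 Y1 Y2).Ok := by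
  have hn := h.hn
  have h0 : (0 : ℤ) < n := by omega
  have H0 := C.H0
  have R := reg_shC (C := C) (c0 := c0) hn h.r0 h.r1
  have e0 := h.r0; have e1 := h.r1; have e2 := h.ya; have e3 := h.yb
  have hab : XA < XB := by have := h.xa; have := h.xb; omega
  have ha : ∀ y, (shR (shC C n c0 r) XA XB YA YB).a y = if YA ≤ y ∧ y < YB then XA else XB := fun _ => rfl
  have hF : ∀ k : Kp C c0, 0 ≤ FK n k ∧ FK n k ≤ n * C.H := fun k => by
    obtain ⟨Y, f1, f2, f3, -⟩ := FK_mul n k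
    rw [f1]
    exact ⟨mul_nonneg h0.le f2, mul_le_mul_of_nonneg_left f3 h0.le⟩
  have hmu : ∀ k : Kp C c0, (jR C n c0 r x0 XA XB YA YB X1 X2 Y1 Y2).mu k =
    min (if YA ≤ FK n k - 1 ∧ FK n k - 1 < YB then XA else XB) (if YA ≤ FK n k ∧ FK n k < YB then XA else XB) :=
    fun _ => rfl
  refine ⟨le_rfl, fun y => ?_, fun y hy => ?_, fun y hy => ?_, ?_, ?_, h.xb, fun k => ?_, fun k => ?_, ?_, ?_,
    R.rr, R.rr, fun k hk => ?_, fun k hk hne => absurd rfl hne⟩
  · change (if YA ≤ y ∧ y < YB then XA else XB) ≤ XB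
    split_ifs <;> omega
  · change (if YA ≤ y ∧ y < YB then XA else XB) = XB at hy
    have hy' : ¬ (YA ≤ y ∧ y < YB) := fun h' => by rw [if_pos h'] at hy; omega
    change (if y < 0 then C.CB else if n * C.H ≤ y then C.CT else C.CL (y / n)) =
      (if y < 0 then C.CB else if n * C.H ≤ y then C.CT else if y < r then c0 else !c0)
    by_cases c1 : y < 0
    · rw [if_pos c1, if_pos c1]
    · rw [if_neg c1, if_neg c1, if_pos (by omega), if_pos (by omega)]
  · change (if YA ≤ y ∧ y < YB then XA else XB) < XB at hy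
    have hy' : YA ≤ y ∧ y < YB := by
      by_contra h'; rw [if_neg h'] at hy; omega
    have k1 := h.y1; have k2 := h.y2; have k3 := h.x1
    change Y1 < y ∧ y + 1 < Y2 ∧ X1 + 1 ≤ (if YA ≤ y ∧ y < YB then XA else XB)
    rw [if_pos hy']
    omega
  · have := h.x2
    change XB + 1 + 1 ≤ X2
    omega
  · change (if YA ≤ r ∧ r < YB then XA else XB) ≤ x0
    rw [if_pos (by omega)]; exact h.xa
  · have k1 := hF k
    have k2 := h.y1; have k3 := h.y2
    change Y1 < FK n k ∧ FK n k < Y2 ∧ Y1 < FK n k ∧ FK n k < Y2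
    omega
  · have k1 := hF k
    change (if YA ≤ FK n k - 1 ∧ FK n k - 1 < YB then XA else XB) < XB ∨
      (if YA ≤ FK n k ∧ FK n k < YB then XA else XB) < XB
    by_cases c : FK n k = n * C.H
    · left; rw [if_pos (by omega)]; exact hab
    · right; rw [if_pos (by omega)]; exact hab
  · exact SC.straight (fun y _ => R.lf y) (fun k _ => id) (fun k l hk hl h => by
      have h' : FK n k = FK n l := h
      exact R.sep k l (hk.trans hl.symm) (by omega) (by omega))
  · exact SC.straight (fun y h => R.rf y h) (fun k hk => by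
      have := (R.ra k hk).2.2
      change ¬ (FK n k = r ∨ FK n k = r + 1)
      omega) (fun k l hk hl h => by
      have h' : FK n k = FK n l := h
      exact R.sep k l (hk.trans hl.symm) (by omega) (by omega))
  · rw [hmu]
    change _ ≤ (if YA ≤ FK n k - 1 ∧ FK n k - 1 < YB then XA else XB) ∧
      _ ≤ (if YA ≤ FK n k ∧ FK n k < YB then XA else XB) ∧ X1 + 1 + 1 ≤ _
    have := h.x1
    refine ⟨min_le_left _ _, min_le_right _ _, ?_⟩
    rw [le_min_iff]
    split_ifs <;> omega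

/-- the configuration has the colours of the profile -/
lemma RI.con (h : RI C n r x0 XA XB YA YB X1 X2 Y1 Y2) {cr : ℤ → Bool}
    (hcr : ∀ y, 0 ≤ y → y < n * C.H → y ≠ r → cr y = if y < r then c0 else !c0)
    (hL : NatO C n cr r x0 XA XB YA YB X1 X2 Y1 Y2 L) :
    (jR C n c0 r x0 XA XB YA YB X1 X2 Y1 Y2).W.Con L := by
  rintro x y ⟨h1, h2, h3⟩
  have hn := h.hn
  have h0 : (0 : ℤ) < n := by omega
  have hI : ¬ ((if YA ≤ y ∧ y < YB then XA else XB) ≤ x ∧ x < XB) := h2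
  have hD : ¬ (y = r ∧ x0 ≤ x) := h3
  have e2 := h.ya; have e3 := h.yb
  have hab : XA < XB := by have := h.xa; have := h.xb; omega
  rw [hL x y h1 (fun h' => hI (by rw [if_pos ⟨h'.2.2.1, h'.2.2.2⟩]; exact ⟨h'.1, h'.2.1⟩)) hD]
  have e : (jR C n c0 r x0 XA XB YA YB X1 X2 Y1 Y2).W.col x y = fillC C n cr x y := by
    change (if x < (if YA ≤ y ∧ y < YB then XA else XB) then
      (if (if YA ≤ y ∧ y < YB then XA else XB) - 1 ≤ x then (shC C n c0 r).l y else (shC C n c0 r).l y)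
      else (if x < XB + 1 then (shC C n c0 r).rc y else (shC C n c0 r).rc y)) = _
    rw [ite_self, ite_self]
    unfold fillC
    change (if x < (if YA ≤ y ∧ y < YB then XA else XB) then
      (if y < 0 then C.CB else if n * C.H ≤ y then C.CT else C.CL (y / n)) else
      (if y < 0 then C.CB else if n * C.H ≤ y then C.CT else if y < r then c0 else !c0)) = _
    by_cases c1 : y < 0
    · rw [if_pos c1, if_pos c1, ite_self, if_pos c1]
    · by_cases c2 : n * C.H ≤ y
      · rw [if_neg c1, if_pos c2, if_neg c1, if_pos c2, ite_self, if_neg c1, if_pos c2]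
      · have hy : YA ≤ y ∧ y < YB := by omega
        rw [if_pos hy] at hI
        rw [if_neg c1, if_neg c2, if_neg c1, if_neg c2, if_neg c1, if_neg c2, if_pos hy]
        obtain ⟨q, s, rfl, f1, f2, f3⟩ := row_div h0 y
        have hq := (row_in (C := C) (q := q) hn f1 f2).1 ⟨by omega, by omega⟩
        have g1 := h.a q hq.1 hq.2
        have g2 := h.b
        have g3 : n * C.A q ≤ n * C.W := mul_le_mul_of_nonneg_left (C.AW q hq.1 hq.2).le h0.le
        rw [f3]
        by_cases c3 : x < XA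
        · rw [if_pos c3, if_pos (show x < n * C.A q by omega)]
        · rw [if_neg c3, if_neg (show ¬ x < n * C.A q by omega)]
          refine (hcr (n * q + s) (by omega) (by omega) ?_).symm
          intro h5
          exact hD ⟨h5, by have := h.xb; omega⟩
  rw [e]

/-- the functional of the box is the functional of the profile -/
lemma RI.ph (h : RI C n r x0 XA XB YA YB X1 X2 Y1 Y2) (hΨ : Only C c0 Ψ) (L : Finset (ℤ × ℤ)) :
    Phi C n c0 x0 r X1 X2 Y1 Y2 Ψ L = (jR C n c0 r x0 XA XB YA YB X1 X2 Y1 Y2).Ph (Vof C c0 Ψ) L :=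
  phiG_ph (P := jR C n c0 r x0 XA XB YA YB X1 X2 Y1 Y2) (X := C.be n c0 x0 r X1 X2)
    (fun a ha => ends_eq (D := C) (d0 := c0) (P := jR C n c0 r x0 XA XB YA YB X1 X2 Y1 Y2) rfl
      (fun _ => Iff.rfl) h.hn h.r0 h.r1 rfl rfl rfl rfl rfl a ha) hΨ L

/-- **Box independence.** -/
theorem box_indep (h : RI C n r x0 XA XB YA YB X1 X2 Y1 Y2) (h' : RI C n r x0 XA XB YA YB X1' X2' Y1' Y2')
    {cr cr' : ℤ → Bool} (hcr : ∀ y, 0 ≤ y → y < n * C.H → y ≠ r → cr y = if y < r then c0 else !c0)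
    (hcr' : ∀ y, 0 ≤ y → y < n * C.H → y ≠ r → cr' y = if y < r then c0 else !c0)
    (hL : NatO C n cr r x0 XA XB YA YB X1 X2 Y1 Y2 L) (hL' : NatO C n cr' r x0 XA XB YA YB X1' X2' Y1' Y2' L')
    (hin : ∀ x y, XA ≤ x → x < XB → YA ≤ y → y < YB → ¬ (y = r ∧ x0 ≤ x) → (lt (x, y) ∈ L ↔ lt (x, y) ∈ L'))
    (hΨ : Only C c0 Ψ) :
    Phi C n c0 x0 r X1 X2 Y1 Y2 Ψ L = Phi C n c0 x0 r X1' X2' Y1' Y2' Ψ L' := by
  rw [h.ph hΨ, h'.ph hΨ]
  have H : JD.Near (jR C n c0 r x0 XA XB YA YB X1 X2 Y1 Y2) (jR C n c0 r x0 XA XB YA YB X1' X2' Y1' Y2')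
      0 0 false := by
    refine ⟨by norm_num, fun y => ?_, (add_zero _).symm, (add_zero _).symm, (add_zero _).symm, fun _ => rfl,
      fun k => (add_zero _).symm, fun y => ?_, fun y _ => ?_⟩
    · rw [add_zero, add_zero]; rfl
    · rw [add_zero, Bool.false_xor]; rfl
    · rw [add_zero, Bool.false_xor]; rfl
  refine JD.ph_eq H h.ok h'.ok (h.con hcr hL) (h'.con hcr' hL') (fun x y h1 h2 => ?_) _
  obtain ⟨h3, h4⟩ : (if YA ≤ y ∧ y < YB then XA else XB) ≤ x ∧ x < XB := h1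
  have hy : YA ≤ y ∧ y < YB := by
    by_contra hc
    rw [if_neg hc] at h3
    omega
  rw [if_pos hy] at h3
  rw [add_zero, add_zero, hin x y h3 h4 hy.1 hy.2 h2]
  simp

end Pool.Agent.H33.W
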