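import Mathlib
import Pool.Agent.H33.W.BoxI
import Pool.Agent.H93.W.VBridge

set_option autoImplicit false
open Finset

/-! # Box independence for the window with a line

`D = C.win n he h8 cr`, a position `τ` of the line, the row `r` deleted from `x0` on, `ω` states of the random
tiles, far labels `Wo` with the natural colours off the small box `InZ`: the functional does not depend on the box
(`box_win`). The coarse lower bound `LO` leaves one cell (`LO + 1 ≤ A Y`). -/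

namespace Pool.Agent.H33.W

open Pool.Agent.H33.Q1 (lt tt tv tf lt_inj tt_lt lt_odd lt_tt)
open Pool.Agent.H54.W (CD NE Win Pos)
open Pool.Agent.H54.W.Win
open Pool.Agent.H21.W (fillC)
open Pool.Agent.H62.W (Phi)
open Pool.Agent.H93.W (rcol)

variable {C : CD} {c0 c c' : Bool} {n r x0 X1 X2 Y1 Y2 X1' X2' Y1' Y2' x y : ℤ} {he : n % 2 = 0} {h8 : 8 ≤ n}
  {cr cr' : ℤ → Bool} {τ : ℤ → ℤ} {Ψ : (NE → NE → Prop) → ℂ} {ω Wo Wo' : Finset (ℤ × ℤ)}

/-- a cell below the left side -/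
lemma low_a (hLow : ∀ Y, 0 ≤ Y → Y < C.H → C.LO + 1 ≤ C.A Y) (h0 : 0 ≤ y) (h1 : y < n * C.H) :
    n * C.LO + n - 1 ≤ (C.win n he h8 cr).a y := by
  have hp : 0 < n := by omega
  have hr := Pool.Agent.H54.W.CD.row_of (C := C) hp h0 h1
  have h2 := hLow _ hr.1 hr.2
  have h3 := mul_le_mul_of_nonneg_left h2 hp.le
  rw [mul_add, mul_one] at h3
  change n * C.LO + n - 1 ≤ C.wa n y
  rcases C.wa_cases n y with ⟨-, e⟩ | ⟨-, e⟩ <;> omega

/-- the tiles of the line and the random tiles are in the rectangle -/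
lemma in_rect (hLow : ∀ Y, 0 ≤ Y → Y < C.H → C.LO + 1 ≤ C.A Y) (H : Pos (C.win n he h8 cr) τ)
    (h : (C.win n he h8 cr).InE τ x y ∨ (C.win n he h8 cr).TA τ x y ∨ (C.win n he h8 cr).TB τ x y) :
    n * C.LO + n - 2 ≤ x ∧ x < n * C.W ∧ -1 ≤ y ∧ y < n * C.H + 1 := by
  have hh : 2 ≤ n * C.H := (C.win n he h8 cr).hh
  have e1 : (C.win n he h8 cr).h = n * C.H := rfl
  have e2 : (C.win n he h8 cr).w = n * C.W := rfl
  have lo : ∀ y, 0 ≤ y → y < n * C.H → n * C.LO + n - 1 ≤ τ y := fun y h0 h1 =>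
    (low_a hLow h0 h1).trans (H.lo y h0 h1)
  have hi : ∀ y, 0 ≤ y → y < n * C.H → τ y ≤ n * C.W := fun y h0 h1 => H.hi y h0 h1
  rcases h with ((⟨h1, h2, h3, h4⟩ | ⟨h1, h2, h3, h4⟩ | ⟨h1, h2, h3, h4⟩ | ⟨h1, h2, h3⟩ | ⟨h1, h2, h3⟩) |
    (⟨h1, h2, h3, h4⟩ | ⟨h1, h2⟩) | (⟨h1, h2, h3, h4⟩ | ⟨h1, h2⟩))
  · rw [e1] at h2; rw [e2] at h4
    have := low_a (he := he) (h8 := h8) (cr := cr) hLow h1 h2
    omega
  · rw [e1] at h2
    have := lo (y - 1) (by omega) (by omega)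
    have := hi y (by omega) h2
    omega
  · rw [e1] at h2
    have := lo (y + 1) (by omega) h2
    have := hi y h1 (by omega)
    omega
  · rw [e2] at h3
    have := lo 0 le_rfl (by omega)
    omega
  · rw [e1] at h1 h2; rw [e2] at h3
    have := lo (n * C.H - 1) (by omega) (by omega)
    omega
  · rw [e1] at h2
    have := lo (y - 1) (by omega) (by omega)
    have := hi (y - 1) (by omega) (by omega)
    omega
  · rw [e1] at h1 h2
    have := lo (n * C.H - 1) (by omega) (by omega)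
    have := hi (n * C.H - 1) (by omega) (by omega)
    omega
  · rw [e1] at h2
    have := lo (y + 1) (by omega) h2
    have := hi (y + 1) (by omega) h2
    omega
  · have := lo 0 le_rfl (by omega)
    have := hi 0 le_rfl (by omega)
    omega

/-- the colours of the window off the rectangle and the string -/
lemma fill_rect (hLow : ∀ Y, 0 ≤ Y → Y < C.H → C.LO + 1 ≤ C.A Y) (h0 : x0 < n * C.W)
    (hR : ¬ (n * C.LO + n - 2 ≤ x ∧ x < n * C.W ∧ -1 ≤ y ∧ y < n * C.H + 1)) (hs : ¬ (y = r ∧ x0 ≤ x)) :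
    (rcol (C.win n he h8 cr) r c).fill x y = fillC C n cr x y := by
  unfold Win.fill fillC
  change (if y < 0 then C.CB else if n * C.H ≤ y then C.CT else if x < (C.win n he h8 cr).a y then
    C.CL (y / n) else if y = r then c else cr y) = _
  by_cases c1 : y < 0
  · rw [if_pos c1, if_pos c1]
  · by_cases c2 : n * C.H ≤ y
    · rw [if_neg c1, if_neg c1, if_pos c2, if_pos c2]
    · rw [if_neg c1, if_neg c1, if_neg c2, if_neg c2]
      have hp : 0 < n := by omega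
      have hr := Pool.Agent.H54.W.CD.row_of (C := C) (y := y) hp (by omega) (by omega)
      have k1 := low_a (he := he) (h8 := h8) (cr := cr) hLow (y := y) (by omega) (by omega)
      have k2 : (C.win n he h8 cr).a y ≤ n * C.A (y / n) := by
        change C.wa n y ≤ _
        rcases C.wa_cases n y with ⟨-, e⟩ | ⟨-, e⟩ <;> omega
      have k3 : n * C.A (y / n) ≤ n * C.W := mul_le_mul_of_nonneg_left (C.AW _ hr.1 hr.2).le hp.le
      by_cases c3 : x < (C.win n he h8 cr).a y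
      · rw [if_pos c3, if_pos (by omega)]
      · have k4 : n * C.W ≤ x := by omega
        rw [if_neg c3, if_neg (show ¬ x < n * C.A (y / n) by omega),
          if_neg (show ¬ y = r from fun h => hs ⟨h, by omega⟩)]

/-- the rectangle of the window in a box -/
lemma ri_win (hLow : ∀ Y, 0 ≤ Y → Y < C.H → C.LO + 1 ≤ C.A Y) (h8 : 8 ≤ n) (h0 : 4 ≤ r) (h1 : r + 4 ≤ n * C.H)
    (hz : Pool.Agent.H21.W.RP C n x0 r) (x1 : X1 ≤ n * C.LO + n - 4) (x2 : n * C.W + 2 ≤ X2) (y1 : Y1 ≤ -2)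
    (y2 : n * C.H + 1 < Y2) :
    RI C n r x0 (n * C.LO + n - 2) (n * C.W) (-1) (n * C.H + 1) X1 X2 Y1 Y2 := by
  obtain ⟨z1, z2, z3, z4⟩ := hz
  have hp : 0 < n := by omega
  have hr := Pool.Agent.H54.W.CD.row_of (C := C) hp z1 z2
  have key : ∀ q, 0 ≤ q → q < C.H → n * C.LO + n ≤ n * C.A q := fun q f1 f2 => by
    have := mul_le_mul_of_nonneg_left (hLow q f1 f2) hp.le
    rwa [mul_add, mul_one] at this
  have := key _ hr.1 hr.2
  exact ⟨h8, h0, h1, fun q f1 f2 => by have := key q f1 f2; omega, le_rfl, by omega, by omega, by omega, z4,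
    by omega, by omega, by omega, y2⟩

/-- natural colours off the rectangle -/
lemma natO_win (hLow : ∀ Y, 0 ≤ Y → Y < C.H → C.LO + 1 ≤ C.A Y) (H : Pos (C.win n he h8 cr) τ)
    (h0 : x0 < n * C.W) (hω : ω ⊆ (C.win n he h8 cr).EJ τ)
    (w1 : ∀ x y, lt (x, y) ∈ Wo → ¬ (C.win n he h8 cr).InZ x y)
    (w2 : ∀ x y, (X1 ≤ x ∧ x < X2 ∧ Y1 ≤ y ∧ y < Y2) → ¬ (C.win n he h8 cr).InZ x y → ¬ (y = r ∧ x0 ≤ x) →
      (lt (x, y) ∈ Wo ↔ (C.win n he h8 cr).fill x y = true)) :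
    NatO C n cr r x0 (n * C.LO + n - 2) (n * C.W) (-1) (n * C.H + 1) X1 X2 Y1 Y2
      (ω ∪ (rcol (C.win n he h8 cr) r c).WJ τ Wo) := by
  intro x y hb hR hs
  have hE : ¬ (C.win n he h8 cr).InE τ x y := fun h => hR (in_rect hLow H (Or.inl h))
  have hA : ¬ (C.win n he h8 cr).TA τ x y := fun h => hR (in_rect hLow H (Or.inr (Or.inl h)))
  have hB : ¬ (C.win n he h8 cr).TB τ x y := fun h => hR (in_rect hLow H (Or.inr (Or.inr h)))
  have h1 : lt (x, y) ∉ ω := fun h => hE ((Win.mem_TS (D := C.win n he h8 cr)).1 (hω h)).2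
  have e1 := fill_rect (he := he) (h8 := h8) (cr := cr) (c := c) hLow h0 hR hs
  have e2 := fill_rect (he := he) (h8 := h8) (cr := cr) (c := cr r) hLow h0 hR hs
  have e3 : (rcol (C.win n he h8 cr) r (cr r)).fill x y = (C.win n he h8 cr).fill x y := by
    unfold Win.fill
    change (if y < 0 then C.CB else if n * C.H ≤ y then C.CT else if x < (C.win n he h8 cr).a y then
      C.CL (y / n) else if y = r then cr r else cr y) = (if y < 0 then C.CB else if n * C.H ≤ y then C.CT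
      else if x < (C.win n he h8 cr).a y then C.CL (y / n) else cr y)
    by_cases q : y = r
    · rw [if_pos q, q]
    · rw [if_neg q]
  rw [e3] at e2
  rw [mem_union, or_iff_right h1]
  unfold Win.WJ
  rw [mem_union]
  unfold Win.WR
  rw [Win.mem_TS]
  change (((C.win n he h8 cr).InZ x y ∧ (C.win n he h8 cr).InZ x y ∧ ¬ (C.win n he h8 cr).InE τ x y ∧
    (((C.win n he h8 cr).TA τ x y ∧ (x + y) % 2 = 0) ∨ ((C.win n he h8 cr).TB τ x y ∧ (x + y) % 2 = 1) ∨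
    (¬ (C.win n he h8 cr).TA τ x y ∧ ¬ (C.win n he h8 cr).TB τ x y ∧
      (rcol (C.win n he h8 cr) r c).fill x y = true))) ∨ lt (x, y) ∈ Wo) ↔ _
  rw [e1]
  by_cases hZ : (C.win n he h8 cr).InZ x y
  · have hW : lt (x, y) ∉ Wo := fun h => w1 x y h hZ
    tauto
  · have hW := w2 x y hb hZ hs
    rw [e2] at hW
    tauto

/-- **Box independence for the window with a line.** -/
theorem box_win (hLow : ∀ Y, 0 ≤ Y → Y < C.H → C.LO + 1 ≤ C.A Y) (h0 : 4 ≤ r) (h1 : r + 4 ≤ n * C.H)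
    (hz : Pool.Agent.H21.W.RP C n x0 r)
    (hcr : ∀ y, 0 ≤ y → y < n * C.H → y ≠ r → cr y = if y < r then c0 else !c0)
    (H : Pos (C.win n he h8 cr) τ) (hω : ω ⊆ (C.win n he h8 cr).EJ τ)
    (x1 : X1 ≤ n * C.LO + n - 4) (x2 : n * C.W + 2 ≤ X2) (y1 : Y1 ≤ -2) (y2 : n * C.H + 1 < Y2)
    (x1' : X1' ≤ n * C.LO + n - 4) (x2' : n * C.W + 2 ≤ X2') (y1' : Y1' ≤ -2) (y2' : n * C.H + 1 < Y2')
    (w1 : ∀ x y, lt (x, y) ∈ Wo → ¬ (C.win n he h8 cr).InZ x y)
    (w2 : ∀ x y, (X1 ≤ x ∧ x < X2 ∧ Y1 ≤ y ∧ y < Y2) → ¬ (C.win n he h8 cr).InZ x y → ¬ (y = r ∧ x0 ≤ x) →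
      (lt (x, y) ∈ Wo ↔ (C.win n he h8 cr).fill x y = true))
    (w1' : ∀ x y, lt (x, y) ∈ Wo' → ¬ (C.win n he h8 cr).InZ x y)
    (w2' : ∀ x y, (X1' ≤ x ∧ x < X2' ∧ Y1' ≤ y ∧ y < Y2') → ¬ (C.win n he h8 cr).InZ x y →
      ¬ (y = r ∧ x0 ≤ x) → (lt (x, y) ∈ Wo' ↔ (C.win n he h8 cr).fill x y = true))
    (hΨ : Only C c0 Ψ) :
    Phi C n c0 x0 r X1 X2 Y1 Y2 Ψ (ω ∪ (rcol (C.win n he h8 cr) r c).WJ τ Wo) =
      Phi C n c0 x0 r X1' X2' Y1' Y2' Ψ (ω ∪ (rcol (C.win n he h8 cr) r c').WJ τ Wo') := by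
  refine box_indep (ri_win hLow h8 h0 h1 hz x1 x2 y1 y2) (ri_win hLow h8 h0 h1 hz x1' x2' y1' y2') hcr hcr
    (natO_win hLow H hz.2.2.2 hω w1 w2) (natO_win hLow H hz.2.2.2 hω w1' w2') (fun x y f1 f2 f3 f4 f5 => ?_) hΨ
  have hp : 0 < n := by omega
  have hZ : (C.win n he h8 cr).InZ x y := by
    refine ⟨?_, f2.le, by omega, ?_⟩
    · change n * C.LO - 1 ≤ x + 2
      omega
    · change y ≤ n * C.H + 1
      omega
  have g1 : lt (x, y) ∉ Wo := fun h => w1 x y h hZ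
  have g2 : lt (x, y) ∉ Wo' := fun h => w1' x y h hZ
  have g3 : lt (x, y) ∈ (rcol (C.win n he h8 cr) r c).WR τ ↔ lt (x, y) ∈ (rcol (C.win n he h8 cr) r c').WR τ := by
    obtain ⟨z1, z2, z3, z4⟩ := hz
    refine Pool.Agent.H93.W.other_WR (D := C.win n he h8 cr) z1 z2 (fun h => ?_)
    have : x = n * C.W := h.1
    omega
  rw [mem_union, mem_union]
  unfold Win.WJ
  rw [mem_union, mem_union, or_iff_left g1, or_iff_left g2, g3]

end Pool.Agent.H33.W
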